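import Pool.Agent.Lib.MP_ef09c4_co.Rel

/-!
Products of Hecke generators and the operators that append or prepend a letter.
-/

set_option autoImplicit false

namespace Pool.Agent.Lib.MP_ef09c4_co

open MvPolynomial

variable {K : Type} [Field K]

/-- The multiple `t T⁻¹` of the inverse generator. -/
noncomputable def Tb (t : K) (i : ℕ) : VV K →ₗ[K] VV K := TT t i + (t - 1) • LinearMap.id

/-- The inverse generator. -/
noncomputable def Ti (t : K) (i : ℕ) : VV K →ₗ[K] VV K := t⁻¹ • Tb t i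

theorem Tb_apply (t : K) (i : ℕ) (G : VV K) : Tb t i G = TT t i G + (t - 1) • G := rfl
theorem Ti_apply (t : K) (i : ℕ) (G : VV K) : Ti t i G = t⁻¹ • Tb t i G := rfl

theorem Tb_TT (t : K) (i : ℕ) (G : VV K) : Tb t i (TT t i G) = t • G := by
  rw [Tb_apply, TT_quad]; abel

theorem TT_Tb (t : K) (i : ℕ) (G : VV K) : TT t i (Tb t i G) = t • G := by
  rw [Tb_apply, map_add, map_smul, TT_quad]; abel

theorem Ti_TT {t : K} (ht : t ≠ 0) (i : ℕ) (G : VV K) : Ti t i (TT t i G) = G := by
  rw [Ti_apply, Tb_TT, smul_smul, inv_mul_cancel₀ ht, one_smul]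

theorem TT_Ti {t : K} (ht : t ≠ 0) (i : ℕ) (G : VV K) : TT t i (Ti t i G) = G := by
  rw [Ti_apply, map_smul, TT_Tb, smul_smul, inv_mul_cancel₀ ht, one_smul]

theorem comm_Tb {t : K} {i j : ℕ} (L : VV K →ₗ[K] VV K)
    (h : ∀ G, L (TT t i G) = TT t j (L G)) (G : VV K) : L (Tb t i G) = Tb t j (L G) := by
  rw [Tb_apply, Tb_apply, map_add, map_smul, h]

theorem comm_Ti {t : K} {i j : ℕ} (L : VV K →ₗ[K] VV K)
    (h : ∀ G, L (TT t i G) = TT t j (L G)) (G : VV K) : L (Ti t i G) = Ti t j (L G) := by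
  rw [Ti_apply, Ti_apply, map_smul, comm_Tb L h]

/-- The ascending product `T_j ⋯ T_(j+k-1)`. -/
noncomputable def Ar (t : K) (j : ℕ) : ℕ → VV K →ₗ[K] VV K
  | 0 => LinearMap.id
  | k + 1 => (Ar t j k).comp (TT t (j + k))

/-- The descending product `T_(j+k-1) ⋯ T_j`. -/
noncomputable def Br (t : K) (j : ℕ) : ℕ → VV K →ₗ[K] VV K
  | 0 => LinearMap.id
  | k + 1 => (TT t (j + k)).comp (Br t j k)

@[simp] theorem Ar_zero (t : K) (j : ℕ) (G : VV K) : Ar t j 0 G = G := rfl
@[simp] theorem Br_zero (t : K) (j : ℕ) (G : VV K) : Br t j 0 G = G := rfl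
theorem Ar_succ (t : K) (j k : ℕ) (G : VV K) :
    Ar t j (k + 1) G = Ar t j k (TT t (j + k) G) := rfl
theorem Br_succ (t : K) (j k : ℕ) (G : VV K) :
    Br t j (k + 1) G = TT t (j + k) (Br t j k G) := rfl

theorem Ar_succ' (t : K) (j k : ℕ) (G : VV K) :
    Ar t j (k + 1) G = TT t j (Ar t (j + 1) k G) := by
  induction k generalizing G with
  | zero => rfl
  | succ k ih => rw [Ar_succ, ih, Ar_succ, show j + 1 + k = j + (k + 1) by omega]

theorem Br_succ' (t : K) (j k : ℕ) (G : VV K) :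
    Br t j (k + 1) G = Br t (j + 1) k (TT t j G) := by
  induction k generalizing G with
  | zero => rfl
  | succ k ih => rw [Br_succ, ih, Br_succ, show j + 1 + k = j + (k + 1) by omega]

theorem comm_Ar {t : K} {j j' k : ℕ} (L : VV K →ₗ[K] VV K)
    (h : ∀ i < k, ∀ G, L (TT t (j + i) G) = TT t (j' + i) (L G)) (G : VV K) :
    L (Ar t j k G) = Ar t j' k (L G) := by
  induction k generalizing G with
  | zero => rfl
  | succ k ih => rw [Ar_succ, Ar_succ, ih (fun i hi => h i (by omega)), h k (by omega)]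

theorem comm_Br {t : K} {j j' k : ℕ} (L : VV K →ₗ[K] VV K)
    (h : ∀ i < k, ∀ G, L (TT t (j + i) G) = TT t (j' + i) (L G)) (G : VV K) :
    L (Br t j k G) = Br t j' k (L G) := by
  induction k generalizing G with
  | zero => rfl
  | succ k ih => rw [Br_succ, Br_succ, h k (by omega), ih (fun i hi => h i (by omega))]

theorem TT_Ar_far (t : K) {i j k : ℕ} (h : j + k < i ∨ i + 1 < j) (G : VV K) :
    TT t i (Ar t j k G) = Ar t j k (TT t i G) :=
  comm_Ar (TT t i) (fun _ _ => TT_far t (by omega)) G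

theorem TT_Br_far (t : K) {i j k : ℕ} (h : j + k < i ∨ i + 1 < j) (G : VV K) :
    TT t i (Br t j k G) = Br t j k (TT t i G) :=
  comm_Br (TT t i) (fun _ _ => TT_far t (by omega)) G

theorem Ar_TT (t : K) {i j k : ℕ} (h1 : j ≤ i) (h2 : i + 1 < j + k) (G : VV K) :
    Ar t j k (TT t i G) = TT t (i + 1) (Ar t j k G) := by
  induction k generalizing G with
  | zero => omega
  | succ k ih =>
    rcases Nat.lt_or_ge (i + 1) (j + k) with h | h
    · rw [Ar_succ, Ar_succ, TT_far t (Or.inr h), ih h]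
    · obtain ⟨k, rfl⟩ : ∃ k', k = k' + 1 := ⟨k - 1, by omega⟩
      obtain rfl : i = j + k := by omega
      rw [Ar_succ, Ar_succ, Ar_succ, Ar_succ, show j + (k + 1) = j + k + 1 from rfl, TT_braid,
        TT_Ar_far t (by omega)]

theorem Br_TT (t : K) {i j k : ℕ} (h1 : j ≤ i) (h2 : i + 1 < j + k) (G : VV K) :
    Br t j k (TT t (i + 1) G) = TT t i (Br t j k G) := by
  induction k generalizing G with
  | zero => omega
  | succ k ih =>
    rcases Nat.lt_or_ge (i + 1) (j + k) with h | h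
    · rw [Br_succ, Br_succ, ih h, TT_far t (Or.inr h)]
    · obtain ⟨k, rfl⟩ : ∃ k', k = k' + 1 := ⟨k - 1, by omega⟩
      obtain rfl : i = j + k := by omega
      rw [Br_succ, Br_succ, Br_succ, Br_succ, show j + (k + 1) = j + k + 1 from rfl, TT_braid,
        TT_Br_far t (i := j + k + 1) (by omega)]

theorem Ar_Ar (t : K) (k : ℕ) (G : VV K) :
    Ar t 0 (k + 1) (Ar t 0 k G) = Ar t 1 k (Ar t 0 (k + 1) G) :=
  comm_Ar (Ar t 0 (k + 1)) (fun i hi G => by
    rw [Ar_TT t (by omega) (by omega), show 0 + i + 1 = 1 + i by omega]) G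

theorem T0_Ar_Ar (t : K) (k : ℕ) (G : VV K) :
    TT t 0 (Ar t 0 (k + 1) (Ar t 0 k G)) = Ar t 0 (k + 1) (Ar t 0 k (TT t k G)) := by
  induction k generalizing G with
  | zero => rfl
  | succ k ih =>
    rw [Ar_succ t 0 (k + 1), Ar_succ t 0 (k + 1), Ar_succ t 0 k G, Ar_succ t 0 k (TT t (k + 1) G),
      TT_Ar_far t (i := 0 + (k + 1)) (by omega), TT_Ar_far t (i := 0 + (k + 1)) (by omega), ih]
    simp only [zero_add]
    rw [TT_braid]

theorem Ar_Br (t : K) (k : ℕ) (G : VV K) :
    Ar t 0 (k + 1) (Br t 0 k G) = Br t 0 (k + 1) (Ar t 1 k G) := by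
  induction k generalizing G with
  | zero => rfl
  | succ k ih =>
    rw [Br_succ t 0 (k + 1), Ar_succ t 1 k, ← ih, Ar_succ t 0 (k + 1), Ar_succ t 0 k,
      Ar_succ t 0 k, Br_succ t 0 k, TT_Ar_far t (i := 0 + (k + 1)) (by omega),
      ← TT_Br_far t (i := 1 + k) (by omega)]
    simp only [zero_add]
    rw [TT_braid, add_comm 1 k]

theorem Br_yy_Ar (t : K) (k : ℕ) (G : VV K) :
    Br t 0 k (yy 0 * Ar t 0 k G) = t ^ k • (yy k * G) := by
  induction k generalizing G with
  | zero => simp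
  | succ k ih => rw [Br_succ, Ar_succ, ih, map_smul, zero_add, TT_yy_TT, smul_smul, pow_succ]

theorem yy_TT (t : K) (i : ℕ) (G : VV K) (ht : t ≠ 0) :
    yy i * TT t i G = Tb t i (yy (i + 1) * G) := by
  have := congrArg (Ti t i) (TT_yy_TT t i G)
  rwa [Ti_TT ht, map_smul, Ti_apply, smul_smul, mul_inv_cancel₀ ht, one_smul] at this

/-- The first raising operator. -/
noncomputable def dp (t : K) (k : ℕ) : VV K →ₗ[K] VV K := (Br t 0 k).comp (tau t).toLinearMap

/-- Prepending a one. -/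
noncomputable def PP (q t : K) (k : ℕ) : VV K →ₗ[K] VV K :=
  (Ar t 0 k).comp (sig q t k).toLinearMap

theorem dp_apply (t : K) (k : ℕ) (G : VV K) : dp t k G = Br t 0 k (tau t G) := rfl
theorem PP_apply (q t : K) (k : ℕ) (G : VV K) : PP q t k G = Ar t 0 k (sig q t k G) := rfl

theorem sig_Ar (q t : K) {i j k : ℕ} (h : j + k < i) (G : VV K) :
    sig q t i (Ar t j k G) = Ar t j k (sig q t i G) :=
  comm_Ar (sig q t i).toLinearMap (fun _ _ => sig_TT q t (by omega) (by omega)) G

theorem sig_Br (q t : K) {i j k : ℕ} (h : j + k < i) (G : VV K) :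
    sig q t i (Br t j k G) = Br t j k (sig q t i G) :=
  comm_Br (sig q t i).toLinearMap (fun _ _ => sig_TT q t (by omega) (by omega)) G

theorem tau_Ar (t : K) (k : ℕ) (G : VV K) : tau t (Ar t 0 k G) = Ar t 1 k (tau t G) :=
  comm_Ar (tau t).toLinearMap (fun i _ G => by
    rw [show 1 + i = 0 + i + 1 by omega]; exact tau_TT t _ G) G

theorem PP_dp (q t : K) (k : ℕ) (G : VV K) :
    PP q t (k + 1) (dp t k G) = dp t (k + 1) (PP q t k G) := by
  rw [PP_apply, dp_apply, PP_apply, dp_apply, sig_Br q t (by omega), Ar_Br, tau_Ar, sig_tau]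

theorem dp_TT (t : K) {i k : ℕ} (h : i + 1 < k) (G : VV K) :
    dp t k (TT t i G) = TT t i (dp t k G) := by
  rw [dp_apply, dp_apply, tau_TT, Br_TT t (by omega) (by omega)]

theorem dp_TT_far (t : K) {i k : ℕ} (h : k ≤ i) (G : VV K) :
    dp t k (TT t i G) = TT t (i + 1) (dp t k G) := by
  rw [dp_apply, dp_apply, tau_TT, TT_Br_far t (by omega)]

theorem PP_TT (q t : K) {i k : ℕ} (h : i + 1 < k) (G : VV K) :
    PP q t k (TT t i G) = TT t (i + 1) (PP q t k G) := by
  rw [PP_apply, PP_apply, sig_TT q t (by omega) (by omega), Ar_TT t (by omega) (by omega)]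

theorem PP_TT_far (q t : K) {i k : ℕ} (h : k < i) (G : VV K) :
    PP q t k (TT t i G) = TT t i (PP q t k G) := by
  rw [PP_apply, PP_apply, sig_TT q t (by omega) (by omega), TT_Ar_far t (by omega)]

theorem T0_PP_PP (q t : K) (k : ℕ) {G : VV K} (h : TT t k G = G) :
    TT t 0 (PP q t (k + 1) (PP q t k G)) = PP q t (k + 1) (PP q t k G) := by
  rw [PP_apply, PP_apply, sig_Ar q t (by omega), T0_Ar_Ar, ← sig_sig_TT, h]

theorem dm_Ar (t : K) (k : ℕ) (G : VV K) : dm t (Ar t 1 k G) = Ar t 0 k (dm t G) :=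
  comm_Ar (dm t) (fun i _ G => by
    rw [show 1 + i = 0 + i + 1 by omega]; exact dm_TT t _ G) G

theorem dm_Br (t : K) (k : ℕ) (G : VV K) : dm t (Br t 1 k G) = Br t 0 k (dm t G) :=
  comm_Br (dm t) (fun i _ G => by
    rw [show 1 + i = 0 + i + 1 by omega]; exact dm_TT t _ G) G

theorem db_Br (t : K) (k : ℕ) (G : VV K) : db t (Br t 1 k G) = Br t 0 k (db t G) :=
  comm_Br (db t) (fun i _ G => by
    rw [show 1 + i = 0 + i + 1 by omega]; exact db_TT t _ G) G

theorem Phi_TT (q t : K) {i j : ℕ} (h1 : j ≠ i) (h2 : j ≠ i + 1) (G : VV K) :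
    Phi q t j (TT t (i + 1) G) = TT t i (Phi q t j G) := by
  rw [Phi_apply, Phi_apply, map_sub, dm_TT, sig_TT q t h1 h2, sig_TT q t (by omega) (by omega),
    dm_TT]

/-- The elements that play the part of the second family of variables. -/
noncomputable def WW (q t : K) (j : ℕ) : ℕ → VV K →ₗ[K] VV K
  | 0 => (Ar t 0 j).comp (Phi q t j)
  | i + 1 => (Ti t i).comp ((WW q t j i).comp (Tb t i))

theorem WW_zero (q t : K) (j : ℕ) (G : VV K) : WW q t j 0 G = Ar t 0 j (Phi q t j G) := rfl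
theorem WW_succ (q t : K) (j i : ℕ) (G : VV K) :
    WW q t j (i + 1) G = Ti t i (WW q t j i (Tb t i G)) := rfl

theorem WW_zero' (q : K) {t : K} (ht : t ≠ 0) (j : ℕ) (G : VV K) :
    WW q t j 0 G = PP q t j (dm t G) - dm t (Ti t 0 (PP q t (j + 1) G)) := by
  rw [WW_zero, Phi_apply, map_sub, PP_apply, PP_apply, Ar_succ', Ti_TT ht, zero_add, dm_Ar]

/-- Appending a zero. -/
noncomputable def ZZ (q t : K) (k : ℕ) : VV K →ₗ[K] VV K :=
  (dm t).comp (PP q t k) + ∑ i ∈ Finset.range k, WW q t (k - 1) i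

theorem ZZ_apply (q t : K) (k : ℕ) (G : VV K) :
    ZZ q t k G = dm t (PP q t k G) + ∑ i ∈ Finset.range k, WW q t (k - 1) i G := by
  simp [ZZ]

theorem WW_TT_far (q t : K) {i j l : ℕ} (hi : i ≤ j) (h : j < l) (G : VV K) :
    WW q t j i (TT t (l + 1) G) = TT t l (WW q t j i G) := by
  induction i generalizing G with
  | zero => rw [WW_zero, WW_zero, Phi_TT q t (by omega) (by omega), TT_Ar_far t (by omega)]
  | succ i ih =>
    rw [WW_succ, WW_succ, comm_Ti (TT t l) (TT_far t (by omega)), ← ih (by omega),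
      comm_Tb (TT t (l + 1)) (TT_far t (by omega))]

theorem ZZ_TT_far (q t : K) {k l : ℕ} (h : k ≤ l) (G : VV K) :
    ZZ q t k (TT t (l + 1) G) = TT t l (ZZ q t k G) := by
  rw [ZZ_apply, ZZ_apply, map_add, map_sum, PP_TT_far q t (by omega), dm_TT]
  congr 1
  refine Finset.sum_congr rfl fun i hi => ?_
  have := Finset.mem_range.1 hi
  exact WW_TT_far q t (by omega) (by omega) G

variable [CharZero K]

theorem dm_dm_Ti {t : K} (ht : t ≠ 0) (G : VV K) : dm t (dm t (Ti t 0 G)) = dm t (dm t G) := by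
  rw [← dm_dm_T0, TT_Ti ht]

theorem tau_dm {t : K} (ht : t ≠ 0) (G : VV K) :
    dm t (TT t 0 (tau t G)) = tau t (dm t G) - (t - 1) • (yy 0 * G) := by
  rw [dm_eq, dm_eq, yy_TT t 0 _ ht, Tb_apply, map_add, map_smul, ← tau_yy t, ← map_mul, db_T0_tau,
    db_tau, map_neg]
  abel

theorem dm_dp {t : K} (ht : t ≠ 0) (k : ℕ) (G : VV K) :
    dm t (dp t (k + 1) G) = dp t k (dm t G) - (t - 1) • Br t 0 k (yy 0 * G) := by
  rw [dp_apply, dp_apply, Br_succ', zero_add, dm_Br, tau_dm ht, map_sub, map_smul]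

theorem dm_Phi (q : K) {t : K} (ht : t ≠ 0) (j : ℕ) (G : VV K) :
    dm t (Phi q t (j + 1) (Tb t 0 G)) = Phi q t j (dm t G) := by
  obtain ⟨H, rfl⟩ : ∃ H, G = TT t 0 H := ⟨Ti t 0 G, (TT_Ti ht 0 G).symm⟩
  rw [Tb_TT, map_smul, map_smul, Phi_apply, Phi_apply, map_sub, smul_sub, dm_dm_T0]
  linear_combination (exp := 1) rel_S4 q t j H

theorem dm_WW (q : K) {t : K} (ht : t ≠ 0) (j i : ℕ) (G : VV K) :
    dm t (WW q t (j + 1) (i + 1) G) = WW q t j i (dm t G) := by
  induction i generalizing G with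
  | zero => rw [WW_succ, WW_zero, WW_zero, Ar_succ', Ti_TT ht, zero_add, dm_Ar, dm_Phi q ht]
  | succ i ih =>
    rw [WW_succ, comm_Ti (dm t) (dm_TT t i), ih, comm_Tb (dm t) (dm_TT t i), WW_succ]

theorem ZZ_dm (q : K) {t : K} (ht : t ≠ 0) (k : ℕ) (G : VV K) :
    ZZ q t k (dm t G) = dm t (ZZ q t (k + 1) G) := by
  rw [ZZ_apply, ZZ_apply, map_add, Finset.sum_range_succ', map_add, map_sum, Nat.add_sub_cancel,
    WW_zero' q ht, map_sub, dm_dm_Ti ht]
  rcases k with _ | k
  · simp
  · simp only [Nat.add_sub_cancel, dm_WW q ht]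
    abel

theorem WW_PP (q : K) {t : K} (ht : t ≠ 0) (j : ℕ) {i : ℕ} (hi : i ≤ j) {G : VV K}
    (h : TT t (j + 1) G = G) :
    WW q t (j + 1) (i + 1) (PP q t (j + 1) G) = PP q t (j + 1) (WW q t j i G) := by
  induction i generalizing G with
  | zero =>
    rw [WW_succ, WW_zero, WW_zero, Ar_succ', Ti_TT ht, PP_apply, PP_apply, Ar_succ', Tb_TT,
      map_smul, sig_Ar q t (by omega), Ar_Ar, Ar_succ, zero_add, zero_add, rel_S5 q t j h,
      comm_Ar (j' := 0) (Phi q t (j + 1)) (fun i hi G => by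
        rw [show 1 + i = 0 + i + 1 by omega]; exact Phi_TT q t (by omega) (by omega) G)]
    simp only [map_smul]
  | succ i ih =>
    rw [WW_succ, ← comm_Tb (PP q t (j + 1)) (PP_TT q t (i := i) (by omega)), ih (by omega)
      (by rw [comm_Tb (TT t (j + 1)) (TT_far t (by omega)), h]),
      ← comm_Ti (PP q t (j + 1)) (PP_TT q t (i := i) (by omega)), WW_succ]

theorem ZZ_PP (q : K) {t : K} (ht : t ≠ 0) (k : ℕ) {G : VV K} (h : TT t k G = G) :
    ZZ q t (k + 1) (PP q t k G) = PP q t k (ZZ q t k G) := by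
  have h0 : Ti t 0 (PP q t (k + 1) (PP q t k G)) = PP q t (k + 1) (PP q t k G) := by
    rw [← T0_PP_PP q t k h, Ti_TT ht, T0_PP_PP q t k h]
  rw [ZZ_apply, ZZ_apply, map_add, Finset.sum_range_succ', map_sum, Nat.add_sub_cancel,
    WW_zero' q ht, h0]
  rcases k with _ | k
  · simp
  · rw [Nat.add_sub_cancel, Finset.sum_congr rfl fun i hi =>
      WW_PP q ht k (Nat.lt_succ_iff.1 (Finset.mem_range.1 hi)) h]
    abel

theorem WW_dp (q : K) {t : K} (ht : t ≠ 0) (j : ℕ) {i : ℕ} (hi : i ≤ j) (G : VV K) :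
    WW q t (j + 1) i (dp t (j + 1) G) = dp t (j + 1) (WW q t j i G) := by
  induction i generalizing G with
  | zero =>
    have e : PP q t (j + 1) (Br t 0 j (yy 0 * G)) =
        Br t 0 (j + 1) (yy 0 * Ti t 0 (PP q t (j + 1) G)) := by
      rw [comm_Br (j' := 1) (PP q t (j + 1)) (fun i hi G => by
        rw [show 1 + i = 0 + i + 1 by omega]; exact PP_TT q t (by omega) G), Br_succ',
        PP_apply, PP_apply, Ar_succ', Ar_succ', Ti_TT ht, map_mul, sig_yy, zero_add]
      have := comm_Ar (t := t) (j := 1) (j' := 1) (k := j) (LinearMap.mulLeft K (yy 0))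
          (fun i _ G => (TT_yy t (by omega) (by omega) G).symm) (sig q t (j + 1) G)
      rw [LinearMap.mulLeft_apply, LinearMap.mulLeft_apply] at this
      rw [this]
    rw [WW_zero' q ht, WW_zero' q ht, PP_dp, ← comm_Ti (dp t (j + 1 + 1)) (dp_TT t (by omega)),
      dm_dp ht, dm_dp ht, map_sub, map_sub, map_smul, PP_dp, e]
    abel
  | succ i ih =>
    rw [WW_succ, ← comm_Tb (dp t (j + 1)) (dp_TT t (i := i) (by omega)), ih (by omega),
      ← comm_Ti (dp t (j + 1)) (dp_TT t (i := i) (by omega)), WW_succ]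

omit [CharZero K] in
theorem WW_Br (q : K) {t : K} (ht : t ≠ 0) (k i : ℕ) (G : VV K) :
    Ar t 0 i (WW q t k i (Br t 0 i G)) = t ^ i • WW q t k 0 G := by
  induction i generalizing G with
  | zero => simp
  | succ i ih =>
    rw [Ar_succ, Br_succ, WW_succ, zero_add, TT_Ti ht, Tb_TT, map_smul, map_smul, ih, smul_smul,
      pow_succ']

omit [CharZero K] in
theorem Ar_inj {t : K} (ht : t ≠ 0) (j k : ℕ) {G H : VV K} (h : Ar t j k G = Ar t j k H) :
    G = H := by
  induction k generalizing G H with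
  | zero => exact h
  | succ k ih =>
    rw [Ar_succ, Ar_succ] at h
    have := congrArg (Ti t (j + k)) (ih h)
    rwa [Ti_TT ht, Ti_TT ht] at this

theorem WW_dp_top (q : K) {t : K} (ht : t ≠ 0) (k : ℕ) (G : VV K) :
    WW q t k k (dp t k G) = (q * (t - 1)) • Br t 0 k (yy 0 * PP q t k G) := by
  have e : WW q t k k (dp t k G) = t ^ k • Phi q t k (tau t G) := by
    apply Ar_inj ht 0 k
    rw [dp_apply, WW_Br q ht, WW_zero, map_smul]
  rw [e, PP_apply, Br_yy_Ar, Phi_apply, sig_tau, dm_tau, dm_tau, map_mul, sig_pp]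
  simp only [smul_eq_C_mul, map_mul, map_sub, map_one]
  ring

theorem ZZ_dp (q : K) {t : K} (ht : t ≠ 0) (k : ℕ) (G : VV K) :
    ZZ q t (k + 1) (dp t k G) = dp t k (ZZ q t k G) +
      (1 - q) • (dm t (dp t (k + 1) (PP q t k G)) - dp t k (dm t (PP q t k G))) := by
  rw [ZZ_apply, ZZ_apply, map_add, Finset.sum_range_succ, map_sum, Nat.add_sub_cancel,
    WW_dp_top q ht, PP_dp, dm_dp ht]
  have : ∑ i ∈ Finset.range k, WW q t k i (dp t k G) =
      ∑ i ∈ Finset.range k, dp t k (WW q t (k - 1) i G) := by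
    rcases k with _ | k
    · simp
    · exact Finset.sum_congr rfl fun i hi =>
        WW_dp q ht k (Nat.lt_succ_iff.1 (Finset.mem_range.1 hi)) G
  rw [this]
  module

/-- The operator of a word, last letter first, starting with `k` variables. -/
noncomputable def OO (q t : K) (k : ℕ) : List Bool → VV K →ₗ[K] VV K
  | [] => LinearMap.id
  | true :: u => (dp t (k + u.count true)).comp (OO q t k u)
  | false :: u => (ZZ q t (k + u.count true)).comp (OO q t k u)

omit [CharZero K] in
theorem OO_nil (q t : K) (k : ℕ) (G : VV K) : OO q t k [] G = G := rfl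
omit [CharZero K] in
theorem OO_true (q t : K) (k : ℕ) (u : List Bool) (G : VV K) :
    OO q t k (true :: u) G = dp t (k + u.count true) (OO q t k u G) := rfl
omit [CharZero K] in
theorem OO_false (q t : K) (k : ℕ) (u : List Bool) (G : VV K) :
    OO q t k (false :: u) G = ZZ q t (k + u.count true) (OO q t k u G) := rfl

omit [CharZero K] in
theorem OO_inv (q t : K) (k : ℕ) (u : List Bool) {G : VV K} (h : ∀ j, k ≤ j → TT t j G = G) :
    ∀ j, k + u.count true ≤ j → TT t j (OO q t k u G) = OO q t k u G := by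
  induction u with
  | nil => simpa [OO_nil] using h
  | cons b u ih =>
    intro j hj
    cases b
    · simp only [List.count_cons_of_ne, ne_eq, Bool.false_eq_true, not_false_eq_true] at hj
      rw [OO_false, ← ZZ_TT_far q t hj, ih _ (by omega)]
    · simp only [List.count_cons_self] at hj
      obtain ⟨j, rfl⟩ : ∃ j', j = j' + 1 := ⟨j - 1, by omega⟩
      rw [OO_true, ← dp_TT_far t (by omega), ih _ (by omega)]

theorem OO_PP (q : K) {t : K} (ht : t ≠ 0) (k : ℕ) (u : List Bool) {G : VV K}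
    (h : ∀ j, k ≤ j → TT t j G = G) :
    OO q t (k + 1) u (PP q t k G) = PP q t (k + u.count true) (OO q t k u G) := by
  induction u with
  | nil => rfl
  | cons b u ih =>
    cases b
    · rw [OO_false, OO_false, ih, Nat.add_right_comm, ZZ_PP q ht _ (OO_inv q t k u h _ le_rfl)]
      simp
    · rw [OO_true, OO_true, ih, Nat.add_right_comm, ← PP_dp]
      simp [add_assoc]

omit [CharZero K] in
theorem OO_append_true (q t : K) (k : ℕ) (u : List Bool) (G : VV K) :
    OO q t k (u ++ [true]) G = OO q t (k + 1) u (dp t k G) := by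
  induction u with
  | nil => rfl
  | cons b u ih =>
    have : k + (u ++ [true]).count true = k + 1 + u.count true := by simp; omega
    cases b
    · rw [List.cons_append, OO_false, OO_false, ih, this]
    · rw [List.cons_append, OO_true, OO_true, ih, this]

omit [CharZero K] in
theorem OO_append_false (q t : K) (k : ℕ) (u : List Bool) (G : VV K) :
    OO q t k (u ++ [false]) G = OO q t k u (ZZ q t k G) := by
  induction u with
  | nil => rfl
  | cons b u ih =>
    have : k + (u ++ [false]).count true = k + u.count true := by simp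
    cases b
    · rw [List.cons_append, OO_false, OO_false, ih, this]
    · rw [List.cons_append, OO_true, OO_true, ih, this]

omit [CharZero K] in
theorem TT_one (t : K) (j : ℕ) : TT t j (1 : VV K) = 1 := TT_of_sw t (map_one _)

/-- The rotation recursion. -/
theorem OO_rec (q : K) {t : K} (ht : t ≠ 0) (u : List Bool) :
    OO q t 0 (false :: u) 1 =
      (1 - q) • dm t (OO q t 0 (u ++ [true]) 1) + q • OO q t 0 (u ++ [false]) 1 := by
  have h1 : dp t 0 (1 : VV K) = 1 := by simp [dp_apply]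
  have h2 : PP q t 0 (1 : VV K) = 1 := by simp [PP_apply]
  have h3 := fun u => OO_PP q ht 0 u (G := 1) (fun j _ => TT_one t j)
  rw [h2] at h3
  rw [OO_append_true, OO_append_false, h1, OO_false]
  induction u with
  | nil =>
    simp only [OO_nil, ZZ_apply, List.count_nil, add_zero, h2, Finset.range_zero,
      Finset.sum_empty]
    module
  | cons b u ih =>
    cases b
    · have c : (false :: u).count true = u.count true := by simp
      rw [OO_false, OO_false, OO_false, c, ih, map_add, map_smul, map_smul, ZZ_dm q ht,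
        show 0 + u.count true + 1 = 0 + 1 + u.count true by omega]
    · have c : (true :: u).count true = u.count true + 1 := by simp
      rw [OO_true, OO_true, OO_true, c, ← add_assoc, ZZ_dp q ht, ih, map_add, map_smul, map_smul,
        h3, show 0 + u.count true + 1 = 0 + 1 + u.count true by omega]
      module

end Pool.Agent.Lib.MP_ef09c4_co
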