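import Pool.Agent.Lib.MP_ef09c4_co.Match

/-!
From vectors to lists.
-/

set_option autoImplicit false

namespace Pool.Agent.Lib.MP_ef09c4_co

/-- The entries of a vector, last entry first. -/
def rv {α : Type} : {n : ℕ} → (Fin n → α) → List α
  | 0, _ => []
  | n + 1, f => f (Fin.last n) :: rv fun i => f i.castSucc

section rv

variable {α β : Type}

theorem rv_succ {n : ℕ} (f : Fin (n + 1) → α) :
    rv f = f (Fin.last n) :: rv fun i => f i.castSucc := rfl

theorem length_rv {n : ℕ} (f : Fin n → α) : (rv f).length = n := by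
  induction n with
  | zero => rfl
  | succ n ih => rw [rv_succ, List.length_cons, ih]

theorem countP_rv {n : ℕ} (f : Fin n → α) (p : α → Bool) :
    (rv f).countP p = ∑ i, if p (f i) then 1 else 0 := by
  induction n with
  | zero => rfl
  | succ n ih => rw [rv_succ, List.countP_cons, ih, Fin.sum_univ_castSucc]

theorem sum_map_rv {n : ℕ} (f : Fin n → α) (g : α → ℕ) :
    ((rv f).map g).sum = ∑ i, g (f i) := by
  induction n with
  | zero => rfl
  | succ n ih => rw [rv_succ, List.map_cons, List.sum_cons, ih, Fin.sum_univ_castSucc, add_comm]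

theorem map_rv {n : ℕ} (f : Fin n → α) (g : α → β) : (rv f).map g = rv fun i => g (f i) := by
  induction n with
  | zero => rfl
  | succ n ih => rw [rv_succ, List.map_cons, ih, rv_succ]

theorem forall₂_rv {n : ℕ} (R : α → β → Prop) (f : Fin n → α) (g : Fin n → β) :
    List.Forall₂ R (rv f) (rv g) ↔ ∀ i, R (f i) (g i) := by
  induction n with
  | zero => simp [rv]
  | succ n ih => rw [rv_succ, rv_succ, List.forall₂_cons, ih, Fin.forall_fin_succ', and_comm]

theorem exists_rv {n : ℕ} (l : List α) (h : l.length = n) : ∃ f : Fin n → α, rv f = l := by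
  induction n generalizing l with
  | zero => exact ⟨Fin.elim0, (List.length_eq_zero_iff.1 h).symm⟩
  | succ n ih =>
    obtain ⟨a, l, rfl⟩ := List.exists_of_length_succ l h
    obtain ⟨f, rfl⟩ := ih l (by simpa using h)
    exact ⟨Fin.snoc f a, by simp [rv_succ]⟩

theorem rv_inj {n : ℕ} {f g : Fin n → α} (h : rv f = rv g) : f = g :=
  funext ((forall₂_rv Eq f g).1 (h ▸ List.forall₂_refl _))

end rv

variable {n N : ℕ}

theorem areaL_rv (g : Fin n → ℕ) (w : Fin n → Fin N) :
    areaL (rv fun i => (g i, w i)) = area g := by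
  rw [areaL, sum_map_rv, area, Finset.card_filter]
  symm
  rw [Nat.sub_eq_iff_eq_add, ← Finset.sum_add_distrib]
  · exact Finset.sum_congr rfl fun i _ => by split_ifs <;> omega
  · exact Finset.sum_le_sum fun i _ => by split_ifs <;> omega

theorem dinvL_rv (f : Fin n → ℕ × Fin N) :
    dinvL (rv f) = ∑ j, ∑ i, if i < j ∧ att (f i) (f j) = true then 1 else 0 := by
  induction n with
  | zero => rfl
  | succ n ih =>
    rw [rv_succ, dinvL, ih, countP_rv, Fin.sum_univ_castSucc, add_comm]
    simp only [Fin.sum_univ_castSucc, Fin.castSucc_lt_last, not_lt.2 (Fin.le_last _),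
      Fin.castSucc_lt_castSucc_iff, false_and, true_and, if_false, add_zero]

theorem dinvL_rv' (g : Fin n → ℕ) (w : Fin n → Fin N) :
    dinvL (rv fun i => (g i, w i)) = dinv g w := by
  rw [dinvL_rv, dinv, Finset.card_filter, Finset.card_filter, ← Finset.sum_add_distrib,
    Fintype.sum_prod_type_right]
  refine Finset.sum_congr rfl fun j _ => Finset.sum_congr rfl fun i _ => ?_
  simp only [att, decide_eq_true_eq]
  split_ifs <;> first | rfl | omega

theorem linkSeries_eq (v : Fin n → Bool) : linkSeries N v = FF ((rv v).map patB) := by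
  have h := gf_bij (σ := Fin N ⊕ Fin 2)
    (T := {x : (Fin n → ℕ) × (Fin n → Fin N) | ∀ i, x.1 i = 0 ↔ v i = true})
    (S := cfg ((rv v).map patB)) (wt := wtL) (wt' := fun x => wtL (rv fun i => (x.1 i, x.2 i)))
    (fun x => rv fun i => (x.1 i, x.2 i)) ⟨?_, ?_, ?_⟩ 0 (by simp)
  · rw [FF, ← one_mul (gf _ _), ← MvPowerSeries.monomial_zero_one, ← h]
    funext e
    rw [linkSeries, gf, ← Nat.card_coe_set_eq]
    congr 1
    refine Nat.card_congr (Equiv.subtypeEquivRight fun x => ?_)
    simp only [Set.mem_ofPred_eq, Finsupp.ext_iff, Sum.forall, Fin.forall_fin_two, wtL_area,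
      wtL_dinv, wtL_inl, areaL_rv, dinvL_rv', countP_rv, Finset.card_filter, decide_eq_true_eq]
    tauto
  · intro x hx
    rw [map_rv]
    exact (forall₂_rv _ _ _).2 hx
  · intro x _ y _ e
    have := rv_inj e
    exact Prod.ext (funext fun i => congrArg Prod.fst (congrFun this i))
      (funext fun i => congrArg Prod.snd (congrFun this i))
  · intro l hl
    obtain ⟨f, rfl⟩ := exists_rv (n := n) l (by
      rw [← List.Forall₂.length_eq hl, List.length_map, length_rv])
    rw [map_rv] at hl
    exact ⟨(fun i => (f i).1, fun i => (f i).2), 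
      (forall₂_rv (fun s x => x ∈ s) (fun i => patB (v i)) f).1 hl, rfl⟩

theorem count_true_rv (v : Fin n → Bool) : (rv v).count true = ones v := by
  rw [List.count_eq_countP, countP_rv, ones, Finset.card_filter]
  simp

theorem count_false_rv (v : Fin n → Bool) : (rv v).count false = n - ones v := by
  have := (List.count_true_add_count_false (rv v)).trans (length_rv v)
  rw [← count_true_rv]
  omega

theorem rel_link {K : Type} [Field K] [CharZero K] {q t : K} (hq : q ≠ 1) (ht : t ≠ 0)
    (v : Fin n → Bool) : Rel (N := N) q t (linkTilde N v) fun x => EV t x [] (Lt q t (rv v)) := by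
  rw [linkTilde, linkSeries_eq, ← count_false_rv]
  exact rel_Lt hq ht _

open MvPolynomial in
theorem agree_of_rel {F : SymF QT} {S : MvPowerSeries (Fin N ⊕ Fin 2) ℤ}
    (h : Rel (par 0) (par 1) S fun x => EV (par 1) x [] (rename Sum.inl F)) : Agree N F S := by
  obtain ⟨P, h1, h2⟩ := h
  refine ⟨P, h1, MvPolynomial.funext fun x => ?_⟩
  rw [← EV_nil (par 1), ← show _ = EV (par 1) x [] (rename Sum.inl F) from h2 x]
  clear h1 h2
  induction P using MvPolynomial.induction_on with
  | C a => simp
  | add a b ha hb => rw [map_add, map_add, map_add, ha, hb]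
  | mul_X a s ha =>
    rw [map_mul, map_mul, map_mul, ha]
    congr 1
    rcases s with b | i
    · simp
    · fin_cases i <;> simp

end Pool.Agent.Lib.MP_ef09c4_co
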