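import Pool.Agent.Lib.MP_ef09c4_co.Tri

/-!
Commutation relations of vertex operator modes on symmetric functions.
-/

set_option autoImplicit false

namespace Pool.Agent.Lib.MP_ef09c4_co

open Finset MvPolynomial

variable {K : Type} [Field K]

/-- The power sums of `(1 - q)(1 - t)`. -/
def MM (q t : K) (k : ℕ) : K := (1 - q ^ (k + 1)) * (1 - t ^ (k + 1))

/-- The degree zero operator. -/
noncomputable def D0 (q t : K) : SymF K →ₗ[K] SymF K := Op (MM q t) eL

/-- The degree one operator. -/
noncomputable def D1 (q t : K) : SymF K →ₗ[K] SymF K := Op (MM q t) fun m => eL (m + 1)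

/-- The dual degree zero operator. -/
noncomputable def Ds (q t : K) : SymF K →ₗ[K] SymF K := Op (fun k => -MM q⁻¹ t⁻¹ k) hL

theorem D0_symm (q t : K) : D0 q t = D0 t q := by
  rw [D0, D0]
  congr 1
  funext k
  exact mul_comm _ _

theorem D0_X_mul (q t : K) (F : SymF K) :
    D0 q t (X 0 * F) = X 0 * D0 q t F + ((1 - q) * (1 - t)) • D1 q t F := by
  rw [D0, D1, Op_apply, Op_apply, Op_apply, map_mul, sh_X, add_mul, map_add, pair_C_mul, mul_assoc,
    pair_C_mul, zero_add, pow_one, pair_X_mul, smul_eq_C_mul]
  simp [MM]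

theorem pleth_D0 (q t : K) (F : SymF K) : pleth q (D0 q t F) =
    Op (fun k => 1 - t ^ (k + 1)) (fun s => pleth q (eL s)) (pleth q F) := dg_Op _ _ _ F

theorem Op_scale (r : K) (c : ℕ → K) (a : ℕ → SymF K) (F : SymF K) :
    Op (fun k => r ^ (k + 1) * c k) a F = Op c (fun m => C r ^ m * a m) F := by
  have e : sh (fun k => r ^ (k + 1) * c k) F =
      Polynomial.aeval (Polynomial.C (C r) * Polynomial.X) (sh c F) := by
    change _ = ((Polynomial.aeval (Polynomial.C (C r) * Polynomial.X)).restrictScalars K).comp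
      (sh c) F
    congr 1
    ext1 k
    simp; ring
  rw [Op_apply, Op_apply, e]
  induction sh c F using Polynomial.induction_on' with
  | add p q hp hq => rw [map_add, map_add, map_add, hp, hq]
  | monomial n g =>
    rw [pair_monomial, Polynomial.aeval_monomial, Polynomial.algebraMap_eq, pair_C_mul, mul_pow,
      ← map_pow, pair_C_mul, pair_X_pow]
    ring

theorem omega_D0 (q t : K) (F : SymF K) :
    dg (fun k => (-1) ^ k) (D0 q⁻¹ t⁻¹ F) = Ds q t (dg (fun k => (-1) ^ k) F) := by
  have e : MM q⁻¹ t⁻¹ = fun k => (-1) ^ k * ((-1) ^ (k + 1) * -MM q⁻¹ t⁻¹ k) := by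
    funext k
    rw [pow_succ, mul_assoc, ← mul_assoc, ← mul_pow]
    simp
  rw [D0, e, dg_Op, Op_scale, Ds]
  congr 2
  funext m
  have e2 : (fun k => dg (fun k => (-1 : K) ^ k) (-X k)) = fun k => C (-1) ^ (k + 1) * X k := by
    funext k; simp; ring
  rw [map_newton, e2, newton_scale, ← mul_assoc, ← mul_pow]
  simp

/-- Two successive translations. -/
noncomputable def sh2 (c c' : ℕ → K) : SymF K →ₐ[K] Polynomial (Polynomial (SymF K)) :=
  (Polynomial.mapAlgHom (sh c)).comp (sh c')

theorem Op_Op (c c' : ℕ → K) (a a' : ℕ → SymF K) (F : SymF K) :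
    Op c a (Op c' a' F) = pair a (pair (fun n => sh c (a' n)) (sh2 c c' F)) := by
  rw [Op_apply, Op_apply]
  have := map_pair (sh c : SymF K →+* Polynomial (SymF K)) a' (sh c' F)
  exact congrArg (pair a) this

theorem swap_sh2 (c c' : ℕ → K) (F : SymF K) :
    Polynomial.Bivariate.swap (sh2 c c' F) = sh2 c' c F := by
  change ((Polynomial.Bivariate.swap (R := SymF K)).toAlgHom.restrictScalars K).comp (sh2 c c') F = _
  congr 1
  ext1 k
  simp [sh2, Polynomial.Bivariate.swap_C_C, Polynomial.Bivariate.swap_X,
    Polynomial.Bivariate.swap_Y]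
  ring

variable [CharZero K]

theorem pair_sh_newton (c g : ℕ → K) (p a : ℕ → SymF K)
    (h : ∀ k, sh c (p k) = Polynomial.C (p k) + Polynomial.C (C (g k)) * Polynomial.X ^ (k + 1))
    (m n : ℕ) (F : SymF K) : pair a (sh c (newton K p n) * Polynomial.monomial m F) =
      ∑ r ∈ range (n + 1), newton K g r • (newton K p (n - r) * a (m + r) * F) := by
  have e1 : ∀ n, newton K (fun k => (Polynomial.C (p k) : Polynomial (SymF K))) n =
      Polynomial.C (newton K p n) := fun n => (map_newton (K := K) Polynomial.CAlgHom p n).symm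
  have e2 : ∀ n, newton K (fun k => (Polynomial.C (C (g k)) : Polynomial (SymF K))) n =
      Polynomial.C (C (newton K g n)) := fun n =>
    (map_newton (K := K) (Algebra.ofId K (Polynomial (SymF K))) g n).symm
  simp only [map_newton, h, add_comm (Polynomial.C (p _)), mul_comm _ (Polynomial.X ^ _),
    newton_add, newton_scale, e1, e2, sum_mul, map_sum]
  refine sum_congr rfl fun r _ => ?_
  rw [← Polynomial.C_mul_X_pow_eq_monomial, show Polynomial.X ^ r * Polynomial.C (C (newton K g r)) *
    Polynomial.C (newton K p (n - r)) * (Polynomial.C F * Polynomial.X ^ m) =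
      Polynomial.C (C (newton K g r) * newton K p (n - r) * F) * Polynomial.X ^ (m + r) by
    simp only [map_mul]; ring, pair_C_mul, pair_X_pow, smul_eq_C_mul]
  ring

theorem newton_MM (q t : K) (r : ℕ) : (1 - q * t) * newton K (MM q t) r =
    (1 - q) * (1 - t) * (1 - (q * t) ^ r) + if r = 0 then 1 - q * t else 0 := by
  have h1 := PE_shift (K := K) (fun _ => (0 : K)) 1 q
  have h2 := PE_shift (K := K) (fun k => 0 + (1 ^ (k + 1) - q ^ (k + 1))) (q * t) t
  have e : (fun k => 0 + (1 ^ (k + 1) - q ^ (k + 1)) + ((q * t) ^ (k + 1) - t ^ (k + 1))) =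
      MM q t := by
    funext k; rw [MM]; ring
  rw [e] at h2
  rw [PE_zero] at h1
  have g1 := geom_mul (1 : K)
  have g2 := geom_mul (q * t)
  have : PowerSeries.C (1 - q * t) * PE K (MM q t) = PowerSeries.C ((1 - q) * (1 - t)) *
      ((PowerSeries.mk fun k => 1 ^ k) - PowerSeries.mk fun k => (q * t) ^ k) +
        PowerSeries.C (1 - q * t) := by
    generalize (PowerSeries.mk fun k => (1 : K) ^ k) = A at g1 ⊢
    generalize (PowerSeries.mk fun k => (q * t) ^ k) = B at g2 ⊢
    simp only [map_mul, map_sub, map_one] at h1 h2 g1 g2 ⊢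
    generalize PowerSeries.C q = a at *
    generalize PowerSeries.C t = b at *
    generalize PE K (fun k => 0 + (1 ^ (k + 1) - q ^ (k + 1))) = U at *
    generalize PE K (MM q t) = W at *
    generalize (PowerSeries.X : PowerSeries K) = x at *
    linear_combination (1 - a * b) * (B * h2 - W * g2 + B * (1 - b * x) * (A * h1 - U * g1))
      + (1 - a) * (1 - b) * (A * g2 - B * g1)
      + (1 - a * b) * ((1 - a * b * x) * B * g1 + g2)
  have := congrArg (PowerSeries.coeff r) this
  rw [PowerSeries.coeff_C_mul, map_add, PowerSeries.coeff_C_mul, PowerSeries.coeff_C] at this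
  simpa using this

theorem sum_split {M : Type} [AddCommMonoid M] (u : ℕ → M) (n k : ℕ) (h : u n = 0) :
    ∑ r ∈ range (n + 1), u (n - r) + ∑ r ∈ range (k + 1), u (n + r) =
      ∑ i ∈ range (n + k + 1), u i := by
  have := sum_range_reflect u (n + 1)
  simp only [Nat.add_sub_cancel] at this
  rw [this, sum_range_succ, h, add_zero, add_assoc, sum_range_add u n]

theorem D1_Ds {q t : K} (hq : q ≠ 0) (ht : t ≠ 0) (hqt : q * t ≠ 1) (F : SymF K) :
    D1 q t (Ds q t F) - Ds q t (D1 q t F) = -((1 - q) * (1 - t) / (q * t)) • (X 0 * F) := by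
  let eta : ℕ → SymF K := newton K fun k => C (q * t)⁻¹ ^ (k + 1) * X k + -X k
  have key : ∀ f : Polynomial (Polynomial (SymF K)),
      (1 - q * t) • (pair (fun m => eL (m + 1)) (pair (fun n => sh (MM q t) (hL n)) f) -
        pair hL (pair (fun m => sh (fun k => -MM q⁻¹ t⁻¹ k) (eL (m + 1)))
          (Polynomial.Bivariate.swap f))) =
      -((1 - q) * (1 - t)) • pair (fun m => eta (m + 1))
        (f.eval (Polynomial.C (C (q * t)) * Polynomial.X)) := by
    intro f
    induction f using Polynomial.induction_on' with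
    | add p r hp hr =>
      simp only [map_add, Polynomial.eval_add, smul_add, smul_sub] at hp hr ⊢
      linear_combination (exp := 1) hp + hr
    | monomial n g =>
    induction g using Polynomial.induction_on' with
    | add p r hp hr =>
      simp only [map_add, Polynomial.eval_add, smul_add, smul_sub] at hp hr ⊢
      linear_combination (exp := 1) hp + hr
    | monomial m F =>
      have hQ : q * t ≠ 0 := mul_ne_zero hq ht
      have hp : ∀ s : ℕ, (q * t) ^ s * (q * t)⁻¹ ^ s = 1 := fun s => by
        rw [← mul_pow, mul_inv_cancel₀ hQ, one_pow]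
      rw [Polynomial.Bivariate.swap_monomial_monomial, pair_monomial, pair_monomial,
        pair_sh_newton (MM q t) (MM q t) X _ (sh_X _),
        pair_sh_newton _ (MM q⁻¹ t⁻¹) (fun k => -X k) _ (fun k => by simp; ring),
        Polynomial.eval_monomial, mul_pow, ← map_pow, mul_left_comm, pair_C_mul,
        Polynomial.monomial_mul_X_pow, pair_monomial]
      let u : ℕ → SymF K := fun i => ((1 - q) * (1 - t) * (1 - (q * t) ^ n * (q * t)⁻¹ ^ i)) •
        (hL i * eL (n + (m + 1) - i) * F)
      have h1 : (1 - q * t) • ∑ r ∈ range (n + 1),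
          newton K (MM q t) r • (newton K X (n - r) * eL (m + r + 1) * F) =
          ∑ r ∈ range (n + 1), u (n - r) + (1 - q * t) • (hL n * eL (m + 1) * F) := by
        simp only [smul_sum, smul_smul, newton_MM, add_smul, sum_add_distrib, ite_smul, zero_smul,
          sum_ite_eq', mem_range, Nat.succ_pos, if_true, Nat.sub_zero, add_zero]
        congr 1
        refine sum_congr rfl fun r hr => ?_
        have hr' : r ≤ n := Nat.lt_succ_iff.1 (mem_range.1 hr)
        obtain ⟨s, rfl⟩ := Nat.exists_eq_add_of_le hr'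
        simp only [u, Nat.add_sub_cancel_left, show r + s + (m + 1) - s = m + r + 1 by omega]
        congr 1
        rw [pow_add, mul_assoc ((q * t) ^ r), hp, mul_one]
      have h2 : (1 - q * t) • ∑ r ∈ range (m + 1 + 1),
          newton K (MM q⁻¹ t⁻¹) r • (newton K (fun k => -X k) (m + 1 - r) * hL (n + r) * F) =
          -∑ r ∈ range (m + 1 + 1), u (n + r) + (1 - q * t) • (hL n * eL (m + 1) * F) := by
        have e : ∀ r, (1 - q * t) * newton K (MM q⁻¹ t⁻¹) r =
            -((1 - q) * (1 - t) * (1 - (q * t)⁻¹ ^ r)) + if r = 0 then 1 - q * t else 0 := by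
          intro r
          have := newton_MM q⁻¹ t⁻¹ r
          rw [← mul_inv] at this
          have e1 : (1 - q * t) = -(q * t) * (1 - (q * t)⁻¹) := by field_simp; ring
          rw [e1, mul_assoc, this]
          split_ifs <;> field_simp <;> ring
        simp only [smul_sum, smul_smul, e, add_smul, sum_add_distrib, ite_smul, zero_smul,
          sum_ite_eq', mem_range, Nat.succ_pos, if_true, Nat.sub_zero, add_zero, ← sum_neg_distrib]
        congr 1
        · refine sum_congr rfl fun r hr => ?_
          simp only [u, show n + (m + 1) - (n + r) = m + 1 - r by omega, neg_smul,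
            mul_comm (hL (n + r))]
          congr 2
          rw [pow_add, ← mul_assoc ((q * t) ^ n), hp, one_mul]
        · rw [mul_comm (hL n)]
      have h3 : ∑ i ∈ range (n + (m + 1) + 1), u i =
          -((1 - q) * (1 - t)) • (C (q * t) ^ n * (eta (m + n + 1) * F)) := by
        have z := congrArg (PowerSeries.coeff (n + (m + 1))) (PE_neg (K := K) fun k => -(X k : SymF K))
        rw [PowerSeries.coeff_mul, Nat.sum_antidiagonal_eq_sum_range_succ_mk, PowerSeries.coeff_one,
          if_neg (by omega)] at z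
        simp only [neg_neg, coeff_PE] at z
        rw [show m + n + 1 = n + (m + 1) by omega]
        simp only [eta, newton_add, newton_scale, u, smul_eq_C_mul, sum_mul, mul_sum, map_mul,
          map_sub, map_one, map_neg, map_pow]
        have z2 : ∑ i ∈ range (n + (m + 1) + 1), ((1 - C q) * (1 - C t) * F) *
            (hL i * eL (n + (m + 1) - i)) = 0 := by rw [← mul_sum, z, mul_zero]
        rw [← sub_eq_zero, ← sum_sub_distrib, ← z2]
        exact sum_congr rfl fun i _ => by ring
      rw [smul_sub, h1, h2, ← h3, ← sum_split u n (m + 1) (by simp only [u, hp, sub_self, mul_zero, zero_smul])]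
      abel
  have hne : (1 - q * t) ≠ 0 := sub_ne_zero.2 hqt.symm
  have e : (sh2 (MM q t) (fun k => -MM q⁻¹ t⁻¹ k) F).eval
      (Polynomial.C (C (q * t)) * Polynomial.X) = Polynomial.C F := by
    change ((Polynomial.aeval (Polynomial.C (C (q * t)) * Polynomial.X)).restrictScalars K).comp
      (sh2 _ _) F = Polynomial.CAlgHom (R := K) F
    congr 1
    ext1 k
    have : MM q t k = (q * t) ^ (k + 1) * MM q⁻¹ t⁻¹ k := by
      simp only [MM, inv_pow]; field_simp; ring
    simp [sh2, this]
    ring
  have := key (sh2 (MM q t) (fun k => -MM q⁻¹ t⁻¹ k) F)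
  rw [swap_sh2, ← Op_Op, ← Op_Op, e, ← Polynomial.monomial_zero_left, pair_monomial] at this
  apply smul_right_injective _ hne
  change (1 - q * t) • _ = (1 - q * t) • _
  rw [D1, Ds, this]
  simp only [eta, zero_add, newton_one, pow_one, smul_eq_C_mul]
  have e3 : (1 - q * t) * -((1 - q) * (1 - t) / (q * t)) =
      -((1 - q) * (1 - t)) * ((q * t)⁻¹ - 1) := by field_simp
  rw [← mul_assoc (C _) (C _), ← map_mul, e3]
  simp only [map_mul, map_sub, map_one]
  ring

end Pool.Agent.Lib.MP_ef09c4_co
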