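import Mathlib

/-!
Definitions: symmetric functions as polynomials in the power sums, Schur functions, modified
Macdonald polynomials, and the link symmetric functions.
-/

set_option autoImplicit false

namespace Pool.Agent.Lib.MP_ef09c4_co

open MvPolynomial

section Sym

variable (K : Type) [Field K]

/-- Complete homogeneous functions from power sums (`p k` is the power sum of degree `k + 1`),
by Newton's identity `n h_n = ∑ p_k h_(n-k)`. -/
noncomputable def newton {R : Type} [CommRing R] [Algebra K R] (p : ℕ → R) : ℕ → R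
  | 0 => 1
  | n + 1 => ((n : K) + 1)⁻¹ • ∑ k : Fin (n + 1), p k * newton p (n - k)
  decreasing_by omega

/-- The ring of symmetric functions; the variable `X k` is the power sum of degree `k + 1`. -/
abbrev SymF : Type := MvPolynomial ℕ K

/-- The complete homogeneous symmetric function `h_m`, zero for `m < 0`. -/
noncomputable def hz (m : ℤ) : SymF K := if m < 0 then 0 else newton K X m.toNat

/-- The Schur function, by the Jacobi-Trudi determinant. -/
noncomputable def schur (l : YoungDiagram) : SymF K :=
  (Matrix.of fun i j : Fin l.card => hz K ((l.rowLen i : ℤ) - (i : ℕ) + (j : ℕ))).det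

/-- `l` dominates `m`: same size and larger partial sums of rows. -/
def Dom (m l : YoungDiagram) : Prop :=
  l.card = m.card ∧ ∀ k, ∑ i ∈ Finset.range k, m.rowLen i ≤ ∑ i ∈ Finset.range k, l.rowLen i

variable {K}

/-- The plethysm `F ↦ F[X(1 - c)]`. -/
noncomputable def pleth (c : K) : SymF K →ₐ[K] SymF K :=
  aeval fun k => C (1 - c ^ (k + 1)) * X k

/-- The triangularity conditions that fix the modified Macdonald polynomials up to nonzero
scalars. -/
def IsMacdonald (q t : K) (H : YoungDiagram → SymF K) : Prop :=
  ∀ m, H m ≠ 0 ∧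
    pleth q (H m) ∈ Submodule.span K (schur K '' {l | Dom m l}) ∧
    pleth t (H m) ∈ Submodule.span K (schur K '' {l | Dom m.transpose l})

/-- The multiset of the weights `q ^ column * t ^ row` of the cells. -/
def cellWeights (q t : K) (m : YoungDiagram) : Multiset K :=
  m.cells.val.map fun c => q ^ c.2 * t ^ c.1

/-- A symmetric function as a polynomial in `N` variables. -/
noncomputable def realize (N : ℕ) : SymF K →ₐ[K] MvPolynomial (Fin N) K :=
  aeval fun k => psum (Fin N) K (k + 1)

end Sym

section Link

variable {n N : ℕ}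

/-- The area statistic. -/
def area (g : Fin n → ℕ) : ℕ := ∑ i, g i - (Finset.univ.filter fun i => 0 < g i).card

/-- The dinv statistic. -/
def dinv (g : Fin n → ℕ) (w : Fin n → Fin N) : ℕ :=
  (Finset.univ.filter fun e : Fin n × Fin n => e.1 < e.2 ∧ g e.1 = g e.2 ∧ w e.2 < w e.1).card +
  (Finset.univ.filter fun e : Fin n × Fin n => e.1 < e.2 ∧ g e.1 + 1 = g e.2 ∧ w e.1 < w e.2).card

/-- The link symmetric function `L_v` in the variables `x_b = X (inl b)`, as a power series in
these variables and `q = X (inr 0)`, `t = X (inr 1)`. -/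
noncomputable def linkSeries (N : ℕ) (v : Fin n → Bool) : MvPowerSeries (Fin N ⊕ Fin 2) ℤ :=
  fun e => Nat.card {x : (Fin n → ℕ) × (Fin n → Fin N) //
    (∀ i, x.1 i = 0 ↔ v i = true) ∧ area x.1 = e (Sum.inr 0) ∧ dinv x.1 x.2 = e (Sum.inr 1) ∧
      ∀ b, (Finset.univ.filter fun i => x.2 i = b).card = e (Sum.inl b)}

/-- The number of ones of a binary word. -/
def ones (v : Fin n → Bool) : ℕ := (Finset.univ.filter fun i => v i = true).card

/-- The normalised link symmetric function. -/
noncomputable def linkTilde (N : ℕ) (v : Fin n → Bool) : MvPowerSeries (Fin N ⊕ Fin 2) ℤ :=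
  (1 - MvPowerSeries.X (Sum.inr 0)) ^ (n - ones v) * linkSeries N v

end Link

/-- The field `ℚ(q, t)`. -/
abbrev QT : Type := FractionRing (MvPolynomial (Fin 2) ℚ)

/-- The parameters `q = par 0` and `t = par 1`. -/
noncomputable def par (i : Fin 2) : QT := algebraMap (MvPolynomial (Fin 2) ℚ) QT (X i)

/-- The symmetric function `F` over `ℚ(q, t)` and the power series `S` agree in `N` variables:
both are the same polynomial with integer coefficients in `x`, `q`, `t`. -/
def Agree (N : ℕ) (F : SymF QT) (S : MvPowerSeries (Fin N ⊕ Fin 2) ℤ) : Prop :=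
  ∃ P : MvPolynomial (Fin N ⊕ Fin 2) ℤ, (P : MvPowerSeries (Fin N ⊕ Fin 2) ℤ) = S ∧
    aeval (Sum.elim X fun i => C (par i)) P = realize N F

end Pool.Agent.Lib.MP_ef09c4_co
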