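import Pool.Agent.Lib.MP_ef09c4_co.Alg

/-!
Evaluation functionals attached to labels of the auxiliary variables.
-/

set_option autoImplicit false

namespace Pool.Agent.Lib.MP_ef09c4_co

open MvPolynomial

variable {K : Type} [Field K]

/-- The ascending product of inverse generators. -/
noncomputable def Ai (t : K) (j : ℕ) : ℕ → VV K →ₗ[K] VV K
  | 0 => LinearMap.id
  | k + 1 => (Ai t j k).comp (Ti t (j + k))

theorem Ai_succ (t : K) (j k : ℕ) (G : VV K) :
    Ai t j (k + 1) G = Ai t j k (Ti t (j + k) G) := rfl

theorem Ai_succ' (t : K) (j k : ℕ) (G : VV K) :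
    Ai t j (k + 1) G = Ti t j (Ai t (j + 1) k G) := by
  induction k generalizing G with
  | zero => rfl
  | succ k ih => rw [Ai_succ, ih, Ai_succ, show j + 1 + k = j + (k + 1) by omega]

theorem comm_Ai {t : K} {j j' k : ℕ} (L : VV K →ₗ[K] VV K)
    (h : ∀ i < k, ∀ G, L (TT t (j + i) G) = TT t (j' + i) (L G)) (G : VV K) :
    L (Ai t j k G) = Ai t j' k (L G) := by
  induction k generalizing G with
  | zero => rfl
  | succ k ih => rw [Ai_succ, Ai_succ, ih (fun i hi => h i (by omega)), comm_Ti L (h k (by omega))]

theorem Ai_Br {t : K} (ht : t ≠ 0) (k : ℕ) (G : VV K) : Ai t 0 k (Br t 0 k G) = G := by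
  induction k with
  | zero => rfl
  | succ k ih => rw [Ai_succ, Br_succ, Ti_TT ht, ih]

/-- Removing the variable number `i`. -/
noncomputable def cc (t : K) (i : ℕ) : VV K →ₗ[K] VV K := (db t).comp (Ai t 0 i)

theorem cc_apply (t : K) (i : ℕ) (G : VV K) : cc t i G = db t (Ai t 0 i G) := rfl

theorem cc_dp_top {t : K} (ht : t ≠ 0) (k : ℕ) (G : VV K) : cc t k (dp t k G) = G := by
  rw [cc_apply, dp_apply, Ai_Br ht, db_tau]

/-- Translation by one variable with value `x`. -/
noncomputable def tr (x : K) : VV K →ₐ[K] VV K := shf (C x) 0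

theorem tr_tau (t x : K) (G : VV K) : tr x (tau t G) = tau t (tr x G) := by
  have := shf_tau t (C x) 0 G
  simpa [tr] using this

theorem tr_TT (t x : K) (i : ℕ) (G : VV K) : tr x (TT t i G) = TT t i (tr x G) :=
  shf_TT t (by simp) (by simp) G

theorem tr_dp (t x : K) (k : ℕ) (G : VV K) : tr x (dp t k G) = dp t k (tr x G) := by
  rw [dp_apply, dp_apply, ← tr_tau]
  exact comm_Br (tr x).toLinearMap (fun i _ => tr_TT t x _) _

/-- Removing the variables that carry the label `m`. -/
noncomputable def rho (t : K) (m : ℕ) : List ℕ → ℕ → VV K →ₗ[K] VV K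
  | [], _ => LinearMap.id
  | b :: a, j => if b = m then (rho t m a j).comp (cc t j) else rho t m a (j + 1)

theorem rho_nil (t : K) (m j : ℕ) (G : VV K) : rho t m [] j G = G := rfl

theorem rho_cons_self (t : K) (m j : ℕ) (a : List ℕ) (G : VV K) :
    rho t m (m :: a) j G = rho t m a j (cc t j G) := by simp [rho]

theorem rho_cons_ne (t : K) {m b : ℕ} (h : b ≠ m) (j : ℕ) (a : List ℕ) (G : VV K) :
    rho t m (b :: a) j G = rho t m a (j + 1) G := by simp [rho, h]

/-- The evaluation functional for the labels `m, …, m + N - 1`. -/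
noncomputable def evl (t : K) (x : ℕ → K) : ℕ → ℕ → List ℕ → VV K →ₗ[K] K
  | 0, _, _ => (aeval fun _ => (0 : K)).toLinearMap
  | N + 1, m, a =>
    (evl t x N (m + 1) (a.filter (· ≠ m))).comp ((rho t m a 0).comp (tr (x m)).toLinearMap)

theorem evl_succ (t : K) (x : ℕ → K) (N m : ℕ) (a : List ℕ) (G : VV K) :
    evl t x (N + 1) m a G = evl t x N (m + 1) (a.filter (· ≠ m)) (rho t m a 0 (tr (x m) G)) := rfl

theorem evl_nil (t : K) (x : ℕ → K) (N m : ℕ) (G : VV K) :
    evl t x N m [] G =
      aeval (Sum.elim (fun k => ∑ i ∈ Finset.range N, x (m + i) ^ (k + 1)) fun _ => 0) G := by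
  induction N generalizing m G with
  | zero =>
    exact vv_ext (f := aeval fun _ => (0 : K)) (fun k => by simp) (fun i => by simp) G
  | succ N ih =>
    rw [evl_succ, List.filter_nil, rho_nil, ih]
    refine vv_ext (f := (aeval _).comp (tr (x m))) (fun k => ?_) (fun i => by simp [tr]) G
    simp [tr, Finset.sum_range_succ', add_assoc, add_comm 1]

variable [CharZero K]

theorem cc_dp {t : K} {i j : ℕ} (h : i ≤ j) (G : VV K) :
    cc t i (dp t (j + 1) G) = dp t j (cc t i G) := by
  rw [cc_apply, cc_apply, ← comm_Ai (j := 0) (dp t (j + 1)) (fun l hl => dp_TT t (by omega)),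
    dp_apply, dp_apply, Br_succ', zero_add, db_Br, db_T0_tau]

theorem db_dm {t : K} (ht : t ≠ 0) (G : VV K) : db t (dm t G) = t • dm t (db t (Ti t 0 G)) := by
  obtain ⟨H, rfl⟩ : ∃ H, G = TT t 0 H := ⟨Ti t 0 G, (TT_Ti ht 0 G).symm⟩
  rw [Ti_TT ht, dm_eq, dm_eq, map_neg, ← db_db_T0, TT_yy_TT, map_smul, map_smul, db_yy, smul_neg]

theorem cc_dm {t : K} (ht : t ≠ 0) (i : ℕ) (G : VV K) :
    cc t i (dm t G) = t • dm t (cc t (i + 1) G) := by
  rw [cc_apply, cc_apply, Ai_succ', ← db_dm ht, zero_add,
    comm_Ai (j' := 0) (dm t) (fun l _ G => by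
      rw [show 1 + l = 0 + l + 1 by omega]; exact dm_TT t _ G)]

theorem tr_dm (t x : K) (G : VV K) : tr x (dm t G) = dm t (tr x G) + x • db t (tr x G) := by
  rw [dm_apply, dm_apply, map_neg, hom_Pr t _ (tr x) (tr x) (tr_tau t x) (by simp [tr]), db,
    Pr_seq t (u := 1) (v := -C x) (b := fun m => eps (m + 1)) (c := eps) (fun m => by
      linear_combination hom_eps (tr x) (shf_pp (C x) 0) m), smul_eq_C_mul]
  ring

theorem rho_dm {t : K} (ht : t ≠ 0) (m : ℕ) (a : List ℕ) (j : ℕ) (G : VV K) :
    rho t m a j (dm t G) = t ^ a.count m • dm t (rho t m a (j + 1) G) := by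
  induction a generalizing j G with
  | nil => simp [rho_nil]
  | cons b a ih =>
    by_cases h : b = m
    · subst h
      rw [rho_cons_self, rho_cons_self, cc_dm ht, map_smul, ih, List.count_cons_self, smul_smul,
        pow_succ']
    · rw [rho_cons_ne t h, rho_cons_ne t h, ih, List.count_cons_of_ne h]

theorem rho_dp {t : K} (ht : t ≠ 0) (m b : ℕ) (a : List ℕ) (j : ℕ) (G : VV K) :
    rho t m (a ++ [b]) j (dp t (j + a.length) G) =
      if b = m then rho t m a j G
      else dp t (j + (a.filter (· ≠ m)).length) (rho t m a j G) := by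
  induction a generalizing j G with
  | nil =>
    split_ifs with h
    · subst h
      simp [rho_cons_self, rho_nil, cc_dp_top ht]
    · simp [rho_cons_ne t h, rho_nil]
  | cons c a ih =>
    by_cases h : c = m
    · subst h
      rw [List.cons_append, rho_cons_self, rho_cons_self, List.length_cons, ← add_assoc,
        cc_dp (by omega), ih]
      simp
    · rw [List.cons_append, rho_cons_ne t h, rho_cons_ne t h, List.length_cons,
        show j + (a.length + 1) = j + 1 + a.length by omega, ih]
      simp [h, add_assoc, add_comm 1]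

theorem evl_dp {t : K} (ht : t ≠ 0) (x : ℕ → K) (N m : ℕ) (a : List ℕ) {b : ℕ} (h1 : m ≤ b)
    (h2 : b < m + N) (G : VV K) :
    evl t x N m (a ++ [b]) (dp t a.length G) = evl t x N m a G := by
  induction N generalizing m a G with
  | zero => omega
  | succ N ih =>
    have e := rho_dp ht m b a 0 (tr (x m) G)
    rw [zero_add, zero_add] at e
    rw [evl_succ, evl_succ, tr_dp, e, List.filter_append]
    split_ifs with h
    · simp [h]
    · have : [b].filter (· ≠ m) = [b] := by simp [h]
      rw [this, ih (m + 1) _ (by omega) (by omega)]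

theorem evl_dm {t : K} (ht : t ≠ 0) (x : ℕ → K) (N m : ℕ) (a : List ℕ) (h : ∀ c ∈ a, m ≤ c)
    (G : VV K) :
    evl t x N m a (dm t G) = ∑ i ∈ Finset.range N,
      x (m + i) * t ^ a.countP (· < m + i) * evl t x N m ((m + i) :: a) G := by
  induction N generalizing m a G with
  | zero =>
    simp only [Finset.range_zero, Finset.sum_empty]
    induction G using tau_induction t with
    | hadd u v hu hv => rw [map_add, map_add, hu, hv, add_zero]
    | hb g n =>
      have : aeval (fun _ => (0 : K)) (eps (n + 1) : VV K) = 0 := by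
        rw [eps, map_newton, newton_succ]; simp
      rw [dm_apply, Pr_basis, evl, AlgHom.toLinearMap_apply, map_neg, map_mul, this, zero_mul,
        neg_zero]
  | succ N ih =>
    have h0 : a.countP (· < m) = 0 := by
      rw [List.countP_eq_zero]
      intro c hc
      simpa using h c hc
    rw [evl_succ, tr_dm, map_add, map_smul, rho_dm ht, map_add, map_smul, map_smul,
      ih (m + 1) _ (fun c hc => by
        have := List.mem_filter.1 hc
        have h1 := h c this.1
        have h2 : c ≠ m := by simpa using this.2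
        omega), Finset.sum_range_succ', add_zero, h0, evl_succ, rho_cons_self, smul_eq_mul,
      smul_eq_mul, Finset.mul_sum]
    congr 1
    · refine Finset.sum_congr rfl fun i _ => ?_
      have hne : m + (i + 1) ≠ m := by omega
      have hc : a.countP (· < m + (i + 1)) =
          a.count m + (a.filter (· ≠ m)).countP (· < m + (i + 1)) := by
        clear ih h h0
        induction a with
        | nil => simp
        | cons c a iha =>
          by_cases hcm : c = m
          · subst hcm
            simp [iha]; omega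
          · simp [List.countP_cons, hcm, iha]; omega
      rw [evl_succ, rho_cons_ne t hne, hc, show m + 1 + i = m + (i + 1) by omega,
        List.filter_cons_of_pos (by simp), pow_add]
      ring
    · simp [cc_apply, Ai]

end Pool.Agent.Lib.MP_ef09c4_co
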