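import Pool.Agent.Lib.MP_ef09c4_co.Defs

/-!
The plethystic exponential as a power series.
-/

set_option autoImplicit false

namespace Pool.Agent.Lib.MP_ef09c4_co

open PowerSeries

variable {K : Type} [Field K] [CharZero K] {R S : Type} [CommRing R] [Algebra K R]
  [CommRing S] [Algebra K S]

omit [CharZero K] in
@[simp] theorem newton_zero (p : ℕ → R) : newton K p 0 = 1 := by rw [newton]

omit [CharZero K] in
theorem newton_succ (p : ℕ → R) (n : ℕ) :
    newton K p (n + 1) =
      ((n : K) + 1)⁻¹ • ∑ k ∈ Finset.range (n + 1), p k * newton K p (n - k) := by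
  rw [newton, Finset.sum_range]

theorem newton_succ' (p : ℕ → R) (n : ℕ) :
    newton K p (n + 1) * ((n : R) + 1) =
      ∑ k ∈ Finset.range (n + 1), p k * newton K p (n - k) := by
  have h : ((n : K) + 1) ≠ 0 := Nat.cast_add_one_ne_zero n
  have e : ((n : R) + 1) = algebraMap K R ((n : K) + 1) := by simp
  rw [newton_succ, e, mul_comm, ← Algebra.smul_def, smul_smul, mul_inv_cancel₀ h, one_smul]

theorem newton_one (p : ℕ → R) : newton K p 1 = p 0 := by
  have := newton_succ' (K := K) p 0
  simpa using this

omit [CharZero K] in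
theorem map_newton (f : R →ₐ[K] S) (p : ℕ → R) (n : ℕ) :
    f (newton K p n) = newton K (fun k => f (p k)) n := by
  induction n using Nat.strong_induction_on with
  | _ n ih =>
    rcases n with _ | n
    · simp
    · rw [newton_succ, newton_succ, map_smul, map_sum]
      congr 1
      refine Finset.sum_congr rfl fun k _ => ?_
      rw [map_mul, ih _ (by omega)]

omit [CharZero K] in
theorem newton_scale (c : R) (p : ℕ → R) (n : ℕ) :
    newton K (fun k => c ^ (k + 1) * p k) n = c ^ n * newton K p n := by
  induction n using Nat.strong_induction_on with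
  | _ n ih =>
    rcases n with _ | n
    · simp
    · rw [newton_succ, newton_succ, mul_smul_comm, Finset.mul_sum]
      congr 1
      refine Finset.sum_congr rfl fun k hk => ?_
      rw [ih _ (by omega)]
      have : n + 1 = (k + 1) + (n - k) := by have := Finset.mem_range.1 hk; omega
      rw [this, pow_add]
      ring

variable (K) in
/-- The generating series of `newton`. -/
noncomputable def PE (p : ℕ → R) : R⟦X⟧ := PowerSeries.mk (newton K p)

omit [CharZero K] in
@[simp] theorem coeff_PE (p : ℕ → R) (n : ℕ) : coeff n (PE K p) = newton K p n := by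
  simp [PE]

omit [CharZero K] in
@[simp] theorem const_PE (p : ℕ → R) : constantCoeff (PE K p) = 1 := by
  rw [← coeff_zero_eq_constantCoeff_apply, coeff_PE, newton_zero]

theorem deriv_PE (p : ℕ → R) : derivative R (PE K p) = mk p * PE K p := by
  ext n
  rw [coeff_derivative, coeff_PE, newton_succ', coeff_mul,
    Finset.Nat.sum_antidiagonal_eq_sum_range_succ_mk]
  simp

theorem PE_unique (p : ℕ → R) (F : R⟦X⟧) (h0 : constantCoeff F = 1)
    (h : derivative R F = mk p * F) : F = PE K p := by
  ext n
  rw [coeff_PE]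
  induction n using Nat.strong_induction_on with
  | _ n ih =>
    rcases n with _ | n
    · simpa using h0
    · have h1 := congrArg (coeff n) h
      rw [coeff_derivative, coeff_mul, Finset.Nat.sum_antidiagonal_eq_sum_range_succ_mk] at h1
      have hn : ((n : K) + 1) ≠ 0 := Nat.cast_add_one_ne_zero n
      have e : ((n : R) + 1) = algebraMap K R ((n : K) + 1) := by simp
      rw [e, mul_comm, ← Algebra.smul_def] at h1
      rw [newton_succ, eq_inv_smul_iff₀ hn, h1]
      refine Finset.sum_congr rfl fun k _ => ?_
      rw [coeff_mk, ih _ (by omega)]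

theorem PE_add (a b : ℕ → R) : PE K (fun k => a k + b k) = PE K a * PE K b := by
  symm
  refine PE_unique _ _ (by simp) ?_
  have : (mk fun k => a k + b k : R⟦X⟧) = mk a + mk b := by ext; simp
  rw [Derivation.leibniz, deriv_PE, deriv_PE, this, smul_eq_mul, smul_eq_mul]
  ring

theorem PE_zero : PE K (fun _ => (0 : R)) = 1 := by
  symm
  refine PE_unique _ _ (by simp) ?_
  have : (mk fun _ => (0 : R) : R⟦X⟧) = 0 := by ext; simp
  rw [this]; simp

theorem PE_neg (a : ℕ → R) : PE K (fun k => -a k) * PE K a = 1 := by
  rw [← PE_add, ← PE_zero (K := K)]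
  simp

theorem geom_mul (x : R) : (1 - C x * X) * (mk fun k => x ^ k : R⟦X⟧) = 1 := by
  ext n
  rcases n with _ | n
  · simp
  · simp [sub_mul, mul_assoc, coeff_succ_X_mul, pow_succ', coeff_one]

theorem PE_negpow (x : R) : PE K (fun k => -x ^ (k + 1)) = 1 - C x * X := by
  symm
  refine PE_unique _ _ (by simp) ?_
  have e : (mk fun k => -x ^ (k + 1) : R⟦X⟧) = -C x * mk fun k => x ^ k := by
    ext n; simp [pow_succ']
  rw [e, mul_assoc, mul_comm (mk _), geom_mul]
  simp [Derivation.leibniz]

theorem PE_pow (x : R) : (1 - C x * X) * PE K (fun k => x ^ (k + 1)) = 1 := by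
  rw [← PE_negpow (K := K), PE_neg]

/-- Adding the alphabet `x - y`. -/
theorem PE_shift (a : ℕ → R) (x y : R) :
    (1 - C x * X) * PE K (fun k => a k + (x ^ (k + 1) - y ^ (k + 1))) =
      (1 - C y * X) * PE K a := by
  have : (fun k => a k + (x ^ (k + 1) - y ^ (k + 1))) =
      fun k => (a k + -y ^ (k + 1)) + x ^ (k + 1) := by ext; ring
  rw [this, PE_add, PE_add, PE_negpow]
  linear_combination (PE K a * (1 - C y * X)) * PE_pow (K := K) x

theorem coeff_shift {F G : R⟦X⟧} {x y : R} (h : (1 - C x * X) * F = (1 - C y * X) * G) (n : ℕ) :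
    coeff (n + 1) F - x * coeff n F = coeff (n + 1) G - y * coeff n G := by
  have := congrArg (coeff (n + 1)) h
  simpa [sub_mul, mul_assoc, coeff_succ_X_mul] using this

theorem newton_shift (a : ℕ → R) (x y : R) (n : ℕ) :
    newton K (fun k => a k + (x ^ (k + 1) - y ^ (k + 1))) (n + 1) -
        x * newton K (fun k => a k + (x ^ (k + 1) - y ^ (k + 1))) n =
      newton K a (n + 1) - y * newton K a n := by
  simpa using coeff_shift (PE_shift (K := K) a x y) n

theorem newton_add (a b : ℕ → R) (n : ℕ) :
    newton K (fun k => a k + b k) n =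
      ∑ i ∈ Finset.range (n + 1), newton K a i * newton K b (n - i) := by
  have := congrArg (coeff n) (PE_add (K := K) a b)
  rw [coeff_mul, Finset.Nat.sum_antidiagonal_eq_sum_range_succ_mk] at this
  simpa using this

theorem exists_newton_eq (u : ℕ → R) (h : u 0 = 1) : ∃ a : ℕ → R, ∀ n, newton K a n = u n := by
  have h0 : constantCoeff (mk u : R⟦X⟧) = ((1 : Rˣ) : R) := by simpa using h
  refine ⟨fun k => coeff k (derivative R (mk u) * invOfUnit (mk u) 1), fun n => ?_⟩
  have := PE_unique (K := K) (fun k => coeff k (derivative R (mk u) * invOfUnit (mk u) 1)) (mk u)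
    (by simpa using h) (by
      have e : (mk fun k => coeff k (derivative R (mk u) * invOfUnit (mk u) 1) : R⟦X⟧) =
        derivative R (mk u) * invOfUnit (mk u) 1 := by ext; simp
      rw [e, mul_assoc, invOfUnit_mul _ _ h0, mul_one])
  rw [← coeff_PE, ← this, coeff_mk]

end Pool.Agent.Lib.MP_ef09c4_co
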