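import Pool.Agent.Lib.MP_ef09c4_co.Defs

/-!
Generating functions of labelled height sequences and their recursions.
-/

set_option autoImplicit false

namespace Pool.Agent.Lib.MP_ef09c4_co

open MvPowerSeries

section gf

variable {σ α β ι : Type}

/-- Generating function of a weighted set. -/
noncomputable def gf (S : Set α) (wt : α → σ →₀ ℕ) : MvPowerSeries σ ℤ :=
  fun e => ({x | x ∈ S ∧ wt x = e}.ncard : ℤ)

theorem coeff_gf (S : Set α) (wt : α → σ →₀ ℕ) (e : σ →₀ ℕ) :
    coeff e (gf S wt) = ({x | x ∈ S ∧ wt x = e}.ncard : ℤ) := rfl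

theorem gf_bij {T : Set β} {S : Set α} {wt : α → σ →₀ ℕ} {wt' : β → σ →₀ ℕ} (f : β → α)
    (hf : Set.BijOn f T S) (e0 : σ →₀ ℕ) (h : ∀ y ∈ T, wt' y = e0 + wt (f y)) :
    gf T wt' = monomial e0 1 * gf S wt := by
  classical
  ext e
  rw [coeff_monomial_mul, coeff_gf, coeff_gf]
  split_ifs with he
  · rw [one_mul]
    congr 1
    refine Set.ncard_congr (fun y _ => f y) (fun y hy => ⟨hf.mapsTo hy.1, ?_⟩)
      (fun a b ha hb e => hf.injOn ha.1 hb.1 e) (fun x hx => ?_)
    · rw [← hy.2, h y hy.1, add_tsub_cancel_left]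
    · obtain ⟨y, hy, rfl⟩ := hf.surjOn hx.1
      exact ⟨y, ⟨hy, by rw [h y hy, hx.2, add_tsub_cancel_of_le he]⟩, rfl⟩
  · have : {x | x ∈ T ∧ wt' x = e} = ∅ := by
      refine Set.eq_empty_of_forall_notMem fun y hy => he ?_
      rw [← hy.2, h y hy.1]
      exact le_self_add
    rw [this]; simp

theorem gf_sum [Fintype ι] {S : Set α} {T : ι → Set α} (wt : α → σ →₀ ℕ)
    (h1 : ∀ x, x ∈ S ↔ ∃ i, x ∈ T i) (h2 : ∀ i j x, x ∈ T i → x ∈ T j → i = j)
    (h3 : ∀ i e, {x | x ∈ T i ∧ wt x = e}.Finite) : gf S wt = ∑ i, gf (T i) wt := by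
  ext e
  rw [map_sum, coeff_gf]
  have : {x | x ∈ S ∧ wt x = e} = ⋃ i, {x | x ∈ T i ∧ wt x = e} := by
    ext x; simp [h1]
  rw [this, Set.ncard_iUnion_of_finite (fun i => h3 i e) (fun i j hij =>
    Set.disjoint_left.2 fun x hi hj => hij (h2 i j x hi.1 hj.1)), finsum_eq_sum_of_fintype]
  simp [coeff_gf]

end gf

variable {N : ℕ}

/-- An earlier entry `x` and a later entry `y` form an inversion. -/
def att (x y : ℕ × Fin N) : Bool := (x.1 = y.1 ∧ y.2 < x.2) ∨ (x.1 + 1 = y.1 ∧ x.2 < y.2)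

/-- The dinv statistic of a list given last entry first. -/
def dinvL : List (ℕ × Fin N) → ℕ
  | [] => 0
  | y :: l => l.countP (fun x => att x y) + dinvL l

/-- The area statistic of a list. -/
def areaL (l : List (ℕ × Fin N)) : ℕ := (l.map fun x => x.1 - 1).sum

/-- The exponent vector of a list. -/
noncomputable def wtL (l : List (ℕ × Fin N)) : Fin N ⊕ Fin 2 →₀ ℕ :=
  (l.map fun x => Finsupp.single (Sum.inl x.2) 1).sum +
    Finsupp.single (Sum.inr 0) (areaL l) + Finsupp.single (Sum.inr 1) (dinvL l)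

theorem dinvL_append (l : List (ℕ × Fin N)) (x : ℕ × Fin N) :
    dinvL (l ++ [x]) = l.countP (fun y => att x y) + dinvL l := by
  induction l with
  | nil => simp [dinvL]
  | cons y l ih => simp [dinvL, ih, List.countP_cons]; omega

theorem content_inr (l : List (ℕ × Fin N)) (i : Fin 2) :
    (l.map fun x => (Finsupp.single (Sum.inl x.2) 1 : Fin N ⊕ Fin 2 →₀ ℕ)).sum (Sum.inr i) = 0 := by
  induction l with
  | nil => simp
  | cons y l ih => simp [ih]

theorem wtL_area (l : List (ℕ × Fin N)) : wtL l (Sum.inr 0) = areaL l := by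
  simp [wtL, content_inr]

theorem wtL_dinv (l : List (ℕ × Fin N)) : wtL l (Sum.inr 1) = dinvL l := by
  simp [wtL, content_inr]

theorem wtL_inl (l : List (ℕ × Fin N)) (b : Fin N) :
    wtL l (Sum.inl b) = l.countP fun x => x.2 = b := by
  simp only [wtL, Finsupp.add_apply, Finsupp.single_apply, reduceCtorEq, if_false, add_zero]
  induction l with
  | nil => simp
  | cons y l ih => simp [ih, List.countP_cons, Finsupp.single_apply, add_comm]

/-- Lists that follow a pattern. -/
def cfg (ps : List (Set (ℕ × Fin N))) : Set (List (ℕ × Fin N)) :=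
  {l | List.Forall₂ (fun s x => x ∈ s) ps l}

theorem mem_cfg_cons {p : Set (ℕ × Fin N)} {ps : List (Set (ℕ × Fin N))} {l : List (ℕ × Fin N)} :
    l ∈ cfg (p :: ps) ↔ ∃ y l', y ∈ p ∧ l' ∈ cfg ps ∧ l = y :: l' := List.forall₂_cons_left_iff

theorem mem_cfg_nil {l : List (ℕ × Fin N)} : l ∈ cfg [] ↔ l = [] := List.forall₂_nil_left_iff

theorem mem_cfg_concat {p : Set (ℕ × Fin N)} {ps : List (Set (ℕ × Fin N))}
    {l : List (ℕ × Fin N)} :
    l ∈ cfg (ps ++ [p]) ↔ ∃ y l', y ∈ p ∧ l' ∈ cfg ps ∧ l = l' ++ [y] := by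
  induction ps generalizing l with
  | nil => simp [mem_cfg_cons, mem_cfg_nil]
  | cons r ps ih =>
    simp only [List.cons_append, mem_cfg_cons, ih]
    constructor
    · rintro ⟨z, _, hz, ⟨y, l', hy, hl, rfl⟩, rfl⟩
      exact ⟨y, z :: l', hy, ⟨z, l', hz, hl, rfl⟩, rfl⟩
    · rintro ⟨y, _, hy, ⟨z, l', hz, hl, rfl⟩, rfl⟩
      exact ⟨z, l' ++ [y], hz, ⟨y, l', hy, hl, rfl⟩, rfl⟩

theorem cfg_finite (ps : List (Set (ℕ × Fin N))) (a : ℕ) :
    {l | l ∈ cfg ps ∧ areaL l ≤ a}.Finite := by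
  induction ps with
  | nil => exact (Set.finite_singleton []).subset fun l hl => mem_cfg_nil.1 hl.1
  | cons p ps ih =>
    have h : {x : ℕ × Fin N | x.1 ≤ a + 1}.Finite :=
      ((Set.finite_Iic (a + 1)).prod Set.finite_univ).subset fun x hx => ⟨hx, trivial⟩
    refine (h.image2 List.cons ih).subset ?_
    rintro l ⟨hl, ha⟩
    obtain ⟨y, l', _, hl', rfl⟩ := mem_cfg_cons.1 hl
    simp only [areaL, List.map_cons, List.sum_cons] at ha
    exact ⟨y, by simp only [Set.mem_ofPred_eq]; omega, l', ⟨hl', by unfold areaL; omega⟩, rfl⟩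

/-- The generating function of a pattern. -/
noncomputable def FF (ps : List (Set (ℕ × Fin N))) : MvPowerSeries (Fin N ⊕ Fin 2) ℤ :=
  gf (cfg ps) wtL

theorem FF_nil : FF ([] : List (Set (ℕ × Fin N))) = 1 := by
  classical
  ext e
  rw [FF, coeff_gf, coeff_one]
  have h0 : wtL ([] : List (ℕ × Fin N)) = 0 := by simp [wtL, areaL, dinvL]
  split_ifs with h
  · have : {x : List (ℕ × Fin N) | x ∈ cfg [] ∧ wtL x = e} = {[]} := by
      ext l
      simp only [mem_cfg_nil, Set.mem_ofPred_eq, Set.mem_singleton_iff, and_iff_left_iff_imp]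
      rintro rfl
      rw [h0, h]
    rw [this]; simp
  · have : {x : List (ℕ × Fin N) | x ∈ cfg [] ∧ wtL x = e} = ∅ := by
      refine Set.eq_empty_of_forall_notMem fun l hl => h ?_
      rw [← hl.2, mem_cfg_nil.1 hl.1, h0]
    rw [this]; simp

theorem FF_split {ι : Type} [Fintype ι] (ps qs : List (Set (ℕ × Fin N))) {p : Set (ℕ × Fin N)}
    {r : ι → Set (ℕ × Fin N)} (h1 : ∀ x, x ∈ p ↔ ∃ i, x ∈ r i)
    (h2 : ∀ i j x, x ∈ r i → x ∈ r j → i = j) :
    FF (ps ++ p :: qs) = ∑ i, FF (ps ++ r i :: qs) := by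
  refine gf_sum wtL (fun l => ?_) (fun i j l => ?_) fun i e =>
    (cfg_finite _ (e (Sum.inr 0))).subset fun l hl => ⟨hl.1, by rw [← hl.2, wtL_area]⟩
  · induction ps generalizing l with
    | nil =>
      simp only [List.nil_append, mem_cfg_cons, h1]
      constructor
      · rintro ⟨y, l', ⟨i, hi⟩, h⟩
        exact ⟨i, y, l', hi, h⟩
      · rintro ⟨i, y, l', hi, h⟩
        exact ⟨y, l', ⟨i, hi⟩, h⟩
    | cons s ps ih =>
      simp only [List.cons_append, mem_cfg_cons, ih]
      constructor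
      · rintro ⟨y, l', hy, ⟨i, hi⟩, h⟩
        exact ⟨i, y, l', hy, hi, h⟩
      · rintro ⟨i, y, l', hy, hi, h⟩
        exact ⟨y, l', hy, ⟨i, hi⟩, h⟩
  · induction ps generalizing l with
    | nil =>
      simp only [List.nil_append, mem_cfg_cons]
      rintro ⟨y, l', hy, _, rfl⟩ ⟨z, l'', hz, _, e⟩
      obtain rfl := (List.cons.inj e).1
      exact h2 i j _ hy hz
    | cons s ps ih =>
      simp only [List.cons_append, mem_cfg_cons]
      rintro ⟨y, l', _, hy, rfl⟩ ⟨z, l'', _, hz, e⟩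
      obtain rfl := (List.cons.inj e).2
      exact ih _ hy hz

/-- The pattern of a letter: a labelled point of height zero, or any point of positive height. -/
def pat : Option (Fin N) → Set (ℕ × Fin N)
  | none => {x | x.1 ≠ 0}
  | some b => {(0, b)}

theorem countP_att {u : List (Option (Fin N))} {l : List (ℕ × Fin N)} (h : l ∈ cfg (u.map pat))
    (b : Fin N) : l.countP (fun x => att x (0, b)) = (u.filterMap id).countP (b < ·) := by
  induction u generalizing l with
  | nil => rw [mem_cfg_nil.1 h]; rfl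
  | cons o u ih =>
    obtain ⟨y, l', hy, hl, rfl⟩ := mem_cfg_cons.1 h
    rcases o with _ | c
    · have : y.1 ≠ 0 := hy
      rw [List.countP_cons, ih hl]
      simp [att, this]
    · obtain rfl : y = (0, c) := hy
      rw [List.countP_cons, ih hl]
      simp [List.countP_cons, att]

theorem FF_some (b : Fin N) (u : List (Option (Fin N))) :
    FF ((some b :: u).map pat) =
      X (Sum.inl b) * X (Sum.inr 1) ^ (u.filterMap id).countP (b < ·) * FF (u.map pat) := by
  rw [X_pow_eq, X_def, monomial_mul_monomial, one_mul]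
  refine gf_bij List.tail ⟨?_, ?_, ?_⟩ _ ?_
  · intro l hl
    obtain ⟨y, l', _, hl', rfl⟩ := mem_cfg_cons.1 hl
    exact hl'
  · intro l hl m hm e
    obtain ⟨y, l', hy, _, rfl⟩ := mem_cfg_cons.1 hl
    obtain ⟨z, m', hz, _, rfl⟩ := mem_cfg_cons.1 hm
    rw [show y = (0, b) from hy, show z = (0, b) from hz, show l' = m' from e]
  · intro l hl
    exact ⟨(0, b) :: l, mem_cfg_cons.2 ⟨_, _, rfl, hl, rfl⟩, rfl⟩
  · intro l hl
    obtain ⟨y, l', hy, hl', rfl⟩ := mem_cfg_cons.1 hl
    obtain rfl : y = (0, b) := hy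
    simp only [wtL, areaL, dinvL, countP_att hl', List.map_cons, List.sum_cons, List.tail_cons,
      Finsupp.single_add, zero_tsub, zero_add]
    abel

/-- The rotation that lowers the last point and puts it first. -/
def rot : List (ℕ × Fin N) → List (ℕ × Fin N)
  | [] => []
  | y :: l => l ++ [(y.1 - 1, y.2)]

theorem FF_rot (ps : List (Set (ℕ × Fin N))) {p p' : Set (ℕ × Fin N)} (a : ℕ)
    (h : ∀ x, x ∈ p ↔ x.1 ≠ 0 ∧ (x.1 - 1, x.2) ∈ p') (ha : ∀ x ∈ p, x.1 - 1 = a + (x.1 - 1 - 1)) :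
    FF (p :: ps) = X (Sum.inr 0) ^ a * FF (ps ++ [p']) := by
  rw [X_pow_eq]
  refine gf_bij rot ⟨?_, ?_, ?_⟩ _ ?_
  · intro l hl
    obtain ⟨y, l', hy, hl', rfl⟩ := mem_cfg_cons.1 hl
    exact mem_cfg_concat.2 ⟨_, _, ((h y).1 hy).2, hl', rfl⟩
  · intro l hl m hm e
    obtain ⟨y, l', hy, _, rfl⟩ := mem_cfg_cons.1 hl
    obtain ⟨z, m', hz, _, rfl⟩ := mem_cfg_cons.1 hm
    obtain ⟨e1, e2⟩ := List.append_inj' e rfl
    simp only [List.cons.injEq, Prod.mk.injEq, and_true] at e2
    have h1 := ((h y).1 hy).1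
    have h2 := ((h z).1 hz).1
    rw [e1, Prod.ext (show y.1 = z.1 by omega) e2.2]
  · intro l hl
    obtain ⟨y, l', hy, hl', rfl⟩ := mem_cfg_concat.1 hl
    exact ⟨(y.1 + 1, y.2) :: l', mem_cfg_cons.2
      ⟨_, _, (h (y.1 + 1, y.2)).2 ⟨by simp, by simpa using hy⟩, hl', rfl⟩, by simp [rot]⟩
  · intro l hl
    obtain ⟨y, l', hy, hl', rfl⟩ := mem_cfg_cons.1 hl
    have h1 := ((h y).1 hy).1
    have e : (fun x => att x y) = fun x => att (y.1 - 1, y.2) x := by
      funext x
      simp only [att]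
      congr 1
      apply propext
      constructor
      · rintro (h | h)
        · exact Or.inr ⟨by omega, h.2⟩
        · exact Or.inl ⟨by omega, h.2⟩
      · rintro (h | h)
        · exact Or.inr ⟨by omega, h.2⟩
        · exact Or.inl ⟨by omega, h.2⟩
    simp only [wtL, areaL, dinvL, rot, dinvL_append, List.map_cons, List.sum_cons, List.map_append,
      List.sum_append, List.map_nil, List.sum_nil, add_zero, Finsupp.single_add, e]
    rw [ha y hy, Finsupp.single_add, ← ha y hy]
    abel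

theorem FF_none (u : List (Option (Fin N))) :
    FF ((none :: u).map pat) =
      ∑ b, FF ((u ++ [some b]).map pat) + X (Sum.inr 0) * FF ((u ++ [none]).map pat) := by
  have := FF_split [] (u.map pat) (p := pat none)
    (r := fun o : Option (Fin N) => o.elim {x | 2 ≤ x.1} fun b => {(1, b)}) (fun x => by
      constructor
      · intro hx
        have hx : x.1 ≠ 0 := hx
        by_cases h : x.1 = 1
        · exact ⟨some x.2, Prod.ext h rfl⟩
        · exact ⟨none, show 2 ≤ x.1 by omega⟩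
      · rintro ⟨_ | b, h⟩
        · have : 2 ≤ x.1 := h
          show x.1 ≠ 0
          omega
        · obtain rfl : x = (1, b) := h
          simp [pat])
    (by
      rintro (_ | b) (_ | c) x h1 h2
      · rfl
      · obtain rfl : x = (1, c) := h2
        simp at h1
      · obtain rfl : x = (1, b) := h1
        simp at h2
      · obtain rfl : x = (1, b) := h1
        simpa using h2)
  simp only [List.nil_append, Fintype.sum_option, Option.elim] at this
  rw [List.map_cons, this, add_comm]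
  congr 1
  · refine Finset.sum_congr rfl fun b _ => ?_
    rw [FF_rot _ 0 (p' := pat (some b)) (fun x => by
      simp only [pat, Set.mem_singleton_iff, Prod.ext_iff]; omega) (by simp)]
    simp
  · rw [FF_rot _ 1 (p' := pat none) (fun x => by
      simp only [pat, Set.mem_ofPred_eq]; omega) (fun x hx => by
      have : 2 ≤ x.1 := hx
      omega)]
    simp

end Pool.Agent.Lib.MP_ef09c4_co
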