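import Pool.Agent.Lib.MP_ef09c4_co.Exp

/-!
Demazure-Lusztig operators on polynomials in power sums and auxiliary variables.
-/

set_option autoImplicit false

namespace Pool.Agent.Lib.MP_ef09c4_co

open MvPolynomial

variable (K : Type) [Field K]

/-- Polynomials in the power sums and the auxiliary variables. -/
abbrev VV : Type := MvPolynomial (ℕ ⊕ ℕ) K

variable {K}

/-- Auxiliary variables. -/
noncomputable abbrev yy (i : ℕ) : VV K := X (Sum.inr i)

/-- Power sums. -/
noncomputable abbrev pp (k : ℕ) : VV K := X (Sum.inl k)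

/-- Exchange of two neighbouring auxiliary variables. -/
noncomputable def sw (i : ℕ) : VV K →ₐ[K] VV K :=
  rename (Equiv.swap (Sum.inr i) (Sum.inr (i + 1)))

@[simp] theorem sw_pp (i k : ℕ) : sw i (pp k : VV K) = pp k := by
  simp [sw, Equiv.swap_apply_def]

@[simp] theorem sw_yy_self (i : ℕ) : sw i (yy i : VV K) = yy (i + 1) := by simp [sw]

@[simp] theorem sw_yy_succ (i : ℕ) : sw i (yy (i + 1) : VV K) = yy i := by simp [sw]

theorem sw_yy_ne {i j : ℕ} (h1 : j ≠ i) (h2 : j ≠ i + 1) : sw i (yy j : VV K) = yy j := by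
  simp [sw, Equiv.swap_apply_def, h1, h2]

theorem sw_yy (i j : ℕ) :
    sw i (yy j : VV K) = yy (if j = i then i + 1 else if j = i + 1 then i else j) := by
  split_ifs with h1 h2
  · rw [h1, sw_yy_self]
  · rw [h2, sw_yy_succ]
  · exact sw_yy_ne h1 h2

@[simp] theorem sw_C (i : ℕ) (c : K) : sw i (C c : VV K) = C c := algHom_C _ _

theorem vv_ext {S : Type} [CommRing S] [Algebra K S] {f g : VV K →ₐ[K] S}
    (h1 : ∀ k, f (pp k) = g (pp k)) (h2 : ∀ i, f (yy i) = g (yy i)) (G : VV K) : f G = g G := by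
  have : f = g := algHom_ext fun a => by
    rcases a with k | i
    · exact h1 k
    · exact h2 i
  rw [this]

@[simp] theorem sw_sw (i : ℕ) (G : VV K) : sw i (sw i G) = G := by
  refine vv_ext (f := (sw i).comp (sw i)) (g := AlgHom.id K _) (fun k => by simp) (fun j => ?_) G
  simp only [AlgHom.comp_apply, sw_yy, AlgHom.id_apply]
  refine congrArg yy ?_
  split_ifs <;> omega

theorem sw_comm {i j : ℕ} (h : i + 1 < j) (G : VV K) : sw i (sw j G) = sw j (sw i G) := by
  refine vv_ext (f := (sw i).comp (sw j)) (g := (sw j).comp (sw i)) (fun k => by simp)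
    (fun l => ?_) G
  simp only [AlgHom.comp_apply, sw_yy]
  refine congrArg yy ?_
  split_ifs <;> omega

theorem sw_braid (i : ℕ) (G : VV K) :
    sw i (sw (i + 1) (sw i G)) = sw (i + 1) (sw i (sw (i + 1) G)) := by
  refine vv_ext (f := (sw i).comp ((sw (i + 1)).comp (sw i)))
    (g := (sw (i + 1)).comp ((sw i).comp (sw (i + 1)))) (fun k => by simp) (fun l => ?_) G
  simp only [AlgHom.comp_apply, sw_yy]
  refine congrArg yy ?_
  split_ifs <;> omega

theorem yy_sub_ne {i j : ℕ} (h : i ≠ j) : (yy i - yy j : VV K) ≠ 0 := by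
  rw [sub_ne_zero]
  intro e
  exact h (Sum.inr_injective (X_injective e))

theorem exists_dd (i : ℕ) (G : VV K) : ∃ H, (yy i - yy (i + 1)) * H = sw i G - G := by
  induction G using MvPolynomial.induction_on with
  | C c => exact ⟨0, by simp⟩
  | add a b ha hb =>
    obtain ⟨x, hx⟩ := ha
    obtain ⟨y, hy⟩ := hb
    exact ⟨x + y, by rw [map_add]; linear_combination hx + hy⟩
  | mul_X a s ha =>
    obtain ⟨x, hx⟩ := ha
    have : ∃ H : VV K, (yy i - yy (i + 1)) * H = sw i (X s) - X s := by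
      rcases s with k | j
      · exact ⟨0, by simp⟩
      · by_cases h1 : j = i
        · exact ⟨-1, by rw [h1, sw_yy_self]; ring⟩
        by_cases h2 : j = i + 1
        · exact ⟨1, by rw [h2, sw_yy_succ]; ring⟩
        exact ⟨0, by rw [sw_yy_ne h1 h2]; ring⟩
    obtain ⟨y, hy⟩ := this
    exact ⟨sw i a * y + x * X s, by rw [map_mul]; linear_combination sw i a * hy + X s * hx⟩

theorem cancel_yy (i : ℕ) {A B : VV K} (h : (yy i - yy (i + 1)) * A = (yy i - yy (i + 1)) * B) :
    A = B :=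
  mul_left_cancel₀ (yy_sub_ne (by omega)) h

/-- Divided difference. -/
noncomputable def dd (i : ℕ) : VV K →ₗ[K] VV K where
  toFun G := (exists_dd i G).choose
  map_add' a b := cancel_yy i (by
    rw [mul_add, (exists_dd i _).choose_spec, (exists_dd i _).choose_spec,
      (exists_dd i _).choose_spec, map_add]
    ring)
  map_smul' c a := cancel_yy i (by
    rw [RingHom.id_apply, mul_smul_comm, (exists_dd i _).choose_spec, (exists_dd i _).choose_spec,
      map_smul, smul_sub])

theorem dd_spec (i : ℕ) (G : VV K) : (yy i - yy (i + 1)) * dd i G = sw i G - G :=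
  (exists_dd i G).choose_spec

/-- The Demazure-Lusztig operator. -/
noncomputable def TT (t : K) (i : ℕ) : VV K →ₗ[K] VV K :=
  LinearMap.id + (LinearMap.mulLeft K (yy i - C t * yy (i + 1))).comp (dd i)

theorem TT_apply (t : K) (i : ℕ) (G : VV K) :
    TT t i G = G + (yy i - C t * yy (i + 1)) * dd i G := rfl

theorem TT_spec (t : K) (i : ℕ) (G : VV K) :
    (yy i - yy (i + 1)) * TT t i G =
      (C t - 1) * yy (i + 1) * G + (yy i - C t * yy (i + 1)) * sw i G := by
  rw [TT_apply]
  linear_combination (yy i - C t * yy (i + 1)) * dd_spec i G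

theorem TT_comm (t : K) {i j : ℕ} (L : VV K →ₗ[K] VV K)
    (h1 : ∀ G, L (yy i * G) = yy j * L G) (h2 : ∀ G, L (yy (i + 1) * G) = yy (j + 1) * L G)
    (h3 : ∀ G, L (sw i G) = sw j (L G)) (G : VV K) : L (TT t i G) = TT t j (L G) := by
  apply cancel_yy j
  have e := congrArg L (TT_spec t i G)
  have c1 : ∀ H : VV K, C t * H = t • H := fun H => (smul_eq_C_mul _ _).symm
  simp only [sub_mul, one_mul, map_add, map_sub, c1, map_smul, h1, h2,
    h3, smul_mul_assoc] at e
  rw [TT_spec]
  simp only [sub_mul, one_mul, c1, smul_mul_assoc]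
  exact e

theorem TT_comm_hom (t : K) {i j : ℕ} (f : VV K →ₐ[K] VV K)
    (h1 : f (yy i) = yy j) (h2 : f (yy (i + 1)) = yy (j + 1))
    (h3 : ∀ G, f (sw i G) = sw j (f G)) (G : VV K) : f (TT t i G) = TT t j (f G) :=
  TT_comm t f.toLinearMap (fun G => by simp [h1]) (fun G => by simp [h2]) h3 G

theorem TT_mul (t : K) {i : ℕ} {a : VV K} (h : sw i a = a) (G : VV K) :
    TT t i (a * G) = a * TT t i G :=
  (TT_comm t (LinearMap.mulLeft K a) (fun G => by simp; ring) (fun G => by simp; ring)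
    (fun G => by simp [h]) G).symm

theorem TT_of_sw (t : K) {i : ℕ} {a : VV K} (h : sw i a = a) : TT t i a = a := by
  apply cancel_yy i
  rw [TT_spec, h]
  ring

theorem sw_of_TT {t : K} {i : ℕ} {a : VV K} (h : TT t i a = a) : sw i a = a := by
  have e := TT_spec t i a
  rw [h] at e
  have hne : (yy i - C t * yy (i + 1) : VV K) ≠ 0 := by
    intro h0
    have := congrArg (eval fun s => if s = Sum.inr i then (1 : K) else 0) h0
    simp at this
  apply mul_left_cancel₀ hne
  linear_combination -e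

theorem TT_yy (t : K) {i j : ℕ} (h1 : j ≠ i) (h2 : j ≠ i + 1) (G : VV K) :
    TT t i (yy j * G) = yy j * TT t i G := TT_mul t (sw_yy_ne h1 h2) G

theorem sw_TT_far (t : K) {i j : ℕ} (h : i + 1 < j ∨ j + 1 < i) (G : VV K) :
    sw i (TT t j G) = TT t j (sw i G) :=
  TT_comm_hom t (sw i) (sw_yy_ne (by omega) (by omega)) (sw_yy_ne (by omega) (by omega))
    (fun G => by
      rcases h with h | h
      · exact sw_comm h G
      · exact (sw_comm h G).symm) G

theorem TT_far (t : K) {i j : ℕ} (h : i + 1 < j ∨ j + 1 < i) (G : VV K) :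
    TT t i (TT t j G) = TT t j (TT t i G) :=
  TT_comm t (TT t i) (TT_yy t (by omega) (by omega)) (TT_yy t (by omega) (by omega))
    (fun G => (sw_TT_far t h.symm G).symm) G

theorem hom_TT_spec (t : K) (i : ℕ) (f : VV K →ₐ[K] VV K) (G : VV K) :
    (f (yy i) - f (yy (i + 1))) * f (TT t i G) =
      (C t - 1) * f (yy (i + 1)) * f G + (f (yy i) - C t * f (yy (i + 1))) * f (sw i G) := by
  have := congrArg f (TT_spec t i G)
  simpa [algHom_C] using this

theorem TT_quad (t : K) (i : ℕ) (G : VV K) :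
    TT t i (TT t i G) = t • G - (t - 1) • TT t i G := by
  apply cancel_yy i
  apply cancel_yy i
  have e1 := TT_spec t i G
  have e2 := hom_TT_spec t i (sw i) G
  have e3 := TT_spec t i (TT t i G)
  simp only [sw_yy_self, sw_yy_succ, sw_sw] at e2
  simp only [smul_eq_C_mul, map_sub, map_one]
  linear_combination (yy i - yy (i + 1)) * e3 + (C t - 1) * yy i * e1 -
    (yy i - C t * yy (i + 1)) * e2

theorem TT_yy_TT (t : K) (i : ℕ) (G : VV K) :
    TT t i (yy i * TT t i G) = t • (yy (i + 1) * G) := by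
  apply cancel_yy i
  apply cancel_yy i
  have e1 := TT_spec t i G
  have e2 := hom_TT_spec t i (sw i) G
  have e3 := TT_spec t i (yy i * TT t i G)
  simp only [sw_yy_self, sw_yy_succ, sw_sw, map_mul] at e2 e3
  simp only [smul_eq_C_mul]
  linear_combination (yy i - yy (i + 1)) * e3 + (C t - 1) * yy (i + 1) * yy i * e1 -
    (yy i - C t * yy (i + 1)) * yy (i + 1) * e2

theorem TT_braid (t : K) (i : ℕ) (G : VV K) :
    TT t i (TT t (i + 1) (TT t i G)) = TT t (i + 1) (TT t i (TT t (i + 1) G)) := by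
  have n1 : (yy i - yy (i + 1) : VV K) ≠ 0 := yy_sub_ne (by omega)
  have n2 : (yy (i + 1) - yy (i + 2) : VV K) ≠ 0 := yy_sub_ne (by omega)
  have n3 : (yy i - yy (i + 2) : VV K) ≠ 0 := yy_sub_ne (by omega)
  have s1 : sw i (yy (i + 2) : VV K) = yy (i + 2) := sw_yy_ne (by omega) (by omega)
  have s2 : sw (i + 1) (yy i : VV K) = yy i := sw_yy_ne (by omega) (by omega)
  have s3 : sw (i + 1) (yy (i + 2) : VV K) = yy (i + 1) := sw_yy_succ (i + 1)
  have s4 : sw (i + 1) (yy (i + 1) : VV K) = yy (i + 2) := sw_yy_self (i + 1)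
  have l1 := TT_spec t i (TT t (i + 1) (TT t i G))
  have l2 := TT_spec t (i + 1) (TT t i G)
  have l3 := hom_TT_spec t (i + 1) (sw i) (TT t i G)
  have l4 := TT_spec t i G
  have l5 := hom_TT_spec t i (sw (i + 1)) G
  have l6 := hom_TT_spec t i (sw i) G
  have l7 := hom_TT_spec t i ((sw i).comp (sw (i + 1))) G
  have r1 := TT_spec t (i + 1) (TT t i (TT t (i + 1) G))
  have r2 := TT_spec t i (TT t (i + 1) G)
  have r3 := hom_TT_spec t i (sw (i + 1)) (TT t (i + 1) G)
  have r4 := TT_spec t (i + 1) G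
  have r5 := hom_TT_spec t (i + 1) (sw i) G
  have r6 := hom_TT_spec t (i + 1) (sw (i + 1)) G
  have r7 := hom_TT_spec t (i + 1) ((sw (i + 1)).comp (sw i)) G
  have b := sw_braid i G
  simp only [AlgHom.comp_apply, show i + 1 + 1 = i + 2 from rfl, s1, s2, s3, s4, sw_yy_self,
    sw_yy_succ, sw_sw] at l2 l3 l5 l6 l7 r1 r3 r4 r5 r6 r7
  rw [← b] at r7
  generalize (yy i : VV K) = a at *
  generalize (yy (i + 1) : VV K) = u at *
  generalize (yy (i + 2) : VV K) = v at *
  generalize (C t : VV K) = c at *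
  apply mul_left_cancel₀ (mul_ne_zero (mul_ne_zero (mul_ne_zero n1 n1) (mul_ne_zero n2 n2)) n3)
  linear_combination (exp := 1)
    (a - u) * (u - v) ^ 2 * (a - v) * l1 + (c - 1) * u * (a - u) * (u - v) * (a - v) * l2
    + (a - c * u) * (a - u) * (u - v) ^ 2 * l3
    + (c - 1) * u * (c - 1) * v * (u - v) * (a - v) * l4
    + (c - 1) * u * (u - c * v) * (a - u) * (u - v) * l5
    - (a - c * u) * (c - 1) * v * (u - v) ^ 2 * l6
    + (a - c * u) * (a - c * v) * (a - u) * (u - v) * l7
    - ((a - u) ^ 2 * (u - v) * (a - v) * r1 + (c - 1) * v * (a - u) * (u - v) * (a - v) * r2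
    + (u - c * v) * (a - u) ^ 2 * (u - v) * r3
    + (c - 1) * v * (c - 1) * u * (a - u) * (a - v) * r4
    + (c - 1) * v * (a - c * u) * (a - u) * (u - v) * r5
    - (u - c * v) * (c - 1) * v * (a - u) ^ 2 * r6
    + (u - c * v) * (a - c * v) * (a - u) * (u - v) * r7)

end Pool.Agent.Lib.MP_ef09c4_co
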