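import Pool.Agent.Lib.MP_ef09c4_co.Defs

/-!
Young diagrams and the dominance order.
-/

set_option autoImplicit false

namespace Pool.Agent.Lib.MP_ef09c4_co

open Finset

theorem rowLen_eq_zero (l : YoungDiagram) {i : ℕ} (h : l.card ≤ i) : l.rowLen i = 0 := by
  by_contra h0
  have h1 : (i, 0) ∈ l := YoungDiagram.mem_iff_lt_rowLen.2 (Nat.pos_of_ne_zero h0)
  have h2 := YoungDiagram.mem_iff_lt_colLen.1 h1
  have h3 : l.colLen 0 ≤ l.card := by
    rw [YoungDiagram.colLen_eq_card]
    exact card_le_card (filter_subset _ _)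
  omega

theorem mem_cells_iff (l : YoungDiagram) {L : ℕ} (h : ∀ i, L ≤ i → l.rowLen i = 0) (c : ℕ × ℕ) :
    c ∈ l.cells ↔ c.1 ∈ range L ∧ c.2 ∈ range (l.rowLen c.1) := by
  rw [YoungDiagram.mem_cells, mem_range, mem_range, ← YoungDiagram.mem_iff_lt_rowLen]
  refine ⟨fun hc => ⟨?_, hc⟩, fun hc => hc.2⟩
  by_contra hL
  have := YoungDiagram.mem_iff_lt_rowLen.1 (show (c.1, c.2) ∈ l from hc)
  rw [h _ (not_lt.1 hL)] at this
  omega

theorem sum_cells {M : Type} [AddCommMonoid M] (l : YoungDiagram) {L : ℕ}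
    (h : ∀ i, L ≤ i → l.rowLen i = 0) (f : ℕ × ℕ → M) :
    ∑ c ∈ l.cells, f c = ∑ i ∈ range L, ∑ j ∈ range (l.rowLen i), f (i, j) :=
  sum_finset_product _ _ _ (mem_cells_iff l h)

theorem prod_cells {M : Type} [CommMonoid M] (l : YoungDiagram) {L : ℕ}
    (h : ∀ i, L ≤ i → l.rowLen i = 0) (f : ℕ × ℕ → M) :
    ∏ c ∈ l.cells, f c = ∏ i ∈ range L, ∏ j ∈ range (l.rowLen i), f (i, j) :=
  prod_finset_product _ _ _ (mem_cells_iff l h)

theorem card_eq_sum (l : YoungDiagram) {L : ℕ} (h : ∀ i, L ≤ i → l.rowLen i = 0) :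
    l.card = ∑ i ∈ range L, l.rowLen i := by
  rw [YoungDiagram.card, card_eq_sum_ones, sum_cells l h]
  simp

theorem sum_rows_of_le (l : YoungDiagram) {k : ℕ} (h : l.card ≤ k) :
    ∑ i ∈ range k, l.rowLen i = l.card :=
  (card_eq_sum l fun _ hi => rowLen_eq_zero l (h.trans hi)).symm

theorem sum_rows_eq_card (l : YoungDiagram) (k : ℕ) :
    ∑ i ∈ range k, l.rowLen i = (l.cells.filter fun c => c.1 < k).card := by
  rw [card_eq_sum_ones, sum_finset_product _ (range k) (fun i => range (l.rowLen i))]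
  · simp
  · intro c
    rw [mem_filter, YoungDiagram.mem_cells, mem_range, mem_range,
      ← YoungDiagram.mem_iff_lt_rowLen, and_comm]

theorem sum_rows_le (l : YoungDiagram) (k : ℕ) : ∑ i ∈ range k, l.rowLen i ≤ l.card := by
  rw [sum_rows_eq_card]
  exact card_le_card (filter_subset _ _)

theorem diagram_ext {l m : YoungDiagram} (h : ∀ i, l.rowLen i = m.rowLen i) : l = m := by
  ext ⟨i, j⟩
  simp [YoungDiagram.mem_iff_lt_rowLen, h]

theorem card_transpose (l : YoungDiagram) : l.transpose.card = l.card := by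
  simp [YoungDiagram.card, YoungDiagram.transpose]

theorem Dom.refl (l : YoungDiagram) : Dom l l := ⟨rfl, fun _ => le_rfl⟩

theorem Dom.trans {a b c : YoungDiagram} (h1 : Dom a b) (h2 : Dom b c) : Dom a c :=
  ⟨h2.1.trans h1.1, fun k => (h1.2 k).trans (h2.2 k)⟩

theorem Dom.antisymm {a b : YoungDiagram} (h1 : Dom a b) (h2 : Dom b a) : a = b := by
  refine diagram_ext fun i => ?_
  have e1 := le_antisymm (h1.2 i) (h2.2 i)
  have e2 := le_antisymm (h1.2 (i + 1)) (h2.2 (i + 1))
  rw [sum_range_succ, sum_range_succ] at e2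
  omega

theorem sum_cols_add (l : YoungDiagram) (k L : ℕ) (hL : l.card ≤ L) :
    ∑ j ∈ range k, l.transpose.rowLen j + ∑ i ∈ range L, (l.rowLen i - k) = l.card := by
  rw [sum_rows_eq_card, ← sum_rows_of_le l hL]
  have : (l.transpose.cells.filter fun c => c.1 < k).card = ∑ i ∈ range L, min k (l.rowLen i) := by
    rw [card_eq_sum_ones, sum_finset_product_right _ (range L) (fun i => range (min k (l.rowLen i)))]
    · simp
    · intro c
      rw [mem_filter, YoungDiagram.mem_cells, YoungDiagram.mem_transpose,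
        ← YoungDiagram.mem_cells, mem_cells_iff l fun _ hi => rowLen_eq_zero l (hL.trans hi)]
      simp only [Prod.fst_swap, mem_range, Prod.snd_swap, lt_inf_iff]
      tauto
  rw [this, ← sum_add_distrib]
  exact sum_congr rfl fun i _ => by omega

theorem Dom.transpose {m l : YoungDiagram} (h : Dom m l) : Dom l.transpose m.transpose := by
  refine ⟨by rw [card_transpose, card_transpose, h.1], fun k => ?_⟩
  have e1 := sum_cols_add l k (m.card + m.colLen k) (by rw [h.1]; omega)
  have e2 := sum_cols_add m k (m.card + m.colLen k) (by omega)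
  have h1 : ∑ i ∈ range (m.card + m.colLen k), (m.rowLen i - k) =
      ∑ i ∈ range (m.colLen k), (m.rowLen i - k) := by
    symm
    refine sum_subset (range_subset_range.2 (by omega)) fun i _ hi => ?_
    rw [mem_range, ← YoungDiagram.mem_iff_lt_colLen, YoungDiagram.mem_iff_lt_rowLen] at hi
    omega
  have h2 : ∑ i ∈ range (m.colLen k), (m.rowLen i - k) + ∑ i ∈ range (m.colLen k), k =
      ∑ i ∈ range (m.colLen k), m.rowLen i := by
    rw [← sum_add_distrib]
    refine sum_congr rfl fun i hi => ?_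
    rw [mem_range, ← YoungDiagram.mem_iff_lt_colLen, YoungDiagram.mem_iff_lt_rowLen] at hi
    omega
  have h3 : ∑ i ∈ range (m.colLen k), l.rowLen i ≤
      ∑ i ∈ range (m.colLen k), (l.rowLen i - k) + ∑ i ∈ range (m.colLen k), k := by
    rw [← sum_add_distrib]
    exact sum_le_sum fun i _ => by omega
  have h4 : ∑ i ∈ range (m.colLen k), (l.rowLen i - k) ≤
      ∑ i ∈ range (m.card + m.colLen k), (l.rowLen i - k) :=
    sum_le_sum_of_subset (range_subset_range.2 (by omega))
  have h5 := h.2 (m.colLen k)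
  have h6 := h.1
  omega

theorem dom_induction {P : YoungDiagram → Prop}
    (h : ∀ m, (∀ l, Dom m l → l ≠ m → P l) → P m) (m : YoungDiagram) : P m := by
  induction hs : ∑ k ∈ range (m.card + 1), (m.card - ∑ i ∈ range k, m.rowLen i)
    using Nat.strong_induction_on generalizing m with
  | _ s ih =>
    refine h m fun l hl hne => ih _ ?_ l rfl
    rw [← hs, hl.1]
    refine sum_lt_sum (fun k _ => Nat.sub_le_sub_left (hl.2 k) _) ?_
    by_contra hc
    push Not at hc
    refine hne (Dom.antisymm ⟨hl.1.symm, fun k => ?_⟩ hl)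
    by_cases hk : k ≤ m.card
    · have h1 := hc k (mem_range.2 (by omega))
      have h2 := sum_rows_le l k
      have h3 := sum_rows_le m k
      have h4 := hl.1
      omega
    · rw [sum_rows_of_le m (by omega), ← hl.1]
      exact sum_rows_le l k

theorem sum_le_sum_range {f : ℕ → ℤ} (hf : Antitone f) (S : Finset ℕ) :
    ∑ i ∈ S, f i ≤ ∑ i ∈ range S.card, f i := by
  induction S using Finset.induction_on_max with
  | empty => simp
  | insert a S ha ih =>
    have hn : a ∉ S := fun h => lt_irrefl _ (ha a h)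
    have : S.card ≤ a := by
      have := card_le_card (show S ⊆ range a from fun x hx => mem_range.2 (ha x hx))
      simpa using this
    rw [sum_insert hn, card_insert_of_notMem hn, sum_range_succ]
    linarith [hf this]

theorem sum_perm_le {n : ℕ} {f : ℕ → ℤ} (hf : Antitone f) (w : Equiv.Perm (Fin n)) {k : ℕ}
    (hk : k ≤ n) : ∑ i ∈ univ.filter (fun i : Fin n => i.val < k), f (w i) ≤ ∑ i ∈ range k, f i := by
  have hc : (univ.filter fun i : Fin n => (i : ℕ) < k).card = k := by
    rw [Fin.card_filter_val_lt]; omega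
  have := sum_le_sum_range hf
    ((univ.filter fun i : Fin n => (i : ℕ) < k).map (w.toEmbedding.trans Fin.valEmbedding))
  rwa [sum_map, card_map, hc] at this

theorem sum_filter_range {n : ℕ} (f : ℕ → ℤ) {k : ℕ} (hk : k ≤ n) :
    ∑ i ∈ univ.filter (fun i : Fin n => i.val < k), f i = ∑ i ∈ range k, f i := by
  rw [sum_filter, Fin.sum_univ_eq_sum_range (fun i => if i < k then f i else 0), ← sum_filter]
  congr 1
  ext i
  simp only [mem_filter, mem_range]
  omega

theorem exists_diagram {n : ℕ} (a : Fin n → ℕ) : ∃ (l : YoungDiagram) (r : Equiv.Perm (Fin n)),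
    (∀ i : Fin n, l.rowLen i = a (r i)) ∧ ∀ i, n ≤ i → l.rowLen i = 0 := by
  let r := Tuple.sort (OrderDual.toDual ∘ a)
  have hr : Monotone (OrderDual.toDual ∘ a ∘ r) := Tuple.monotone_sort (OrderDual.toDual ∘ a)
  let b : ℕ → ℕ := fun i => if h : i < n then a (r ⟨i, h⟩) else 0
  have hb : Antitone b := by
    intro i j hij
    simp only [b]
    split_ifs with h1 h2 h2
    · exact hr (show (⟨i, h2⟩ : Fin n) ≤ ⟨j, h1⟩ from hij)
    · omega
    · omega
    · omega
  let l : YoungDiagram :=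
    { cells := (range n ×ˢ range (b 0)).filter fun c => c.2 < b c.1
      isLowerSet := by
        rintro ⟨i, j⟩ ⟨i', j'⟩ ⟨h1, h2⟩ h
        simp only [coe_filter, mem_product, mem_range, Set.mem_ofPred_eq] at h h1 h2 ⊢
        have := hb h1
        omega }
  have hl : ∀ i, l.rowLen i = b i := by
    intro i
    refine eq_of_forall_lt_iff fun j => ?_
    rw [← YoungDiagram.mem_iff_lt_rowLen, ← YoungDiagram.mem_cells]
    simp only [l, mem_filter, mem_product, mem_range, and_iff_right_iff_imp]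
    intro h
    have := hb (Nat.zero_le i)
    refine ⟨?_, by omega⟩
    by_contra hi
    simp [b, hi] at h
  exact ⟨l, r, fun i => by simp [hl, b], fun i hi => by simp [hl, b, not_lt.2 hi]⟩

theorem exists_dom_of_perm (m : YoungDiagram) (w : Equiv.Perm (Fin m.card)) (hw : w ≠ 1)
    (a : Fin m.card → ℕ) (ha : ∀ j, (a j : ℤ) = (m.rowLen (w j) : ℤ) - (w j : ℕ) + (j : ℕ)) :
    ∃ (l : YoungDiagram) (r : Equiv.Perm (Fin m.card)),
      Dom m l ∧ l ≠ m ∧ ∀ i : Fin m.card, l.rowLen i = a (r i) := by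
  obtain ⟨l, r, h1, h2⟩ := exists_diagram a
  have key : ∀ k ≤ m.card, ∑ i ∈ range k, (m.rowLen i : ℤ) +
      (∑ i ∈ univ.filter (fun i : Fin m.card => i.val < k), ((w⁻¹ i : ℕ) : ℤ) - ∑ i ∈ range k, (i : ℤ)) ≤
        ∑ i ∈ range k, (l.rowLen i : ℤ) := by
    intro k hk
    have := sum_perm_le (f := fun i => (l.rowLen i : ℤ))
      (fun i j hij => Int.ofNat_le.2 (l.rowLen_anti i j hij)) (r⁻¹ * w⁻¹) hk
    refine le_trans (le_of_eq ?_) this
    rw [← sum_filter_range _ hk, ← sum_filter_range _ hk, ← sum_sub_distrib, ← sum_add_distrib]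
    refine sum_congr rfl fun i _ => ?_
    rw [h1, Equiv.Perm.mul_apply, Equiv.Perm.inv_def, Equiv.Perm.inv_def, Equiv.apply_symm_apply,
      ha, Equiv.apply_symm_apply]
    ring
  have pos : ∀ k ≤ m.card, ∑ i ∈ range k, (i : ℤ) ≤
      ∑ i ∈ univ.filter (fun i : Fin m.card => i.val < k), ((w⁻¹ i : ℕ) : ℤ) := by
    intro k hk
    have := sum_perm_le (f := fun i => -(i : ℤ)) (fun i j hij => by simpa using hij) w⁻¹ hk
    simpa using this
  have hcard : l.card = m.card := by
    have e1 : ((l.card : ℕ) : ℤ) = ∑ i : Fin m.card, (a i : ℤ) := by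
      rw [card_eq_sum l h2, sum_range, Nat.cast_sum, ← Equiv.sum_comp r fun i => (a i : ℤ)]
      simp [h1]
    have e2 : ((m.card : ℕ) : ℤ) = ∑ i : Fin m.card, (m.rowLen (w i) : ℤ) := by
      rw [Equiv.sum_comp w fun i => (m.rowLen i : ℤ), ← Nat.cast_sum, ← sum_range m.rowLen,
        sum_rows_of_le m le_rfl]
    have e3 : ∑ i : Fin m.card, ((w i : ℕ) : ℤ) = ∑ i : Fin m.card, ((i : ℕ) : ℤ) :=
      Equiv.sum_comp w fun i => ((i : ℕ) : ℤ)
    simp only [ha, sum_add_distrib, sum_sub_distrib] at e1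
    omega
  refine ⟨l, r, ⟨hcard, fun k => ?_⟩, ?_, h1⟩
  · by_cases hk : k ≤ m.card
    · have := key k hk
      have := pos k hk
      exact_mod_cast (show ∑ i ∈ range k, (m.rowLen i : ℤ) ≤ ∑ i ∈ range k, (l.rowLen i : ℤ) by
        linarith)
    · rw [sum_rows_of_le l (by omega), hcard]
      exact sum_rows_le m k
  · rintro rfl
    refine hw (inv_eq_one.1 (Equiv.ext fun i => Fin.ext ?_))
    have e : ∀ k ≤ l.card, ∑ i ∈ univ.filter (fun i : Fin l.card => i.val < k), ((w⁻¹ i : ℕ) : ℤ) =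
        ∑ i ∈ range k, (i : ℤ) := fun k hk => by linarith [key k hk, pos k hk]
    have e1 := e i i.2.le
    have e2 := e (i + 1) i.2
    have e3 : (univ.filter fun j : Fin l.card => (j : ℕ) < i + 1) =
        insert i (univ.filter fun j : Fin l.card => (j : ℕ) < i) := by
      ext j
      simp only [mem_filter, mem_univ, true_and, mem_insert, Fin.ext_iff]
      omega
    rw [e3, sum_insert (by simp), e1, sum_range_succ] at e2
    simp only [Equiv.Perm.coe_one, id_eq]
    omega

end Pool.Agent.Lib.MP_ef09c4_co
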