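import Pool.Agent.Lib.MP_ef09c4_co.Tri
import Pool.Agent.Lib.MP_ef09c4_co.Part

/-!
Triangularity in the dominance order.
-/

set_option autoImplicit false

namespace Pool.Agent.Lib.MP_ef09c4_co

open Finset MvPolynomial Submodule

variable (K : Type) [Field K]

/-- Product of complete homogeneous functions along the rows. -/
noncomputable def hprod (l : YoungDiagram) : SymF K := ∏ i ∈ range l.card, hL (l.rowLen i)

/-- Span of the Schur functions above `m`. -/
noncomputable def SS (m : YoungDiagram) : Submodule K (SymF K) := span K (schur K '' {l | Dom m l})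

/-- Span of the Schur functions strictly above `m`. -/
noncomputable def SS' (m : YoungDiagram) : Submodule K (SymF K) :=
  span K (schur K '' {l | Dom m l ∧ l ≠ m})

/-- Span of the products strictly above `m`. -/
noncomputable def HH' (m : YoungDiagram) : Submodule K (SymF K) :=
  span K (hprod K '' {l | Dom m l ∧ l ≠ m})

/-- The homogeneous component of degree `n`. -/
noncomputable def Hp (n : ℕ) : Submodule K (SymF K) :=
  span K {F | ∃ s : Multiset ℕ, s.sum = n ∧ F = (s.map hL).prod}

variable {K}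

theorem Dom.ne_trans {a b c : YoungDiagram} (h1 : Dom a b) (h : b ≠ a) (h2 : Dom b c) : c ≠ a := by
  rintro rfl
  exact h (h2.antisymm h1)

theorem perm_term_mem (m : YoungDiagram) {w : Equiv.Perm (Fin m.card)} (hw : w ≠ 1) :
    ∏ j : Fin m.card, hz K ((m.rowLen (w j) : ℤ) - (w j : ℕ) + (j : ℕ)) ∈ HH' K m := by
  by_cases h : ∃ j : Fin m.card, (m.rowLen (w j) : ℤ) - (w j : ℕ) + (j : ℕ) < 0
  · obtain ⟨j, hj⟩ := h
    rw [prod_eq_zero (mem_univ j) (hz_neg hj)]
    exact zero_mem _
  push Not at h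
  obtain ⟨l, r, h1, h2, h3⟩ := exists_dom_of_perm m w hw
    (fun j => ((m.rowLen (w j) : ℤ) - (w j : ℕ) + (j : ℕ)).toNat)
    fun j => Int.toNat_of_nonneg (h j)
  refine subset_span ⟨l, ⟨h1, h2⟩, ?_⟩
  rw [hprod, h1.1, prod_range, ← Equiv.prod_comp r fun j : Fin m.card =>
    hz K ((m.rowLen (w j) : ℤ) - (w j : ℕ) + (j : ℕ))]
  refine prod_congr rfl fun i _ => ?_
  rw [h3, ← hz_nat, Int.toNat_of_nonneg (h _)]

theorem id_term (m : YoungDiagram) :
    ∏ j : Fin m.card, hz K ((m.rowLen j : ℤ) - (j : ℕ) + (j : ℕ)) = hprod K m := by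
  rw [hprod, prod_range]
  exact prod_congr rfl fun i _ => by rw [sub_add_cancel, hz_nat]

theorem schur_eq (m : YoungDiagram) : schur K m = ∑ w : Equiv.Perm (Fin m.card),
    ((Equiv.Perm.sign w : ℤ) : K) •
      ∏ j : Fin m.card, hz K ((m.rowLen (w j) : ℤ) - (w j : ℕ) + (j : ℕ)) := by
  rw [schur, Matrix.det_apply']
  exact sum_congr rfl fun w _ => by simp [smul_eq_C_mul]

theorem schur_sub_hprod (m : YoungDiagram) : schur K m - hprod K m ∈ HH' K m := by
  rw [schur_eq, ← add_sum_erase _ _ (mem_univ 1)]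
  simp only [Equiv.Perm.sign_one, Units.val_one, Int.cast_one, one_smul, Equiv.Perm.coe_one, id_eq,
    id_term, add_sub_cancel_left]
  exact sum_mem fun w hw => smul_mem _ _ (perm_term_mem m (ne_of_mem_erase hw))

theorem SS'_le_SS (m : YoungDiagram) : SS' K m ≤ SS K m :=
  span_mono (Set.image_mono fun _ h => h.1)

theorem SS_le_SS {m l : YoungDiagram} (h : Dom m l) : SS K l ≤ SS K m :=
  span_mono (Set.image_mono fun _ h' => h.trans h')

theorem SS_le_SS' {m l : YoungDiagram} (h : Dom m l) (hne : l ≠ m) : SS K l ≤ SS' K m :=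
  span_mono (Set.image_mono fun _ h' => ⟨h.trans h', h.ne_trans hne h'⟩)

theorem schur_mem_SS (m : YoungDiagram) : schur K m ∈ SS K m := subset_span ⟨m, Dom.refl m, rfl⟩

theorem hprod_mem_SS (m : YoungDiagram) : hprod K m ∈ SS K m := by
  induction m using dom_induction with
  | h m ih =>
    have : HH' K m ≤ SS K m := span_le.2 (by
      rintro _ ⟨l, hl, rfl⟩
      exact SS_le_SS hl.1 (ih l hl.1 hl.2))
    simpa using sub_mem (schur_mem_SS m) (this (schur_sub_hprod m))

theorem HH'_eq (m : YoungDiagram) : HH' K m = SS' K m := by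
  refine le_antisymm (span_le.2 ?_) (span_le.2 ?_)
  · rintro _ ⟨l, hl, rfl⟩
    exact SS_le_SS' hl.1 hl.2 (hprod_mem_SS l)
  · rintro _ ⟨l, hl, rfl⟩
    have h1 : HH' K l ≤ HH' K m :=
      span_mono (Set.image_mono fun _ h' => ⟨hl.1.trans h'.1, hl.1.ne_trans hl.2 h'.1⟩)
    have h2 : hprod K l ∈ HH' K m := subset_span ⟨l, hl, rfl⟩
    simpa using add_mem (h1 (schur_sub_hprod l)) h2

theorem exists_eigen (D : SymF K →ₗ[K] SymF K) (e : YoungDiagram → K) (he : Function.Injective e)
    (h : ∀ m, D (schur K m) - e m • schur K m ∈ SS' K m) :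
    ∃ G : YoungDiagram → SymF K, ∀ m, D (G m) = e m • G m ∧ G m - schur K m ∈ SS' K m := by
  let Eig : YoungDiagram → Set (SymF K) := fun l => {g | D g = e l • g ∧ g - schur K l ∈ SS' K l}
  have key : ∀ m, (Eig m).Nonempty ∧ schur K m ∈ span K {g | ∃ l, Dom m l ∧ g ∈ Eig l} := by
    intro m
    induction m using dom_induction with
    | h m ih =>
      let N := span K {g | ∃ l, (Dom m l ∧ l ≠ m) ∧ g ∈ Eig l}
      have h1 : SS' K m ≤ N := span_le.2 (by
        rintro _ ⟨l, hl, rfl⟩
        refine span_mono ?_ (ih l hl.1 hl.2).2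
        rintro g ⟨l', hl', hg⟩
        exact ⟨l', ⟨hl.1.trans hl', hl.1.ne_trans hl.2 hl'⟩, hg⟩)
      have h2 : N ≤ SS' K m := span_le.2 (by
        rintro g ⟨l, hl, hg⟩
        simpa using SS_le_SS' hl.1 hl.2 (add_mem (SS'_le_SS l hg.2) (schur_mem_SS l)))
      have h3 : ∀ v ∈ N, ∃ u ∈ N, D u - e m • u = v := by
        intro v hv
        induction hv using span_induction with
        | mem g hg =>
          obtain ⟨l, hl, hg'⟩ := hg
          have hne : e l - e m ≠ 0 := sub_ne_zero.2 fun h => hl.2 (he h)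
          refine ⟨(e l - e m)⁻¹ • g, smul_mem _ _ (subset_span ⟨l, hl, hg'⟩), ?_⟩
          rw [map_smul, hg'.1, smul_comm (e m), ← smul_sub, ← sub_smul, smul_smul,
            inv_mul_cancel₀ hne, one_smul]
        | zero => exact ⟨0, zero_mem _, by simp⟩
        | add a b _ _ ha hb =>
          obtain ⟨u, hu, rfl⟩ := ha
          obtain ⟨u', hu', rfl⟩ := hb
          exact ⟨u + u', add_mem hu hu', by rw [map_add, smul_add]; abel⟩
        | smul c a _ ha =>
          obtain ⟨u, hu, rfl⟩ := ha
          exact ⟨c • u, smul_mem _ _ hu, by rw [map_smul, smul_comm, smul_sub]⟩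
      obtain ⟨u, hu, hu'⟩ := h3 _ (h1 (h m))
      have hg : schur K m - u ∈ Eig m := ⟨by
        rw [map_sub, smul_sub]; linear_combination (exp := 1) -hu', by simpa using h2 hu⟩
      refine ⟨⟨_, hg⟩, ?_⟩
      have h4 : N ≤ span K {g | ∃ l, Dom m l ∧ g ∈ Eig l} :=
        span_mono fun g ⟨l, hl, hg⟩ => ⟨l, hl.1, hg⟩
      simpa using add_mem (subset_span (show _ ∈ {g | ∃ l, Dom m l ∧ g ∈ Eig l} from
        ⟨m, Dom.refl m, hg⟩)) (h4 hu)
  choose G hG using fun m => (key m).1
  exact ⟨G, hG⟩

theorem SS_eq_span {G : YoungDiagram → SymF K} (h : ∀ m, G m - schur K m ∈ SS' K m)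
    (m : YoungDiagram) : SS K m = span K (G '' {l | Dom m l}) := by
  refine le_antisymm (span_le.2 ?_) (span_le.2 ?_)
  · have key : ∀ l, schur K l ∈ span K (G '' {l' | Dom l l'}) := by
      intro l
      induction l using dom_induction with
      | h l ih =>
        have : SS' K l ≤ span K (G '' {l' | Dom l l'}) := span_le.2 (by
          rintro _ ⟨l', hl', rfl⟩
          exact span_mono (Set.image_mono fun _ h' => hl'.1.trans h') (ih l' hl'.1 hl'.2))
        simpa using sub_mem (subset_span (show G l ∈ G '' {l' | Dom l l'} from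
          ⟨l, Dom.refl l, rfl⟩)) (this (h l))
    rintro _ ⟨l, hl, rfl⟩
    exact span_mono (Set.image_mono fun _ h' => Dom.trans hl h') (key l)
  · rintro _ ⟨l, hl, rfl⟩
    simpa using SS_le_SS hl (add_mem (SS'_le_SS l (h l)) (schur_mem_SS l))

theorem hprod_eq (l : YoungDiagram) {L : ℕ} (h : ∀ i, L ≤ i → l.rowLen i = 0) :
    hprod K l = ∏ i ∈ range L, hL (l.rowLen i) := by
  have key : ∀ a b, a ≤ b → (∀ i, a ≤ i → l.rowLen i = 0) →
      ∏ i ∈ range a, (hL (l.rowLen i) : SymF K) = ∏ i ∈ range b, hL (l.rowLen i) :=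
    fun a b hab ha => prod_subset (range_subset_range.2 hab) fun i _ hi => by
      rw [ha i (by simpa using hi)]; exact newton_zero _
  rw [hprod, key l.card (l.card + L) (by omega) fun _ => rowLen_eq_zero l,
    key L (l.card + L) (by omega) h]

theorem hprod_mem_Hp (l : YoungDiagram) : hprod K l ∈ Hp K l.card :=
  subset_span ⟨(range l.card).val.map l.rowLen, sum_rows_of_le l le_rfl, by
    rw [Multiset.map_map]; rfl⟩

theorem SS_le_Hp (m : YoungDiagram) : SS K m ≤ Hp K m.card := by
  refine span_le.2 ?_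
  rintro _ ⟨l, hl, rfl⟩
  have : HH' K l ≤ Hp K m.card := span_le.2 (by
    rintro _ ⟨l', hl', rfl⟩
    rw [← hl.1, ← hl'.1.1]
    exact hprod_mem_Hp l')
  have h2 : hprod K l ∈ Hp K m.card := by rw [← hl.1]; exact hprod_mem_Hp l
  have := add_mem (this (schur_sub_hprod l)) h2
  rwa [sub_add_cancel] at this

theorem Hp_le {n : ℕ} {N : Submodule K (SymF K)} (h : ∀ l, l.card = n → SS K l ≤ N) :
    Hp K n ≤ N := by
  refine span_le.2 ?_
  rintro _ ⟨s, hs, rfl⟩
  induction s using Quotient.inductionOn with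
  | h s =>
    obtain ⟨l, r, h1, h2⟩ := exists_diagram s.get
    have e1 : l.card = n := by
      rw [card_eq_sum l h2, sum_range, ← hs]
      simp only [h1]
      rw [Equiv.sum_comp r s.get, ← List.sum_ofFn, List.ofFn_get]
      simp
    have e2 : hprod K l = (Multiset.map hL ⟦s⟧).prod := by
      rw [hprod_eq l h2, prod_range]
      simp only [h1]
      rw [Equiv.prod_comp r fun i => hL (s.get i), ← List.prod_ofFn]
      simp only [Multiset.quot_mk_to_coe, Multiset.map_coe, Multiset.prod_coe]
      rw [← List.ofFn_get s, List.map_ofFn]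
      simp [Function.comp_def]
    exact e2 ▸ h l e1 (hprod_mem_SS l)

theorem mul_mem_Hp {a b : ℕ} {F G : SymF K} (hF : F ∈ Hp K a) (hG : G ∈ Hp K b) :
    F * G ∈ Hp K (a + b) := by
  have : Hp K a * Hp K b ≤ Hp K (a + b) := by
    rw [Hp, Hp, span_mul_span]
    refine span_mono ?_
    rintro _ ⟨_, ⟨s, hs, rfl⟩, _, ⟨s', hs', rfl⟩, rfl⟩
    exact ⟨s + s', by simp [hs, hs'], by simp⟩
  exact this (mul_mem_mul hF hG)

theorem one_mem_Hp : (1 : SymF K) ∈ Hp K 0 := subset_span ⟨0, rfl, by simp⟩

theorem hL_mem_Hp (n : ℕ) : (hL n : SymF K) ∈ Hp K n := subset_span ⟨{n}, by simp, by simp⟩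

theorem Hp_map {f : SymF K →ₐ[K] SymF K} (h : ∀ m, f (hL m) ∈ Hp K m) {n : ℕ} {F : SymF K}
    (hF : F ∈ Hp K n) : f F ∈ Hp K n := by
  have : Hp K n ≤ (Hp K n).comap f.toLinearMap := span_le.2 (by
    rintro _ ⟨s, rfl, rfl⟩
    change f _ ∈ Hp K _
    clear hF
    induction s using Multiset.induction_on with
    | empty => simpa using one_mem_Hp
    | cons a s ih =>
      rw [Multiset.map_cons, Multiset.prod_cons, Multiset.sum_cons, map_mul]
      exact mul_mem_Hp (h a) ih)
  exact this hF

theorem dg_pow (c : K) {n : ℕ} {F : SymF K} (hF : F ∈ Hp K n) :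
    dg (fun k => c ^ (k + 1)) F = c ^ n • F := by
  induction hF using span_induction with
  | mem F hF =>
    obtain ⟨s, rfl, rfl⟩ := hF
    induction s using Multiset.induction_on with
    | empty => simp
    | cons a s ih =>
      rw [Multiset.map_cons, Multiset.prod_cons, Multiset.sum_cons, map_mul, ih, map_newton]
      simp only [dg_X, map_pow, newton_scale, smul_eq_C_mul]
      ring
  | zero => simp
  | add a b _ _ ha hb => rw [map_add, ha, hb, smul_add]
  | smul c a _ ha => rw [map_smul, ha, smul_comm]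

variable [CharZero K]

theorem X_mem_Hp (k : ℕ) : (X k : SymF K) ∈ Hp K (k + 1) := by
  induction k using Nat.strong_induction_on with
  | _ k ih =>
    have e := newton_succ' (K := K) (X : ℕ → SymF K) k
    rw [sum_range_succ, Nat.sub_self, newton_zero, mul_one] at e
    have e2 : (X k : SymF K) = ((k : K) + 1) • hL (k + 1) - ∑ j ∈ range k, X j * hL (k - j) := by
      rw [smul_eq_C_mul, map_add, map_natCast, map_one]
      linear_combination -e
    rw [e2]
    refine sub_mem (smul_mem _ _ (hL_mem_Hp _)) (sum_mem fun j hj => ?_)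
    have := mem_range.1 hj
    rw [show k + 1 = (j + 1) + (k - j) by omega]
    exact mul_mem_Hp (ih j this) (hL_mem_Hp _)

theorem dg_mem_Hp (c : ℕ → K) {n : ℕ} {F : SymF K} (hF : F ∈ Hp K n) : dg c F ∈ Hp K n := by
  refine Hp_map (fun m => ?_) hF
  induction m using Nat.strong_induction_on with
  | _ m ih =>
    rcases m with _ | m
    · simpa using one_mem_Hp
    · rw [hL, newton_succ, map_smul, map_sum]
      refine smul_mem _ _ (sum_mem fun j hj => ?_)
      have := mem_range.1 hj
      rw [map_mul, dg_X, mul_assoc, ← smul_eq_C_mul, show m + 1 = (j + 1) + (m - j) by omega]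
      exact smul_mem _ _ (mul_mem_Hp (X_mem_Hp j) (ih _ (by omega)))

theorem iSup_Hp (F : SymF K) : F ∈ ⨆ n, Hp K n := by
  induction F using MvPolynomial.induction_on with
  | C a => exact mem_iSup_of_mem 0 (by simpa [smul_eq_C_mul] using smul_mem _ a one_mem_Hp)
  | add a b ha hb => exact add_mem ha hb
  | mul_X a k ha =>
    induction ha using iSup_induction' with
    | mem n F hF => exact mem_iSup_of_mem _ (mul_mem_Hp hF (X_mem_Hp k))
    | zero => simp
    | add a b _ _ ha hb => rw [add_mul]; exact add_mem ha hb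

theorem schur_notMem (m : YoungDiagram) : schur K m ∉ SS' K m := by
  obtain ⟨a, ha⟩ := exists_newton_eq (K := K) (fun k => ∏ j ∈ range k, (X j : SymF K)) (by simp)
  let ex : YoungDiagram → ℕ →₀ ℕ := fun l => ∑ c ∈ l.cells, Finsupp.single c.2 1
  have h1 : ∀ l, aeval a (hprod K l) = monomial (ex l) (1 : K) := by
    intro l
    rw [monomial_sum_one, prod_cells l fun _ => rowLen_eq_zero l, hprod, map_prod]
    refine prod_congr rfl fun i _ => ?_
    rw [map_newton]
    simp only [aeval_X]
    exact ha _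
  have h2 : ∀ l j, ex l j = l.colLen j := by
    intro l j
    rw [YoungDiagram.colLen_eq_card, YoungDiagram.col, card_filter]
    simp [ex, Finsupp.single_apply]
  have h3 : ∀ F ∈ HH' K m, coeff (ex m) (aeval a F) = 0 := by
    intro F hF
    induction hF using span_induction with
    | mem F hF =>
      obtain ⟨l, hl, rfl⟩ := hF
      rw [h1, coeff_monomial, if_neg]
      intro e
      refine hl.2 (YoungDiagram.transpose_eq_iff.1 (diagram_ext fun j => ?_))
      rw [YoungDiagram.rowLen_transpose, YoungDiagram.rowLen_transpose, ← h2, ← h2, e]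
    | zero => simp
    | add a b _ _ ha hb => rw [map_add, coeff_add, ha, hb, add_zero]
    | smul c a _ ha => rw [map_smul, coeff_smul, ha, smul_zero]
  intro h
  have := h3 _ (sub_mem (HH'_eq (K := K) m ▸ h) (schur_sub_hprod m))
  rw [sub_sub_cancel, h1] at this
  simp at this

omit [CharZero K] in
theorem sum_cellWeights (q t : K) (m : YoungDiagram) :
    (cellWeights q t m).sum = ∑ c ∈ m.cells, q ^ c.2 * t ^ c.1 := rfl

/-- The eigenvalue of the degree zero operator. -/
def ev0 (q t : K) (m : YoungDiagram) : K := 1 - (1 - q) * (1 - t) * (cellWeights q t m).sum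

theorem Op_schur (q t : K) (m : YoungDiagram) :
    Op (fun k => 1 - t ^ (k + 1)) (fun s => pleth q (eL s)) (schur K m) - ev0 q t m • schur K m ∈
      SS' K m := by
  rw [← HH'_eq]
  conv => enter [2, 1]; rw [schur, Op_det]
  rw [schur_eq, smul_sum, ← sum_sub_distrib]
  refine sum_mem fun w _ => ?_
  rw [smul_smul, ← sub_smul]
  by_cases hw : w = 1
  · have : t ^ m.card + (1 - t) * ∑ j : Fin m.card, t ^ (j : ℕ) * q ^ m.rowLen j = ev0 q t m := by
      rw [ev0, sum_cellWeights, sum_cells m fun _ => rowLen_eq_zero m,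
        ← sum_range fun j => t ^ j * q ^ m.rowLen j]
      have e : (1 - q) * ∑ i ∈ range m.card, ∑ j ∈ range (m.rowLen i), q ^ j * t ^ i =
          ∑ i ∈ range m.card, t ^ i - ∑ i ∈ range m.card, t ^ i * q ^ m.rowLen i := by
        rw [mul_sum, ← sum_sub_distrib]
        refine sum_congr rfl fun i _ => ?_
        rw [← sum_mul, ← mul_assoc, mul_neg_geom_sum]
        ring
      linear_combination (1 - t) * e + mul_neg_geom_sum t m.card
    subst hw
    simp [this]
  · exact smul_mem _ _ (perm_term_mem m hw)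

end Pool.Agent.Lib.MP_ef09c4_co
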