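import Pool.Agent.Lib.MP_ef09c4_co.Comm
import Pool.Agent.Lib.MP_ef09c4_co.Span

/-!
Existence and uniqueness of the modified Macdonald polynomials up to scalars, and the support of
the Pieri rule.
-/

set_option autoImplicit false

namespace Pool.Agent.Lib.MP_ef09c4_co

open Finset MvPolynomial Submodule

variable {K : Type} [Field K]

/-- Generic parameters. -/
def Gen (q t : K) : Prop :=
  q ≠ 0 ∧ t ≠ 0 ∧ LinearIndependent ℤ fun e : ℤ × ℤ => q ^ e.1 * t ^ e.2

theorem Gen.symm {q t : K} (h : Gen q t) : Gen t q :=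
  ⟨h.2.1, h.1, by
    simpa [Function.comp_def, mul_comm] using h.2.2.comp Prod.swap Prod.swap_injective⟩

theorem Gen.inv {q t : K} (h : Gen q t) : Gen q⁻¹ t⁻¹ :=
  ⟨inv_ne_zero h.1, inv_ne_zero h.2.1, by
    simpa [Function.comp_def] using h.2.2.comp Neg.neg neg_injective⟩

theorem Gen.pow_ne {q t : K} (h : Gen q t) (k : ℕ) : 1 - q ^ (k + 1) ≠ 0 := by
  intro e
  have := h.2.2.injective (a₁ := (((k + 1 : ℕ) : ℤ), 0)) (a₂ := (0, 0)) (by
    simp only [zpow_natCast, zpow_zero, mul_one]; linear_combination -e)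
  simp only [Prod.mk.injEq, and_true] at this
  omega

theorem Gen.ne_one {q t : K} (h : Gen q t) : 1 - q ≠ 0 := by simpa using h.pow_ne 0

theorem Gen.mul_ne {q t : K} (h : Gen q t) : q * t ≠ 1 := by
  intro e
  have := h.2.2.injective (a₁ := (1, 1)) (a₂ := (0, 0)) (by simpa using e)
  simp at this

theorem Gen.ev0_inj {q t : K} (h : Gen q t) : Function.Injective (ev0 q t) := by
  intro l m e
  have e1 : (cellWeights q t l).sum = (cellWeights q t m).sum :=
    mul_left_cancel₀ (mul_ne_zero h.ne_one h.symm.ne_one) (sub_right_injective e)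
  let f : YoungDiagram → ℤ × ℤ →₀ ℤ := fun l => ∑ c ∈ l.cells, Finsupp.single (c.2, c.1) 1
  have e2 : f l = f m := h.2.2 (by simpa [f, map_sum, sum_cellWeights] using e1)
  have e3 : ∀ l (c : ℕ × ℕ), f l (c.2, c.1) = if c ∈ l.cells then 1 else 0 := by
    intro l c
    simp only [f, Finsupp.finsetSum_apply, Finsupp.single_apply, Prod.mk.injEq, Nat.cast_inj]
    rw [← sum_ite_eq' l.cells c fun _ => (1 : ℤ)]
    exact sum_congr rfl fun d _ => by simp [Prod.ext_iff, and_comm]
  ext c
  have := e3 l c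
  rw [e2, e3] at this
  split_ifs at this <;> simp_all

theorem Gen.add_cell {q t : K} (h : Gen q t) {l m : YoungDiagram} (hc : l.card = m.card + 1)
    (e : ((cellWeights q t l).sum - (cellWeights q t m).sum) *
      ((cellWeights q⁻¹ t⁻¹ l).sum - (cellWeights q⁻¹ t⁻¹ m).sum) = 1) :
    ∃ w, cellWeights q t l = w ::ₘ cellWeights q t m := by
  let a : ℕ × ℕ → ℤ := fun c => (if c ∈ l.cells then 1 else 0) - if c ∈ m.cells then 1 else 0
  have key : ∀ x y : K, (cellWeights x y l).sum - (cellWeights x y m).sum =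
      ∑ c ∈ l.cells ∪ m.cells, (a c : K) * (x ^ c.2 * y ^ c.1) := by
    intro x y
    simp only [a, sub_mul, sum_sub_distrib, sum_cellWeights, Int.cast_sub, Int.cast_ite,
      Int.cast_one, Int.cast_zero, ite_mul, one_mul, zero_mul, sum_ite_mem, union_inter_cancel_left,
      union_inter_cancel_right]
  let f : ℤ × ℤ →₀ ℤ := ∑ c ∈ l.cells ∪ m.cells, ∑ d ∈ l.cells ∪ m.cells,
    Finsupp.single ((c.2 : ℤ) - d.2, (c.1 : ℤ) - d.1) (a c * a d)
  have e2 : f = Finsupp.single 0 1 := h.2.2 (by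
    rw [key, key, sum_mul_sum] at e
    simp only [f, map_sum, Finsupp.linearCombination_single, Prod.fst_zero, Prod.snd_zero,
      zpow_zero, mul_one, zpow_sub₀ h.1, zpow_sub₀ h.2.1, zpow_natCast,
      zsmul_eq_mul, Int.cast_mul, Int.cast_one]
    rw [← e]
    exact sum_congr rfl fun c _ => sum_congr rfl fun d _ => by ring)
  have e3 : ∑ c ∈ l.cells ∪ m.cells, a c * a c = 1 := by
    have := congrArg (fun g => g 0) e2
    simp only [f, Finsupp.finsetSum_apply, Finsupp.single_apply, if_true] at this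
    rw [← this]
    refine sum_congr rfl fun c hc => ?_
    rw [sum_eq_single c (fun d _ hd => if_neg fun e => hd ?_) (fun h => absurd hc h)]
    · simp
    · simp only [Prod.mk_eq_zero, sub_eq_zero, Nat.cast_inj] at e
      exact Prod.ext e.2.symm e.1.symm
  have e4 : ∑ c ∈ l.cells ∪ m.cells, a c * a c =
      ((l.cells \ m.cells).card : ℤ) + (m.cells \ l.cells).card := by
    have : ∀ c, a c * a c = (if c ∈ l.cells \ m.cells then 1 else 0) +
        if c ∈ m.cells \ l.cells then 1 else 0 := by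
      intro c
      simp only [a, mem_sdiff]
      split_ifs <;> simp_all
    simp only [this, sum_add_distrib, sum_ite_mem]
    rw [inter_eq_right.2 (sdiff_subset.trans subset_union_left),
      inter_eq_right.2 (sdiff_subset.trans subset_union_right)]
    simp
  have e5 := card_sdiff_add_card_inter l.cells m.cells
  have e6 := card_sdiff_add_card_inter m.cells l.cells
  rw [inter_comm] at e6
  have e7 : (l.cells \ m.cells).card = 1 ∧ (m.cells \ l.cells).card = 0 := by
    unfold YoungDiagram.card at hc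
    omega
  obtain ⟨c, hc⟩ := card_eq_one.1 e7.1
  have hcm : c ∉ m.cells := (mem_sdiff.1 (hc ▸ mem_singleton_self c)).2
  have e8 : l.cells = cons c m.cells hcm := by
    rw [cons_eq_insert, insert_eq, ← hc,
      sdiff_union_of_subset (sdiff_eq_empty_iff_subset.1 (card_eq_zero.1 e7.2))]
  exact ⟨_, by rw [cellWeights, e8, cons_val, Multiset.map_cons]; rfl⟩

theorem ev0_transpose (q t : K) (m : YoungDiagram) : ev0 t q m.transpose = ev0 q t m := by
  rw [ev0, ev0, sum_cellWeights, sum_cellWeights, mul_comm (1 - t)]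
  simp [YoungDiagram.transpose, mul_comm]

theorem unpleth {q t : K} (h : Gen q t) (F : SymF K) :
    dg (fun k => (1 - q ^ (k + 1))⁻¹) (pleth q F) = F := by
  rw [pleth_eq, dg_dg]
  simp only [inv_mul_cancel₀ (h.pow_ne _), dg_one]

theorem pleth_un {q t : K} (h : Gen q t) (F : SymF K) :
    pleth q (dg (fun k => (1 - q ^ (k + 1))⁻¹) F) = F := by
  rw [pleth_eq, dg_dg]
  simp only [mul_inv_cancel₀ (h.pow_ne _), dg_one]

theorem eigen_coeff {D : SymF K →ₗ[K] SymF K} {e : YoungDiagram → K} {G : YoungDiagram → SymF K}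
    (hG : ∀ m, D (G m) = e m • G m) (c : YoungDiagram →₀ K) :
    D (Finsupp.linearCombination K G c) = c.sum fun l a => (a * e l) • G l := by
  simp [Finsupp.linearCombination_apply, Finsupp.sum, hG, smul_smul]

theorem coeff_eq_of_sum {G : YoungDiagram → SymF K} (hG : LinearIndependent K G)
    (c : YoungDiagram →₀ K) {a : YoungDiagram → K}
    (h : (c.sum fun l x => (x * a l) • G l) = 0) : ∀ l ∈ c.support, a l = 0 := by
  intro l hl
  have := linearIndependent_iff'.1 hG c.support (fun l => c l * a l) h l hl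
  exact (mul_eq_zero.1 this).resolve_left (Finsupp.mem_support_iff.1 hl)

variable [CharZero K]

theorem exists_tri {q t : K} (h : Gen q t) : ∃ G : YoungDiagram → SymF K,
    (∀ m, D0 q t (G m) = ev0 q t m • G m) ∧ (∀ m, G m ≠ 0) ∧
      ∀ m F, pleth q F ∈ SS K m ↔ F ∈ span K (G '' {l | Dom m l}) := by
  obtain ⟨G, hG⟩ := exists_eigen _ _ h.ev0_inj (Op_schur q t)
  refine ⟨fun m => dg (fun k => (1 - q ^ (k + 1))⁻¹) (G m), fun m => ?_, fun m e => ?_,
    fun m F => ?_⟩
  · rw [← unpleth h (D0 q t _), pleth_D0, pleth_un h, (hG m).1, map_smul]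
  · have := congrArg (pleth q) e
    rw [pleth_un h, map_zero] at this
    exact schur_notMem m (by simpa [this] using (hG m).2)
  · rw [SS_eq_span fun m => (hG m).2, ← Set.image_image (dg _) G,
      ← AlgHom.coe_toLinearMap (dg _), ← map_span]
    refine ⟨fun hF => ⟨_, hF, unpleth h F⟩, ?_⟩
    rintro ⟨F, hF, rfl⟩
    rwa [AlgHom.toLinearMap_apply, pleth_un h]

theorem Hp_le_span {q t : K} (h : Gen q t) {G : YoungDiagram → SymF K}
    (hG : ∀ m F, pleth q F ∈ SS K m ↔ F ∈ span K (G '' {l | Dom m l})) (n : ℕ) :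
    Hp K n ≤ span K (G '' {l | l.card = n}) := by
  intro F hF
  have : Hp K n ≤ (span K (G '' {l | l.card = n})).comap
      (dg fun k => (1 - q ^ (k + 1))⁻¹).toLinearMap := Hp_le fun l hl E hE =>
    span_mono (Set.image_mono fun _ h' => h'.1.trans hl) ((hG l _).1 (by
      rwa [AlgHom.toLinearMap_apply, pleth_un h]))
  have := this (dg_mem_Hp (fun k => 1 - q ^ (k + 1)) hF)
  rwa [mem_comap, AlgHom.toLinearMap_apply, ← pleth_eq, unpleth h] at this

theorem mem_Hp_of_pleth {q t : K} (h : Gen q t) {m : YoungDiagram} {F : SymF K}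
    (hF : pleth q F ∈ SS K m) : F ∈ Hp K m.card := by
  rw [← unpleth h F]
  exact dg_mem_Hp _ (SS_le_Hp m hF)

theorem exists_mac {q t : K} (h : Gen q t) : ∃ G : YoungDiagram → SymF K,
    IsMacdonald q t G ∧ (∀ m, D0 q t (G m) = ev0 q t m • G m) ∧
      (∀ n, Hp K n ≤ span K (G '' {l | l.card = n})) ∧
      ∀ m F, pleth q F ∈ SS K m → pleth t F ∈ SS K m.transpose → ∃ c : K, F = c • G m := by
  obtain ⟨G, h1, h2, h3⟩ := exists_tri h
  obtain ⟨G', h1', h2', h3'⟩ := exists_tri h.symm
  have li : LinearIndependent K G :=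
    Module.End.eigenvectors_linearIndependent' (D0 q t) (ev0 q t) h.ev0_inj G fun m =>
      ⟨Module.End.mem_eigenspace_iff.2 (h1 m), h2 m⟩
  have single : ∀ m (c : YoungDiagram →₀ K), (∀ l ∈ c.support, l = m) →
      Finsupp.linearCombination K G c = c m • G m := by
    intro m c hc
    rw [Finsupp.linearCombination_apply, Finsupp.sum_eq_single m
      (fun l h1 h2 => absurd (hc l (Finsupp.mem_support_iff.2 h1)) h2) (by simp)]
  have h4 : ∀ m, ∃ c : K, G' m.transpose = c • G m := by
    intro m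
    have := Hp_le_span h h3 _ (mem_Hp_of_pleth h.symm
      ((h3' _ _).2 (subset_span ⟨m.transpose, Dom.refl _, rfl⟩)))
    obtain ⟨c, _, hc⟩ := (Finsupp.mem_span_image_iff_linearCombination K).1 this
    refine ⟨c m, ?_⟩
    rw [← hc]
    refine single m c fun l hl => h.ev0_inj (sub_eq_zero.1 (coeff_eq_of_sum li c
      (a := fun l => ev0 q t l - ev0 q t m) ?_ l hl))
    have e := h1' m.transpose
    rw [← hc, ← D0_symm, eigen_coeff h1, ev0_transpose] at e
    simp only [mul_sub, sub_smul, Finsupp.sum_sub, e]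
    simp [Finsupp.linearCombination_apply, Finsupp.sum, smul_sum, smul_smul, mul_comm]
  refine ⟨G, fun m => ⟨h2 m, (h3 _ _).2 (subset_span ⟨m, Dom.refl _, rfl⟩), ?_⟩, h1,
    Hp_le_span h h3, fun m F hq ht => ?_⟩
  · obtain ⟨c, hc⟩ := h4 m
    have hc0 : c ≠ 0 := by rintro rfl; exact h2' _ (by simpa using hc)
    have : G m = c⁻¹ • G' m.transpose := by rw [hc, smul_smul, inv_mul_cancel₀ hc0, one_smul]
    rw [this]
    exact (h3' _ _).2 (smul_mem _ _ (subset_span ⟨m.transpose, Dom.refl _, rfl⟩))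
  · have : span K (G' '' {l | Dom m.transpose l}) ≤ span K (G '' {l | Dom m.transpose l.transpose}) :=
      span_le.2 (by
        rintro _ ⟨l, hl, rfl⟩
        obtain ⟨c, hc⟩ := h4 l.transpose
        rw [YoungDiagram.transpose_transpose] at hc
        rw [hc]
        exact smul_mem _ _ (subset_span ⟨_, by simpa using hl, rfl⟩))
    obtain ⟨c, hc, rfl⟩ := (Finsupp.mem_span_image_iff_linearCombination K).1 ((h3 _ _).1 hq)
    obtain ⟨c', hc', e⟩ := (Finsupp.mem_span_image_iff_linearCombination K).1 (this ((h3' _ _).1 ht))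
    obtain rfl : c' = c := li e
    refine ⟨c' m, single m c' fun l hl => Dom.antisymm ?_ (hc hl)⟩
    simpa using Dom.transpose (hc' hl)

theorem IsMacdonald.D0 {q t : K} (h : Gen q t) {H : YoungDiagram → SymF K}
    (hH : IsMacdonald q t H) (m : YoungDiagram) : D0 q t (H m) = ev0 q t m • H m := by
  obtain ⟨G, -, h1, -, h2⟩ := exists_mac h
  obtain ⟨c, hc⟩ := h2 m _ (hH m).2.1 (hH m).2.2
  rw [hc, map_smul, h1, smul_comm]

theorem IsMacdonald.span {q t : K} (h : Gen q t) {H : YoungDiagram → SymF K}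
    (hH : IsMacdonald q t H) (n : ℕ) : Hp K n ≤ span K (H '' {l | l.card = n}) := by
  obtain ⟨G, -, -, h1, h2⟩ := exists_mac h
  refine (h1 n).trans (span_le.2 ?_)
  rintro _ ⟨m, hm, rfl⟩
  obtain ⟨c, hc⟩ := h2 m _ (hH m).2.1 (hH m).2.2
  have hc0 : c ≠ 0 := by rintro rfl; exact (hH m).1 (by simpa using hc)
  have : G m = c⁻¹ • H m := by rw [hc, smul_smul, inv_mul_cancel₀ hc0, one_smul]
  rw [this]
  exact smul_mem _ _ (subset_span ⟨m, hm, rfl⟩)

theorem IsMacdonald.indep {q t : K} (h : Gen q t) {H : YoungDiagram → SymF K}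
    (hH : IsMacdonald q t H) : LinearIndependent K H :=
  Module.End.eigenvectors_linearIndependent' (MP_ef09c4_co.D0 q t) (ev0 q t) h.ev0_inj H fun m =>
    ⟨Module.End.mem_eigenspace_iff.2 (hH.D0 h m), (hH m).1⟩

omit [CharZero K] in
theorem pleth_omega {q : K} (hq : q ≠ 0) {m : YoungDiagram} {F : SymF K}
    (hF : pleth q F ∈ SS K m) : pleth q⁻¹ (dg (fun k => (-1) ^ k) F) ∈ SS K m := by
  have : pleth q⁻¹ (dg (fun k => (-1) ^ k) F) = dg (fun k => (-q⁻¹) ^ (k + 1)) (pleth q F) := by
    rw [pleth_eq, pleth_eq, dg_dg, dg_dg]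
    congr 2
    funext k
    rw [neg_pow q⁻¹, inv_pow]
    field_simp
    ring
  rw [this, dg_pow _ (SS_le_Hp m hF)]
  exact smul_mem _ _ hF

omit [CharZero K] in
theorem omega_omega (F : SymF K) : dg (fun k => (-1) ^ k) (dg (fun k => (-1) ^ k) F) = F := by
  rw [dg_dg]
  simp only [← mul_pow, neg_mul_neg, one_mul, one_pow, dg_one]

theorem IsMacdonald.Ds {q t : K} (h : Gen q t) {H : YoungDiagram → SymF K}
    (hH : IsMacdonald q t H) (m : YoungDiagram) : Ds q t (H m) = ev0 q⁻¹ t⁻¹ m • H m := by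
  have h1 : IsMacdonald q⁻¹ t⁻¹ fun m => dg (fun k => (-1) ^ k) (H m) := fun m =>
    ⟨fun e => (hH m).1 (by
      rw [← omega_omega (H m), show dg _ (H m) = 0 from e, map_zero]),
      pleth_omega h.1 (hH m).2.1, pleth_omega h.2.1 (hH m).2.2⟩
  have := congrArg (dg fun k => (-1) ^ k) (h1.D0 h.inv m)
  rwa [omega_D0, map_smul, omega_omega] at this

theorem IsMacdonald.pieri {q t : K} (h : Gen q t) {H : YoungDiagram → SymF K}
    (hH : IsMacdonald q t H) (m : YoungDiagram) :
    ∃ (c : YoungDiagram →₀ K) (w : YoungDiagram → K),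
      (∀ l ∈ c.support, cellWeights q t l = w l ::ₘ cellWeights q t m) ∧
      X 0 * H m = Finsupp.linearCombination K H c ∧
      -D1 q t (H m) = c.sum fun l a => (a * w l) • H l := by
  obtain ⟨c, hc, e⟩ := (Finsupp.mem_span_image_iff_linearCombination K).1
    (hH.span h _ (mul_mem_Hp (X_mem_Hp 0) (mem_Hp_of_pleth h (hH m).2.1)))
  have hM : (1 - q) * (1 - t) ≠ 0 := mul_ne_zero h.ne_one h.symm.ne_one
  let x : K → K → YoungDiagram → K := fun q t l => (cellWeights q t l).sum - (cellWeights q t m).sum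
  have e1 : -D1 q t (H m) = c.sum fun l a => (a * x q t l) • H l := by
    apply smul_right_injective _ hM
    have := D0_X_mul q t (H m)
    rw [hH.D0 h, mul_smul_comm, ← e, eigen_coeff (hH.D0 h)] at this
    change _ • _ = _ • _
    rw [smul_neg, ← sub_eq_iff_eq_add'.2 this]
    simp only [Finsupp.linearCombination_apply, Finsupp.sum, smul_sum, smul_smul,
      ← sum_sub_distrib, ← sub_smul, ← sum_neg_distrib, ← neg_smul]
    exact sum_congr rfl fun l _ => by simp only [x, ev0]; congr 1; ring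
  have e2 : ∀ l ∈ c.support, x q t l * x q⁻¹ t⁻¹ l = 1 := by
    intro l hl
    have := D1_Ds h.1 h.2.1 h.mul_ne (H m)
    rw [hH.Ds h, map_smul, ← neg_neg (D1 q t (H m)), e1, ← e] at this
    have z := coeff_eq_of_sum (hH.indep h) c
      (a := fun l => (1 - q) * (1 - t) / (q * t) * (1 - x q t l * x q⁻¹ t⁻¹ l)) ?_ l hl
    · have := (mul_eq_zero.1 z).resolve_left (div_ne_zero hM (mul_ne_zero h.1 h.2.1))
      linear_combination -this
    · rw [← sub_eq_zero.2 this]
      simp only [Finsupp.linearCombination_apply, Finsupp.sum, smul_sum, smul_smul, map_sum, map_smul, hH.Ds h, ← sum_neg_distrib, ← sum_sub_distrib, ← neg_smul,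
        ← sub_smul]
      refine sum_congr rfl fun l _ => ?_
      congr 1
      have := h.1
      have := h.2.1
      simp only [x, ev0]
      field_simp
      ring
  have e3 : ∀ l ∈ c.support, cellWeights q t l = x q t l ::ₘ cellWeights q t m := by
    intro l hl
    obtain ⟨w, hw⟩ := h.add_cell (by rw [hc hl]; omega) (e2 l hl)
    simp [x, hw]
  exact ⟨c, x q t, e3, e.symm, e1⟩

end Pool.Agent.Lib.MP_ef09c4_co
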