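import Pool.Agent.Lib.MP_ef09c4_co.Mac
import Pool.Agent.Lib.MP_ef09c4_co.Bridge

/-!
The eigenoperators on powers of the first power sum, and the final identities.
-/

set_option autoImplicit false

namespace Pool.Agent.Lib.MP_ef09c4_co

open Finset MvPolynomial Submodule

variable {K : Type} [Field K]

theorem esymm_cons (w : K) (s : Multiset K) (k : ℕ) :
    (w ::ₘ s).esymm (k + 1) = s.esymm (k + 1) + w * s.esymm k := by
  simp [Multiset.esymm, Multiset.powersetCard_cons, Multiset.sum_map_mul_left]

theorem esymm_zero' (s : Multiset K) : s.esymm 0 = 1 := by simp [Multiset.esymm]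

theorem esymm_big {s : Multiset K} {k : ℕ} (h : s.card < k) : s.esymm k = 0 := by
  simp [Multiset.esymm, Multiset.powersetCard_eq_empty k h]

theorem esymm_card (s : Multiset K) : s.esymm s.card = s.prod := by
  induction s using Multiset.induction_on with
  | empty => simp [esymm_zero']
  | cons a s ih => rw [Multiset.card_cons, esymm_cons, esymm_big (by omega), ih]; simp

theorem card_cellWeights (q t : K) (m : YoungDiagram) : (cellWeights q t m).card = m.card := by
  simp [cellWeights]

theorem exists_diag {H : YoungDiagram → SymF K} (h : LinearIndependent K H)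
    (e : YoungDiagram → K) : ∃ D : SymF K →ₗ[K] SymF K, ∀ m, D (H m) = e m • H m := by
  obtain ⟨D, hD⟩ := LinearMap.exists_extend
    ((Finsupp.linearCombination K fun m => e m • H m).comp h.repr)
  refine ⟨D, fun m => ?_⟩
  have := LinearMap.congr_fun hD ⟨H m, subset_span ⟨m, rfl⟩⟩
  rw [LinearMap.comp_apply, LinearMap.comp_apply, h.repr_eq_single m _ rfl] at this
  simpa using this

theorem rename_D1 (q t : K) (F : SymF K) :
    rename Sum.inl (-D1 q t F) = ZZ q t 0 (rename Sum.inl F) := by
  have e : Xi t (sig q t 0 (rename Sum.inl F)) =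
      (sh (MM q t) F).map (rename Sum.inl : SymF K →ₐ[K] VV K) := by
    change ((Xi t).comp ((sig q t 0).comp (rename Sum.inl))) F =
      (Polynomial.mapAlgHom (rename Sum.inl)).comp (sh (MM q t)) F
    congr 1
    ext1 k
    simp only [AlgHom.comp_apply, rename_X, sig_pp, map_add, map_sub, map_pow, map_mul, Xi_C, Xi_y]
    simp [Xi, MM]
    ring
  have e2 : ∀ a G, Pr t a G = pair a (Xi t G) := fun _ _ => rfl
  have e3 := map_pair (rename Sum.inl : SymF K →ₐ[K] VV K).toRingHom (fun m => eL (m + 1))
    (sh (MM q t) F)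
  rw [ZZ_apply, PP_apply, Ar_zero, dm_apply, e2, e, D1, Op_apply, map_neg]
  simp only [AlgHom.toRingHom_eq_coe, RingHom.coe_coe] at e3
  simp [e3, eps, map_newton]

theorem sum_snoc {M : Type} [AddCommMonoid M] {n : ℕ} (f : List Bool → M) :
    ∑ v : Fin (n + 1) → Bool, f (rv v) =
      ∑ v : Fin n → Bool, f (true :: rv v) + ∑ v : Fin n → Bool, f (false :: rv v) := by
  rw [← (Fin.snocEquiv fun _ => Bool).sum_comp, Fintype.sum_prod_type, Fintype.sum_bool]
  simp [rv_succ, Fin.snocEquiv]

variable [CharZero K]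

theorem IsMacdonald.ext {q t : K} (h : Gen q t) {H : YoungDiagram → SymF K}
    (hH : IsMacdonald q t H) {f g : SymF K →ₗ[K] SymF K} (e : ∀ m, f (H m) = g (H m)) : f = g := by
  refine LinearMap.ext_on_range (v := H) (eq_top_iff.2 fun F _ => ?_) e
  exact (iSup_le fun n => (hH.span h n).trans (span_mono (Set.image_subset_range _ _)))
    (iSup_Hp F)

theorem IsMacdonald.step {q t : K} (h : Gen q t) {H : YoungDiagram → SymF K}
    (hH : IsMacdonald q t H) {A B C : SymF K →ₗ[K] SymF K} {a b c : YoungDiagram → K}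
    (hA : ∀ m, A (H m) = a m • H m) (hB : ∀ m, B (H m) = b m • H m)
    (hC : ∀ m, C (H m) = c m • H m)
    (e : ∀ l m w, cellWeights q t l = w ::ₘ cellWeights q t m → a l = b m + w * c m) (F : SymF K) :
    A (X 0 * F) = X 0 * B F - D1 q t (C F) := by
  refine LinearMap.congr_fun (hH.ext h (f := A.comp (LinearMap.mulLeft K (X 0)))
    (g := (LinearMap.mulLeft K (X 0)).comp B - (D1 q t).comp C) fun m => ?_) F
  obtain ⟨d, w, h1, h2, h3⟩ := hH.pieri h m
  simp only [LinearMap.comp_apply, LinearMap.mulLeft_apply, LinearMap.sub_apply, hB, hC, map_smul]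
  rw [sub_eq_add_neg, ← smul_neg, h3, h2, eigen_coeff hA]
  simp only [Finsupp.linearCombination_apply, Finsupp.sum, smul_sum, smul_smul, ← sum_add_distrib,
    ← add_smul]
  refine sum_congr rfl fun l hl => ?_
  rw [e l m _ (h1 l hl)]
  congr 1
  ring

omit [CharZero K] in
theorem Lt_nil (q t : K) : Lt q t [] = 1 := rfl

theorem delta_pow {q t : K} (h : Gen q t) {H : YoungDiagram → SymF K} (hH : IsMacdonald q t H)
    {D : ℕ → SymF K →ₗ[K] SymF K} (hD : ∀ k m, D k (H m) = (cellWeights q t m).esymm k • H m)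
    (n : ℕ) : (∀ k, n < k → D k (X 0 ^ n) = 0) ∧
      rename Sum.inl (D n (X 0 ^ n)) =
        (∑ v : Fin n → Bool, if (rv v).count true = 0 then Lt q t (rv v) else 0) ∧
      rename Sum.inl (D n (X 0 ^ (n + 1))) =
        ∑ v : Fin (n + 1) → Bool, if (rv v).count true = 1 then Lt q t (rv v) else 0 := by
  have st : ∀ k F, D (k + 1) (X 0 * F) = X 0 * D (k + 1) F - D1 q t (D k F) := fun k =>
    hH.step h (hD _) (hD _) (hD _) fun l m w e => by rw [e, esymm_cons]
  have d0 : D 0 = LinearMap.id := hH.ext h fun m => by simp [hD, esymm_zero']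
  have s0 : ∀ n, ∑ v : Fin (n + 1) → Bool, (if (rv v).count true = 0 then Lt q t (rv v) else 0) =
      ZZ q t 0 (∑ v : Fin n → Bool, if (rv v).count true = 0 then Lt q t (rv v) else 0) := by
    intro n
    rw [sum_snoc fun r => if r.count true = 0 then Lt q t r else 0, map_sum]
    simp [Lt_false q h.2.1, apply_ite (ZZ q t 0)]
  have s1 : ∀ n, ∑ v : Fin (n + 1) → Bool, (if (rv v).count true = 1 then Lt q t (rv v) else 0) =
      pp 0 * (∑ v : Fin n → Bool, if (rv v).count true = 0 then Lt q t (rv v) else 0) +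
      ZZ q t 0 (∑ v : Fin n → Bool, if (rv v).count true = 1 then Lt q t (rv v) else 0) := by
    intro n
    rw [sum_snoc fun r => if r.count true = 1 then Lt q t r else 0, map_sum, mul_sum]
    congr 1
    · refine sum_congr rfl fun v _ => ?_
      simp only [List.count_cons_self, Nat.add_eq_right]
      split_ifs with hv
      · exact Lt_true q t hv
      · simp
    · simp [Lt_false q h.2.1, apply_ite (ZZ q t 0)]
  induction n with
  | zero =>
    refine ⟨fun k hk => ?_, by simp [d0, rv, Lt_nil], by rw [s1]; simp [d0, rv, Lt_nil]⟩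
    have : span K (H '' {l | l.card = 0}) ≤ LinearMap.ker (D k) := span_le.2 (by
      rintro _ ⟨m, hm, rfl⟩
      simp [hD, esymm_big (show (cellWeights q t m).card < k by
        rw [card_cellWeights, show m.card = 0 from hm]; exact hk)])
    simpa using this (hH.span h 0 one_mem_Hp)
  | succ n ih =>
    have e : rename Sum.inl (D (n + 1) (X 0 ^ (n + 1))) =
        ∑ v : Fin (n + 1) → Bool, if (rv v).count true = 0 then Lt q t (rv v) else 0 := by
      rw [pow_succ', st, ih.1 _ (by omega), mul_zero, zero_sub, rename_D1, ih.2.1, s0]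
    refine ⟨fun k hk => ?_, e, ?_⟩
    · obtain ⟨k, rfl⟩ : ∃ k', k = k' + 1 := ⟨k - 1, by omega⟩
      rw [pow_succ', st, ih.1 _ (by omega), ih.1 _ (by omega)]
      simp
    · rw [pow_succ', st, sub_eq_add_neg, map_add, map_mul, rename_D1, e, ih.2.2, s1 (n + 1),
        rename_X]

omit [CharZero K] in
theorem exists_rename_Lt (q t : K) (r : List Bool) :
    ∃ F : SymF K, rename Sum.inl F = Lt q t r := by
  classical
  have h1 : ∀ (k : ℕ) (G : VV K), (∀ j, k ≤ j → TT t j G = G) →
      ∀ j, TT t j ((dm t)^[k] G) = (dm t)^[k] G := by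
    intro k
    induction k with
    | zero => exact fun G h j => h j (Nat.zero_le _)
    | succ k ih =>
      intro G h
      rw [Function.iterate_succ_apply]
      exact ih _ fun j hj => by rw [← dm_TT, h _ (by omega)]
  have h2 : ∀ j, sw j (Lt q t r) = Lt q t r := fun j => sw_of_TT (h1 _ _ (by
    simpa using OO_inv q t 0 r fun j _ => TT_one t j) j)
  generalize Lt q t r = G at h2
  have h3 : ∀ j, Sum.inr j ∈ G.vars → Sum.inr (j + 1) ∈ G.vars := by
    intro j hj
    rw [← h2 j] at hj
    obtain ⟨s, hs, e⟩ := mem_image.1 (vars_rename _ _ hj)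
    rwa [Equiv.swap_apply_eq_iff.1 e, Equiv.swap_apply_left] at hs
  refine exists_rename_eq_of_vars_subset_range G _ Sum.inl_injective ?_
  rintro (k | j) hj
  · exact ⟨k, rfl⟩
  · exfalso
    have h4 : ∀ i, Sum.inr (j + i) ∈ G.vars := fun i => by
      induction i with
      | zero => exact hj
      | succ i ih => exact h3 _ ih
    exact Set.infinite_of_injective_forall_mem (f := fun i => (Sum.inr (j + i) : ℕ ⊕ ℕ))
      (fun a b e => by simpa using e) h4 G.vars.finite_toSet

theorem gen_par : Gen (par 0) (par 1) := by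
  have inj := IsFractionRing.injective (MvPolynomial (Fin 2) ℚ) QT
  have h0 : ∀ i, par i ≠ 0 := fun i e => X_ne_zero i (inj (e.trans (map_zero _).symm))
  refine ⟨h0 0, h0 1, linearIndependent_iff'.2 fun s g hg e he => ?_⟩
  obtain ⟨L, hL⟩ : ∃ L : ℕ, ∀ e ∈ s, 0 ≤ e.1 + L ∧ 0 ≤ e.2 + L := by
    refine ⟨s.sup fun e => e.1.natAbs + e.2.natAbs, fun e he => ?_⟩
    have := le_sup (f := fun e : ℤ × ℤ => e.1.natAbs + e.2.natAbs) he
    omega
  let ex : ℤ × ℤ → Fin 2 →₀ ℕ := fun e =>
    Finsupp.single 0 (e.1 + L).toNat + Finsupp.single 1 (e.2 + L).toNat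
  have h1 : ∑ e ∈ s, monomial (ex e) (g e : ℚ) = 0 := by
    apply inj
    rw [map_zero, map_sum, ← zero_mul (par 0 ^ L * par 1 ^ L), ← hg, sum_mul]
    refine sum_congr rfl fun e he => ?_
    have : monomial (ex e) (g e : ℚ) = (g e : MvPolynomial (Fin 2) ℚ) *
        (X 0 ^ (e.1 + L).toNat * X 1 ^ (e.2 + L).toNat) := by
      rw [X_pow_eq_monomial, X_pow_eq_monomial, monomial_mul, ← map_intCast (C : ℚ →+* MvPolynomial (Fin 2) ℚ),
        C_mul_monomial]
      simp [ex]
    rw [this, map_mul, map_mul, map_pow, map_pow, map_intCast, zsmul_eq_mul, ← zpow_natCast,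
      ← zpow_natCast, Int.toNat_of_nonneg (hL e he).1, Int.toNat_of_nonneg (hL e he).2]
    change _ * (par 0 ^ _ * par 1 ^ _) = _
    rw [zpow_add₀ (h0 0), zpow_add₀ (h0 1), zpow_natCast, zpow_natCast]
    ring
  have h2 := congrArg (coeff (ex e)) h1
  rw [coeff_sum, sum_eq_single e (fun d hd hne => ?_) (fun h => absurd he h)] at h2
  · simpa using h2
  · rw [coeff_monomial, if_neg]
    intro hx
    have a := congrArg (fun f => f 0) hx
    have b := congrArg (fun f => f 1) hx
    simp [ex] at a b
    have := hL d hd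
    have := hL e he
    exact hne (Prod.ext (by omega) (by omega))

theorem par_ne_one : par 0 ≠ 1 := fun e => gen_par.ne_one (by rw [e, sub_self])

theorem delta_main {H : YoungDiagram → SymF QT} (hH : IsMacdonald (par 0) (par 1) H) (n : ℕ)
    {D : SymF QT →ₗ[QT] SymF QT}
    (hD : ∀ m, D (H m) = (cellWeights (par 0) (par 1) m).esymm n • H m) (N : ℕ) :
    Agree N (D (X 0 ^ (n + 1)))
      (∑ v ∈ univ.filter fun v : Fin (n + 1) → Bool => ones v = 1, linkTilde N v) := by
  choose D' hD' using fun k => exists_diag (hH.indep gen_par)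
    fun m => (cellWeights (par 0) (par 1) m).esymm k
  have e : D = D' n := hH.ext gen_par fun m => by rw [hD, hD']
  refine agree_of_rel ((Rel.sum _ fun v _ => rel_link par_ne_one gen_par.2.1 v).congr rfl
    fun x => ?_)
  rw [e, (delta_pow gen_par hH hD' n).2.2, ← map_sum, sum_filter]
  simp only [count_true_rv]

theorem nabla_main {H : YoungDiagram → SymF QT} (hH : IsMacdonald (par 0) (par 1) H)
    {D : SymF QT →ₗ[QT] SymF QT}
    (hD : ∀ m, D (H m) = (cellWeights (par 0) (par 1) m).esymm m.card • H m) :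
    Function.Bijective D ∧ ∃ L : ∀ n, (Fin n → Bool) → SymF QT,
      (∀ n v N, Agree N (L n v) (linkTilde N v)) ∧
      ∀ n v F, D F = L n v → D (X 0 * F) = L (n + 1) (Fin.snoc v false) := by
  have h0 : ∀ m, (cellWeights (par 0) (par 1) m).esymm m.card ≠ 0 := by
    intro m
    rw [← card_cellWeights (par 0) (par 1), esymm_card]
    refine Multiset.prod_ne_zero fun h => ?_
    obtain ⟨c, _, hc⟩ := Multiset.mem_map.1 h
    exact mul_ne_zero (pow_ne_zero _ gen_par.1) (pow_ne_zero _ gen_par.2.1) hc
  obtain ⟨E, hE⟩ := exists_diag (hH.indep gen_par)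
    fun m => ((cellWeights (par 0) (par 1) m).esymm m.card)⁻¹
  have e1 : E.comp D = LinearMap.id := hH.ext gen_par fun m => by
    simp [hD, hE, smul_smul, mul_inv_cancel₀ (h0 m)]
  have e2 : D.comp E = LinearMap.id := hH.ext gen_par fun m => by
    simp [hD, hE, smul_smul, inv_mul_cancel₀ (h0 m)]
  choose L hL using exists_rename_Lt (par 0) (par 1)
  refine ⟨Function.bijective_iff_has_inverse.2 ⟨E, LinearMap.congr_fun e1, LinearMap.congr_fun e2⟩,
    fun n v => L (rv v), fun n v N => agree_of_rel ?_, fun n v F hF => ?_⟩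
  · rw [hL]
    exact rel_link par_ne_one gen_par.2.1 v
  · apply rename_injective _ (Sum.inl_injective (β := ℕ))
    rw [hH.step gen_par hD (B := 0) (b := 0) (by simp) hD (fun l m w e => by
      have := congrArg Multiset.card e
      rw [Multiset.card_cons, card_cellWeights, card_cellWeights] at this
      rw [this, e, esymm_cons, esymm_big (by rw [card_cellWeights]; omega)]
      rfl), hF, hL, rv_succ]
    simp only [LinearMap.zero_apply, mul_zero, zero_sub, Fin.snoc_last, Fin.snoc_castSucc]
    rw [rename_D1, hL, Lt_false _ gen_par.2.1]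

end Pool.Agent.Lib.MP_ef09c4_co
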