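import Pool.Agent.Lib.MP_ef09c4_co.Eval
import Pool.Agent.Lib.MP_ef09c4_co.Gf

/-!
The generating functions agree with the operator expressions.
-/

set_option autoImplicit false

namespace Pool.Agent.Lib.MP_ef09c4_co

open MvPolynomial

variable {K : Type} [Field K] {N : ℕ}

/-- A power series and a function come from one integer polynomial. -/
def Rel (q t : K) (S : MvPowerSeries (Fin N ⊕ Fin 2) ℤ) (g : (Fin N → K) → K) : Prop :=
  ∃ P : MvPolynomial (Fin N ⊕ Fin 2) ℤ, (P : MvPowerSeries (Fin N ⊕ Fin 2) ℤ) = S ∧
    ∀ x, aeval (Sum.elim x ![q, t]) P = g x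

theorem Rel.add {q t : K} {S S' : MvPowerSeries (Fin N ⊕ Fin 2) ℤ} {g g' : (Fin N → K) → K}
    (h : Rel q t S g) (h' : Rel q t S' g') : Rel q t (S + S') fun x => g x + g' x := by
  obtain ⟨P, h1, h2⟩ := h
  obtain ⟨P', h1', h2'⟩ := h'
  exact ⟨P + P', by rw [coe_add, h1, h1'], fun x => by rw [map_add, h2, h2']⟩

theorem Rel.mul {q t : K} {S S' : MvPowerSeries (Fin N ⊕ Fin 2) ℤ} {g g' : (Fin N → K) → K}
    (h : Rel q t S g) (h' : Rel q t S' g') : Rel q t (S * S') fun x => g x * g' x := by
  obtain ⟨P, h1, h2⟩ := h
  obtain ⟨P', h1', h2'⟩ := h'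
  exact ⟨P * P', by rw [coe_mul, h1, h1'], fun x => by rw [map_mul, h2, h2']⟩

theorem Rel.sum {q t : K} {ι : Type} (s : Finset ι) {S : ι → MvPowerSeries (Fin N ⊕ Fin 2) ℤ}
    {g : ι → (Fin N → K) → K} (h : ∀ i ∈ s, Rel q t (S i) (g i)) :
    Rel q t (∑ i ∈ s, S i) fun x => ∑ i ∈ s, g i x := by
  classical
  induction s using Finset.induction_on with
  | empty => exact ⟨0, by simp, by simp⟩
  | insert a s ha ih =>
    simp only [Finset.sum_insert ha]
    exact (h a (Finset.mem_insert_self _ _)).add (ih fun i hi => h i (Finset.mem_insert_of_mem hi))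

theorem Rel.congr {q t : K} {S S' : MvPowerSeries (Fin N ⊕ Fin 2) ℤ} {g g' : (Fin N → K) → K}
    (h : Rel q t S g) (h1 : S' = S) (h2 : ∀ x, g' x = g x) : Rel q t S' g' := by
  rw [h1, funext h2]; exact h

theorem rel_q (q t : K) : Rel (N := N) q t (MvPowerSeries.X (Sum.inr 0)) fun _ => q :=
  ⟨X (Sum.inr 0), by simp, by simp⟩

theorem rel_one_sub_q (q t : K) :
    Rel (N := N) q t (1 - MvPowerSeries.X (Sum.inr 0)) fun _ => 1 - q :=
  ⟨1 - X (Sum.inr 0), by
    rw [← coeToMvPowerSeries.ringHom_apply, map_sub, map_one, coeToMvPowerSeries.ringHom_apply,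
      coe_X], by simp⟩

theorem rel_xt (q t : K) (b : Fin N) (c : ℕ) :
    Rel q t (MvPowerSeries.X (Sum.inl b) * MvPowerSeries.X (Sum.inr 1) ^ c) fun x => x b * t ^ c :=
  ⟨X (Sum.inl b) * X (Sum.inr 1) ^ c, by simp, by simp⟩

/-- The monomial and inversion weight of a list of labels. -/
def wtx (t : K) (x : Fin N → K) : List (Fin N) → K
  | [] => 1
  | b :: l => x b * t ^ l.countP (b < ·) * wtx t x l

theorem wtx_append (t : K) (x : Fin N → K) (l : List (Fin N)) (b : Fin N) :
    wtx t x (l ++ [b]) = wtx t x l * (x b * t ^ l.countP (· < b)) := by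
  induction l with
  | nil => simp [wtx]
  | cons c l ih =>
    simp only [List.cons_append, wtx, ih, List.countP_append, List.countP_cons, List.countP_nil,
      zero_add, pow_add]
    ring

/-- Extension of the values by zero. -/
def xe (x : Fin N → K) (n : ℕ) : K := if h : n < N then x ⟨n, h⟩ else 0

/-- Weighted evaluation. -/
noncomputable def EV (t : K) (x : Fin N → K) (l : List (Fin N)) : VV K →ₗ[K] K :=
  wtx t x l • evl t (xe x) N 0 (l.map Fin.val).reverse

theorem EV_apply (t : K) (x : Fin N → K) (l : List (Fin N)) (G : VV K) :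
    EV t x l G = wtx t x l * evl t (xe x) N 0 (l.map Fin.val).reverse G := rfl

theorem EV_nil (t : K) (x : Fin N → K) (F : SymF K) :
    EV t x [] (rename Sum.inl F) = eval x (realize N F) := by
  rw [EV_apply, List.map_nil, List.reverse_nil, evl_nil, wtx, one_mul, aeval_rename, realize,
    ← coe_aeval_eq_eval]
  change _ = ((aeval x).comp (aeval _)) F
  congr 1
  ext k
  simp [psum, Finset.sum_range, xe]

variable [CharZero K]

theorem EV_dp {t : K} (ht : t ≠ 0) (x : Fin N → K) (b : Fin N) (l : List (Fin N)) (G : VV K) :
    EV t x (b :: l) (dp t l.length G) = x b * t ^ l.countP (b < ·) * EV t x l G := by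
  have := evl_dp ht (xe x) N 0 (l.map Fin.val).reverse (b := b) (by omega) (by omega) G
  rw [List.length_reverse, List.length_map] at this
  rw [EV_apply, EV_apply, List.map_cons, List.reverse_cons, this, wtx, mul_assoc]

theorem EV_dm {t : K} (ht : t ≠ 0) (x : Fin N → K) (l : List (Fin N)) (G : VV K) :
    EV t x l (dm t G) = ∑ b, EV t x (l ++ [b]) G := by
  rw [EV_apply, evl_dm ht _ _ _ _ (by simp), Finset.sum_range, Finset.mul_sum]
  refine Finset.sum_congr rfl fun b _ => ?_
  rw [EV_apply, wtx_append]
  simp [xe, mul_assoc, Function.comp_def]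

omit [CharZero K] in
theorem count_isSome (u : List (Option (Fin N))) :
    (u.map Option.isSome).count true = (u.filterMap id).length := by
  induction u with
  | nil => rfl
  | cons o u ih => rcases o with _ | b <;> simp_all

/-- Normalised generating function of a state. -/
noncomputable def AA (u : List (Option (Fin N))) : MvPowerSeries (Fin N ⊕ Fin 2) ℤ :=
  (1 - MvPowerSeries.X (Sum.inr 0)) ^ u.count none * FF (u.map pat)

/-- Operator expression of a state. -/
noncomputable def gg (q t : K) (u : List (Option (Fin N))) (x : Fin N → K) : K :=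
  EV t x (u.filterMap id) (OO q t 0 (u.map Option.isSome) 1)

theorem AA_none (u : List (Option (Fin N))) : AA (none :: u) =
    (1 - MvPowerSeries.X (Sum.inr 0)) * ∑ b, AA (u ++ [some b]) +
      MvPowerSeries.X (Sum.inr 0) * AA (u ++ [none]) := by
  simp only [AA, FF_none, List.count_cons_self, List.count_append, List.count_nil, zero_add,
    List.count_cons_of_ne (Option.some_ne_none _), add_zero, ← Finset.mul_sum]
  ring

theorem gg_none (q : K) {t : K} (ht : t ≠ 0) (u : List (Option (Fin N))) (x : Fin N → K) :
    gg q t (none :: u) x = (1 - q) * ∑ b, gg q t (u ++ [some b]) x + q * gg q t (u ++ [none]) x := by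
  simp only [gg, List.map_cons, Option.isSome_none, OO_rec q ht, map_add, map_smul, EV_dm ht]
  simp

theorem rel_some (q : K) {t : K} (ht : t ≠ 0) (b : Fin N) {u : List (Option (Fin N))}
    (h : Rel q t (AA u) (gg q t u)) : Rel q t (AA (some b :: u)) (gg q t (some b :: u)) := by
  refine ((rel_xt q t b ((u.filterMap id).countP (b < ·))).mul h).congr ?_ fun x => ?_
  · rw [AA, AA, FF_some, List.count_cons_of_ne (Option.some_ne_none _)]
    ring
  · rw [gg, gg, List.map_cons, Option.isSome_some, OO_true, zero_add, count_isSome, ← EV_dp ht]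
    rfl

omit [CharZero K] in
theorem exists_shape (u : List (Option (Fin N))) : u = List.replicate u.length none ∨
    ∃ r b u', u = List.replicate r none ++ some b :: u' := by
  induction u with
  | nil => exact Or.inl rfl
  | cons o u ih =>
    rcases o with _ | b
    · rcases ih with h | ⟨r, b, u', h⟩
      · exact Or.inl (by rw [List.length_cons, List.replicate_succ, ← h])
      · exact Or.inr ⟨r + 1, b, u', by rw [h]; rfl⟩
    · exact Or.inr ⟨0, b, u, rfl⟩

theorem rel_main {q t : K} (hq : q ≠ 1) (ht : t ≠ 0) (u : List (Option (Fin N))) :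
    Rel q t (AA u) (gg q t u) := by
  induction hn : u.length using Nat.strong_induction_on generalizing u with
  | _ n ihn =>
  induction hz : u.count none using Nat.strong_induction_on generalizing u with
  | _ z ihz =>
  have hs : ∀ u' : List (Option (Fin N)), u'.length + 1 = n → u'.count none + 1 = z →
      Rel q t (∑ b, AA (u' ++ [some b])) fun x => ∑ b, gg q t (u' ++ [some b]) x :=
    fun u' h1 h2 => Rel.sum _ fun b _ => ihz (u'.count none) (by omega) _ (by simp; omega) (by simp)
  rcases exists_shape u with h | ⟨r, b, u', h⟩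
  · rcases n with _ | n
    · obtain rfl : u = [] := List.length_eq_zero_iff.1 hn
      refine ⟨1, by simp [AA, FF_nil], fun x => ?_⟩
      simp [gg, OO_nil, EV_apply, wtx, evl_nil]
    · rw [hn] at h
      subst h
      have e : List.replicate n (none : Option (Fin N)) ++ [none] = none :: List.replicate n none := by
        rw [← List.replicate_succ', List.replicate_succ]
      refine (hs (List.replicate n none) (by simp) (by simpa using hz)).congr ?_ fun x => ?_
      · have h1 := AA_none (List.replicate n (none : Option (Fin N)))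
        have hne : (1 - MvPowerSeries.X (Sum.inr 0) : MvPowerSeries (Fin N ⊕ Fin 2) ℤ) ≠ 0 := by
          intro h0
          simpa using congrArg MvPowerSeries.constantCoeff h0
        rw [e] at h1
        apply mul_left_cancel₀ hne
        rw [List.replicate_succ]
        linear_combination h1
      · have h1 := gg_none q ht (List.replicate n (none : Option (Fin N))) x
        rw [e] at h1
        apply mul_left_cancel₀ (sub_ne_zero.2 hq.symm)
        rw [List.replicate_succ]
        linear_combination h1
  · subst h
    induction r generalizing u' with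
    | zero => exact rel_some q ht b (ihn _ (by simp at hn; omega) u' rfl)
    | succ r ih =>
      have h1 := ih (u' ++ [none]) (by simp at hn ⊢; omega) (by simp at hz ⊢; omega)
      have h2 := hs (List.replicate r none ++ some b :: u') (by simp at hn ⊢; omega)
        (by simp at hz ⊢; omega)
      refine (((rel_one_sub_q q t).mul h2).add ((rel_q q t).mul h1)).congr ?_ fun x => ?_
      · rw [List.replicate_succ, List.cons_append, AA_none]; simp
      · rw [List.replicate_succ, List.cons_append, gg_none q ht]; simp

/-- The pattern of a binary letter. -/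
def patB (b : Bool) : Set (ℕ × Fin N) := {x | x.1 = 0 ↔ b = true}

theorem rel_word {q t : K} (hq : q ≠ 1) (ht : t ≠ 0) (r : List Bool) (u : List (Option (Fin N))) :
    Rel q t ((1 - MvPowerSeries.X (Sum.inr 0)) ^ (u.count none + r.count false) *
        FF (u.map pat ++ r.map patB))
      fun x => EV t x (u.filterMap id)
        ((dm t)^[r.count true] (OO q t 0 (u.map Option.isSome ++ r) 1)) := by
  induction r generalizing u with
  | nil => exact (rel_main hq ht u).congr (by simp [AA]) fun x => by simp [gg]
  | cons b r ih =>
    cases b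
    · have e : (patB false : Set (ℕ × Fin N)) = pat none := by ext; simp [patB, pat]
      refine (ih (u ++ [none])).congr ?_ fun x => by simp
      simp [e, add_assoc, add_comm 1]
    · refine (Rel.sum Finset.univ fun b _ => ih (u ++ [some b])).congr ?_ fun x => ?_
      · rw [List.map_cons, FF_split _ _ (r := fun b => pat (some b)) (fun x => by
          simp [patB, pat, Prod.ext_iff]) (fun i j x h1 h2 => by
          obtain rfl : x = (0, i) := h1
          simpa [pat] using h2), Finset.mul_sum]
        simp
      · rw [List.count_cons_self, Function.iterate_succ_apply', EV_dm ht]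
        simp

/-- The operator expression of the normalised link function of a word given last letter first. -/
noncomputable def Lt (q t : K) (r : List Bool) : VV K := (dm t)^[r.count true] (OO q t 0 r 1)

theorem rel_Lt {q t : K} (hq : q ≠ 1) (ht : t ≠ 0) (r : List Bool) :
    Rel (N := N) q t ((1 - MvPowerSeries.X (Sum.inr 0)) ^ r.count false * FF (r.map patB))
      fun x => EV t x [] (Lt q t r) := by
  simpa [Lt] using rel_word (N := N) hq ht r []

theorem Lt_false (q : K) {t : K} (ht : t ≠ 0) (r : List Bool) :
    Lt q t (false :: r) = ZZ q t 0 (Lt q t r) := by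
  have : ∀ k G, (dm t)^[k] (ZZ q t k G) = ZZ q t 0 ((dm t)^[k] G) := by
    intro k
    induction k with
    | zero => intro G; rfl
    | succ k ih => intro G; rw [Function.iterate_succ_apply, ← ZZ_dm q ht, ih]; rfl
  rw [Lt, Lt, OO_false, zero_add, ← this]
  simp

theorem Lt_true (q t : K) {r : List Bool} (h : r.count true = 0) :
    Lt q t (true :: r) = pp 0 * Lt q t r := by
  rw [Lt, Lt, OO_true, List.count_cons_self, h]
  exact dm_tau t _

end Pool.Agent.Lib.MP_ef09c4_co
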