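import Pool.Agent.Lib.MP_ef09c4_co.Hecke

/-!
The raising and lowering operators of the Dyck path algebra and their basic relations.
-/

set_option autoImplicit false

namespace Pool.Agent.Lib.MP_ef09c4_co

open MvPolynomial

variable {K : Type} [Field K]

/-- Adding a new variable in front. -/
noncomputable def tau (t : K) : VV K →ₐ[K] VV K :=
  aeval (Sum.elim (fun k => pp k + ((C t * yy 0) ^ (k + 1) - yy 0 ^ (k + 1))) fun i => yy (i + 1))

/-- Adding the alphabet `a - b`. -/
noncomputable def shf (a b : VV K) : VV K →ₐ[K] VV K :=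
  aeval (Sum.elim (fun k => pp k + (a ^ (k + 1) - b ^ (k + 1))) yy)

@[simp] theorem tau_pp (t : K) (k : ℕ) :
    tau t (pp k) = pp k + ((C t * yy 0) ^ (k + 1) - yy 0 ^ (k + 1)) := by simp [tau]
@[simp] theorem tau_yy (t : K) (i : ℕ) : tau t (yy i) = yy (i + 1) := by simp [tau]
@[simp] theorem tau_C (t c : K) : tau t (C c) = C c := algHom_C _ _
@[simp] theorem shf_pp (a b : VV K) (k : ℕ) :
    shf a b (pp k) = pp k + (a ^ (k + 1) - b ^ (k + 1)) := by simp [shf]
@[simp] theorem shf_yy (a b : VV K) (i : ℕ) : shf a b (yy i) = yy i := by simp [shf]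
@[simp] theorem shf_C (a b : VV K) (c : K) : shf a b (C c) = C c := algHom_C _ _

/-- Expansion in the first variable. -/
noncomputable def Xi (t : K) : VV K →ₐ[K] Polynomial (VV K) :=
  aeval (Sum.elim (fun k => Polynomial.C (pp k) -
      ((Polynomial.C (C t) * Polynomial.X) ^ (k + 1) - Polynomial.X ^ (k + 1)))
    fun i => Nat.casesOn i Polynomial.X fun j => Polynomial.C (yy j))

theorem Xi_C (t c : K) : Xi t (C c) = Polynomial.C (C c) := by
  rw [algHom_C]; rfl

theorem Xi_tau (t : K) (G : VV K) : Xi t (tau t G) = Polynomial.C G := by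
  refine vv_ext (f := (Xi t).comp (tau t)) (g := Polynomial.CAlgHom) (fun k => ?_) (fun i => ?_) G
  · simp only [AlgHom.comp_apply, tau_pp, map_add, map_sub, map_pow, map_mul, Xi_C]
    simp [Xi]
  · simp [Xi]

theorem Xi_y (t : K) : Xi t (yy 0) = Polynomial.X := by simp [Xi]

theorem eval_Xi (t : K) (G : VV K) :
    Polynomial.eval₂AlgHom (tau t) (yy 0) (fun _ => Commute.all _ _) (Xi t G) = G := by
  refine vv_ext (f := (Polynomial.eval₂AlgHom (tau t) (yy 0)
    (fun _ => Commute.all _ _)).comp (Xi t)) (g := AlgHom.id K _) (fun k => ?_) (fun i => ?_) G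
  · simp [Xi, Polynomial.eval₂_pow]
  · rcases i with _ | i <;> simp [Xi]

theorem tau_induction (t : K) {P : VV K → Prop} (hadd : ∀ a b, P a → P b → P (a + b))
    (hb : ∀ g m, P (tau t g * yy 0 ^ m)) (G : VV K) : P G := by
  rw [← eval_Xi t G]
  induction Xi t G using Polynomial.induction_on' with
  | add p q hp hq => rw [map_add]; exact hadd _ _ hp hq
  | monomial n a => simpa using hb a n

/-- Pairing of the first variable with a sequence. -/
noncomputable def Pr (t : K) (a : ℕ → VV K) : VV K →ₗ[K] VV K :=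
  (Polynomial.lsum fun m => LinearMap.mulLeft K (a m)).comp (Xi t).toLinearMap

theorem Pr_basis (t : K) (a : ℕ → VV K) (g : VV K) (m : ℕ) :
    Pr t a (tau t g * yy 0 ^ m) = a m * g := by
  simp [Pr, Xi_tau, Xi_y, Polynomial.C_mul_X_pow_eq_monomial]

theorem Pr_tau (t : K) (a : ℕ → VV K) (g : VV K) : Pr t a (tau t g) = a 0 * g := by
  simpa using Pr_basis t a g 0

theorem Pr_tau_mul (t : K) (a : ℕ → VV K) (b G : VV K) :
    Pr t a (tau t b * G) = b * Pr t a G := by
  induction G using tau_induction t with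
  | hadd x y hx hy => simp only [mul_add, map_add, hx, hy]
  | hb g m => rw [← mul_assoc, ← map_mul, Pr_basis, Pr_basis]; ring

theorem Pr_yy (t : K) (a : ℕ → VV K) (i : ℕ) (G : VV K) :
    Pr t a (yy (i + 1) * G) = yy i * Pr t a G := by
  rw [← tau_yy t, Pr_tau_mul]

theorem Pr_y0 (t : K) (a : ℕ → VV K) (G : VV K) :
    Pr t a (yy 0 * G) = Pr t (fun m => a (m + 1)) G := by
  induction G using tau_induction t with
  | hadd x y hx hy => simp only [mul_add, map_add, hx, hy]
  | hb g m => rw [mul_left_comm, ← pow_succ', Pr_basis, Pr_basis]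

theorem Pr_seq (t : K) {a b c : ℕ → VV K} {u v : VV K} (h : ∀ m, a m = u * b m + v * c m)
    (G : VV K) : Pr t a G = u * Pr t b G + v * Pr t c G := by
  induction G using tau_induction t with
  | hadd x y hx hy => simp only [map_add, hx, hy]; ring
  | hb g m => rw [Pr_basis, Pr_basis, Pr_basis, h]; ring

theorem hom_Pr (t : K) (a : ℕ → VV K) (f f' : VV K →ₐ[K] VV K)
    (h1 : ∀ g, f' (tau t g) = tau t (f g)) (h2 : f' (yy 0) = yy 0) (G : VV K) :
    f (Pr t a G) = Pr t (fun m => f (a m)) (f' G) := by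
  induction G using tau_induction t with
  | hadd x y hx hy => simp only [map_add, hx, hy]
  | hb g m => rw [Pr_basis, map_mul, map_mul, map_pow, h1, h2, Pr_basis]

theorem sw_tau (t : K) (i : ℕ) (G : VV K) : sw (i + 1) (tau t G) = tau t (sw i G) := by
  refine vv_ext (f := (sw (i + 1)).comp (tau t)) (g := (tau t).comp (sw i)) (fun k => ?_)
    (fun j => ?_) G
  · simp [sw_yy_ne (show 0 ≠ i + 1 by omega) (show 0 ≠ i + 1 + 1 by omega)]
  · simp only [AlgHom.comp_apply, sw_yy, tau_yy]
    refine congrArg yy ?_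
    split_ifs <;> omega

theorem sw_tau_tau (t : K) (G : VV K) : sw 0 (tau t (tau t G)) = tau t (tau t G) := by
  refine vv_ext (f := (sw 0).comp ((tau t).comp (tau t))) (g := (tau t).comp (tau t))
    (fun k => ?_) (fun j => ?_) G
  · have : sw 0 (yy 1 : VV K) = yy 0 := sw_yy_succ 0
    simp [this]; ring
  · simp only [AlgHom.comp_apply, tau_yy]
    exact sw_yy_ne (by omega) (by omega)

theorem tau_TT (t : K) (i : ℕ) (G : VV K) : tau t (TT t i G) = TT t (i + 1) (tau t G) :=
  TT_comm_hom t (tau t) (tau_yy t i) (tau_yy t (i + 1)) (fun G => (sw_tau t i G).symm) G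

theorem sw_Pr (t : K) (a : ℕ → VV K) (i : ℕ) (G : VV K) :
    sw i (Pr t a G) = Pr t (fun m => sw i (a m)) (sw (i + 1) G) :=
  hom_Pr t a (sw i) (sw (i + 1)) (sw_tau t i) (sw_yy_ne (by omega) (by omega)) G

theorem Pr_TT (t : K) {a : ℕ → VV K} {i : ℕ} (h : ∀ m, sw i (a m) = a m) (G : VV K) :
    Pr t a (TT t (i + 1) G) = TT t i (Pr t a G) :=
  TT_comm t (Pr t a) (Pr_yy t a i) (Pr_yy t a (i + 1)) (fun G => by
    rw [sw_Pr]; simp only [h]) G

theorem tau_Pr (t : K) (a : ℕ → VV K) (G : VV K) :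
    tau t (Pr t a G) = Pr t (fun m => tau t (a m)) (sw 0 (tau t G)) :=
  hom_Pr t a (tau t) ((sw 0).comp (tau t)) (sw_tau_tau t) (by simp) G

theorem Pr_T0 (t : K) {a b : ℕ → VV K}
    (h : ∀ m, a (m + 1) - C t * yy 0 * a m = b (m + 1) - yy 0 * b m) (G : VV K) :
    Pr t a (TT t 0 G) = Pr t a G + (Pr t b (sw 0 G) - Pr t b G) := by
  have key : ∀ H, Pr t a ((yy 0 - C t * yy 1) * H) = Pr t b ((yy 0 - yy 1) * H) := by
    intro H
    induction H using tau_induction t with
    | hadd x y hx hy => simp only [mul_add, map_add, hx, hy]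
    | hb g m =>
      have e1 : (yy 0 - C t * yy 1) * (tau t g * yy 0 ^ m) =
          tau t g * yy 0 ^ (m + 1) - tau t (C t * yy 0 * g) * yy 0 ^ m := by simp; ring
      have e2 : (yy 0 - yy 1) * (tau t g * yy 0 ^ m) =
          tau t g * yy 0 ^ (m + 1) - tau t (yy 0 * g) * yy 0 ^ m := by simp; ring
      rw [e1, e2, map_sub, map_sub, Pr_basis, Pr_basis, Pr_basis, Pr_basis]
      linear_combination g * h m
  rw [TT_apply, map_add, key, dd_spec, map_sub]

theorem Pr_Pr_sw (t : K) (a b : ℕ → VV K) (G : VV K) :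
    Pr t a (Pr t (fun m => tau t (b m)) (sw 0 G)) = Pr t b (Pr t (fun m => tau t (a m)) G) := by
  induction G using tau_induction t with
  | hadd x y hx hy => simp only [map_add, hx, hy]
  | hb g m =>
    induction g using tau_induction t with
    | hadd x y hx hy => simp only [add_mul, map_add, hx, hy]
    | hb g n =>
      have e : sw 0 (tau t (tau t g * yy 0 ^ n) * yy 0 ^ m) =
          tau t (tau t g * yy 0 ^ m) * yy 0 ^ n := by
        have : sw 0 (yy 1 : VV K) = yy 0 := sw_yy_succ 0
        simp [sw_tau_tau, this]; ring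
      rw [e, Pr_basis, Pr_basis, Pr_tau_mul t a (b n), Pr_tau_mul t b (a m), Pr_basis, Pr_basis]
      ring

theorem shf_tau (t : K) (a b : VV K) (G : VV K) : shf (tau t a) (tau t b) (tau t G) = tau t (shf a b G) := by
  refine vv_ext (f := (shf (tau t a) (tau t b)).comp (tau t)) (g := (tau t).comp (shf a b))
    (fun k => ?_) (fun j => by simp) G
  simp; ring

theorem sw_shf (i : ℕ) (a b G : VV K) :
    sw i (shf a b G) = shf (sw i a) (sw i b) (sw i G) := by
  refine vv_ext (f := (sw i).comp (shf a b)) (g := (shf (sw i a) (sw i b)).comp (sw i))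
    (fun k => by simp) (fun j => by simp [sw_yy]) G

theorem shf_TT (t : K) {i : ℕ} {a b : VV K} (ha : sw i a = a) (hb : sw i b = b) (G : VV K) :
    shf a b (TT t i G) = TT t i (shf a b G) :=
  TT_comm_hom t (shf a b) (by simp) (by simp) (fun G => by rw [sw_shf, ha, hb]) G

variable [CharZero K]

/-- The signed elementary functions. -/
noncomputable def eps (m : ℕ) : VV K := newton K (fun k => -pp k) m

omit [CharZero K] in
@[simp] theorem eps_zero : (eps 0 : VV K) = 1 := newton_zero _

theorem eps_one : (eps 1 : VV K) = -pp 0 := newton_one _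

omit [CharZero K] in
theorem sw_eps (i m : ℕ) : sw i (eps m : VV K) = eps m := by
  rw [eps, map_newton]; simp

theorem hom_eps (f : VV K →ₐ[K] VV K) {a b : VV K}
    (h : ∀ k, f (pp k) = pp k + (a ^ (k + 1) - b ^ (k + 1))) (m : ℕ) :
    f (eps (m + 1)) - b * f (eps m) = eps (m + 1) - a * eps m := by
  have e : (fun k => f (-pp k)) = fun k => -pp k + (b ^ (k + 1) - a ^ (k + 1)) := by
    funext k; rw [map_neg, h]; ring
  simp only [eps, map_newton, e]
  exact newton_shift _ _ _ _

/-- The lowering operator without shift. -/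
noncomputable def db (t : K) : VV K →ₗ[K] VV K := Pr t eps

/-- The lowering operator. -/
noncomputable def dm (t : K) : VV K →ₗ[K] VV K := -Pr t fun m => eps (m + 1)

omit [CharZero K] in
theorem dm_eq (t : K) (G : VV K) : dm t G = -db t (yy 0 * G) := by
  rw [db, Pr_y0]; rfl

omit [CharZero K] in
theorem db_tau (t : K) (G : VV K) : db t (tau t G) = G := by
  rw [db, Pr_tau]; simp

theorem dm_tau (t : K) (G : VV K) : dm t (tau t G) = pp 0 * G := by
  simp [dm, Pr_tau, eps_one]

omit [CharZero K] in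
theorem db_TT (t : K) (i : ℕ) (G : VV K) : db t (TT t (i + 1) G) = TT t i (db t G) :=
  Pr_TT t (sw_eps i) G

omit [CharZero K] in
theorem dm_TT (t : K) (i : ℕ) (G : VV K) : dm t (TT t (i + 1) G) = TT t i (dm t G) := by
  simp only [dm, LinearMap.neg_apply, map_neg]
  rw [Pr_TT t (fun m => sw_eps i (m + 1))]

omit [CharZero K] in
theorem db_yy (t : K) (i : ℕ) (G : VV K) : db t (yy (i + 1) * G) = yy i * db t G := Pr_yy t _ i G

theorem db_T0 (t : K) (G : VV K) : db t (TT t 0 G) =
    db t G + (Pr t (fun m => tau t (eps m)) (sw 0 G) - Pr t (fun m => tau t (eps m)) G) :=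
  Pr_T0 t (fun m => (hom_eps (tau t) (tau_pp t) m).symm) G

theorem db_T0_tau (t : K) (G : VV K) : db t (TT t 0 (tau t G)) = tau t (db t G) := by
  rw [db_T0, db_tau, Pr_tau, db, tau_Pr]
  simp

theorem db_db_T0 (t : K) (G : VV K) : db t (db t (TT t 0 G)) = db t (db t G) := by
  rw [db_T0, map_add, map_sub, db, Pr_Pr_sw]
  simp

omit [CharZero K] in
theorem dm_dm (t : K) (G : VV K) : dm t (dm t G) = db t (db t (yy 0 * yy 1 * G)) := by
  rw [dm_eq, dm_eq, mul_neg, map_neg, neg_neg, ← db_yy, mul_left_comm, mul_assoc]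

theorem dm_dm_T0 (t : K) (G : VV K) : dm t (dm t (TT t 0 G)) = dm t (dm t G) := by
  have : sw 0 (yy 1 : VV K) = yy 0 := sw_yy_succ 0
  rw [dm_dm, dm_dm, ← TT_mul t (by simp [this, mul_comm]), db_db_T0]

end Pool.Agent.Lib.MP_ef09c4_co
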