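import Pool.Agent.Lib.MP_ef09c4_co.Ops

/-!
Relations that involve the second raising operator.
-/

set_option autoImplicit false

namespace Pool.Agent.Lib.MP_ef09c4_co

open MvPolynomial

variable {K : Type} [Field K]

/-- Adding the alphabet `(t - 1) q y_j`. -/
noncomputable def sig (q t : K) (j : ℕ) : VV K →ₐ[K] VV K :=
  shf (C t * (C q * yy j)) (C q * yy j)

@[simp] theorem sig_pp (q t : K) (j k : ℕ) : sig q t j (pp k) =
    pp k + ((C t * (C q * yy j)) ^ (k + 1) - (C q * yy j) ^ (k + 1)) := shf_pp _ _ _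
@[simp] theorem sig_yy (q t : K) (j i : ℕ) : sig q t j (yy i) = yy i := shf_yy _ _ _
@[simp] theorem sig_C (q t : K) (j : ℕ) (c : K) : sig q t j (C c) = C c := algHom_C _ _

theorem sig_tau (q t : K) (j : ℕ) (G : VV K) :
    sig q t (j + 1) (tau t G) = tau t (sig q t j G) := by
  have := shf_tau t (C t * (C q * yy j)) (C q * yy j) G
  simpa [sig] using this

theorem sig_Pr (q t : K) (j : ℕ) (a : ℕ → VV K) (G : VV K) :
    sig q t j (Pr t a G) = Pr t (fun m => sig q t j (a m)) (sig q t (j + 1) G) :=
  hom_Pr t a _ _ (sig_tau q t j) (by simp) G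

theorem sig_TT (q t : K) {i j : ℕ} (h1 : j ≠ i) (h2 : j ≠ i + 1) (G : VV K) :
    sig q t j (TT t i G) = TT t i (sig q t j G) :=
  shf_TT t (by simp [sw_yy_ne h1 h2]) (by simp [sw_yy_ne h1 h2]) G

theorem sig_comm (q t : K) (i j : ℕ) (G : VV K) :
    sig q t i (sig q t j G) = sig q t j (sig q t i G) := by
  refine vv_ext (f := (sig q t i).comp (sig q t j)) (g := (sig q t j).comp (sig q t i))
    (fun k => ?_) (fun l => by simp) G
  simp; ring

theorem sw_sig (q t : K) (j : ℕ) (G : VV K) :
    sw j (sig q t (j + 1) G) = sig q t j (sw j G) := by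
  simp [sig, sw_shf]

theorem sw_sig_sig (q t : K) (j : ℕ) (G : VV K) :
    sw j (sig q t (j + 1) (sig q t j G)) = sig q t (j + 1) (sig q t j (sw j G)) := by
  rw [sw_sig, sig_comm q t (j + 1)]
  simp [sig, sw_shf]

theorem sig_sig_TT (q t : K) (j : ℕ) (G : VV K) :
    sig q t (j + 1) (sig q t j (TT t j G)) = TT t j (sig q t (j + 1) (sig q t j G)) := by
  have := TT_comm_hom t (i := j) (j := j) ((sig q t (j + 1)).comp (sig q t j)) (by simp) (by simp)
    (fun G => by rw [AlgHom.comp_apply, AlgHom.comp_apply, sw_sig_sig]) G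
  rwa [AlgHom.comp_apply, AlgHom.comp_apply] at this

theorem TT_Pr (t : K) (a : ℕ → VV K) {j : ℕ} {G : VV K} (h : sw (j + 1) G = G) :
    TT t j (Pr t a G) = Pr t (fun m => TT t j (a m)) G := by
  apply cancel_yy j
  rw [TT_spec, sw_Pr, h, ← Pr_seq t (fun m => TT_spec t j (a m)),
    Pr_seq t (a := fun m => (yy j - yy (j + 1)) * TT t j (a m)) (u := yy j - yy (j + 1)) (v := 0)
      (b := fun m => TT t j (a m)) (c := a) (fun m => by ring)]
  ring

theorem key_series {R : Type} [CommRing R] (t k u w : R)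
    (E Ea Eb Eab : PowerSeries R)
    (ha : (1 - PowerSeries.C (k * w) * PowerSeries.X) * Ea =
      (1 - PowerSeries.C (t * (k * w)) * PowerSeries.X) * E)
    (hb : (1 - PowerSeries.C (k * u) * PowerSeries.X) * Eb =
      (1 - PowerSeries.C (t * (k * u)) * PowerSeries.X) * E)
    (hab : (1 - PowerSeries.C (k * u) * PowerSeries.X) * Eab =
      (1 - PowerSeries.C (t * (k * u)) * PowerSeries.X) * Ea) :
    ∃ c : ℕ → R, ∀ m, PowerSeries.coeff m Eb - PowerSeries.coeff m Ea = (u - w) * c m ∧
      PowerSeries.coeff m Eab - (1 + t) * PowerSeries.coeff m Ea + t * PowerSeries.coeff m E =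
        (u - t * w) * c m := by
  have ga := geom_mul (k * w)
  have gb := geom_mul (k * u)
  generalize (PowerSeries.mk fun n => (k * w) ^ n) = A at ga
  generalize (PowerSeries.mk fun n => (k * u) ^ n) = B at gb
  simp only [map_mul] at ha hb hab ga gb
  let c : PowerSeries R := (1 - PowerSeries.C t) * PowerSeries.C k * PowerSeries.X * E * A * B
  have h1 : Eb - Ea = PowerSeries.C (u - w) * c := by
    simp only [map_sub, c]
    linear_combination B * hb - A * ha - Eb * gb + Ea * ga
      - (1 - PowerSeries.C t * (PowerSeries.C k * PowerSeries.C u) * PowerSeries.X) * E * B * ga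
      + (1 - PowerSeries.C t * (PowerSeries.C k * PowerSeries.C w) * PowerSeries.X) * E * A * gb
  have h2 : Eab - PowerSeries.C (1 + t) * Ea + PowerSeries.C t * E =
      PowerSeries.C (u - t * w) * c := by
    simp only [map_sub, map_add, map_mul, map_one, c]
    linear_combination B * hab - Eab * gb
      + ((1 - PowerSeries.C t * (PowerSeries.C k * PowerSeries.C u) * PowerSeries.X) * B -
          (1 + PowerSeries.C t)) * (A * ha - Ea * ga)
      + (1 + PowerSeries.C t) *
        (1 - PowerSeries.C t * (PowerSeries.C k * PowerSeries.C w) * PowerSeries.X) * E * A * gb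
      - PowerSeries.C t * E * ga -
        PowerSeries.C t * E * (1 - PowerSeries.C k * PowerSeries.C w * PowerSeries.X) * A * gb
  refine ⟨fun m => PowerSeries.coeff m c, fun m => ⟨?_, ?_⟩⟩
  · have := congrArg (PowerSeries.coeff m) h1
    rwa [PowerSeries.coeff_C_mul, map_sub] at this
  · have := congrArg (PowerSeries.coeff m) h2
    rwa [PowerSeries.coeff_C_mul, map_add, map_sub, PowerSeries.coeff_C_mul,
      PowerSeries.coeff_C_mul] at this

variable [CharZero K]

theorem ser_shift (f g : VV K →ₐ[K] VV K) {a b : VV K}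
    (h : ∀ k, f (pp k) = g (pp k) + (a ^ (k + 1) - b ^ (k + 1))) :
    (1 - PowerSeries.C b * PowerSeries.X) * PowerSeries.mk (fun m => f (eps m)) =
      (1 - PowerSeries.C a * PowerSeries.X) * PowerSeries.mk (fun m => g (eps m)) := by
  have e : (fun k => f (-pp k)) = fun k => g (-pp k) + (b ^ (k + 1) - a ^ (k + 1)) := by
    funext k; rw [map_neg, map_neg, h]; ring
  simp only [eps, map_newton, e]
  exact PE_shift _ _ _

theorem TT_sig_eps (q t : K) (j m : ℕ) : TT t j (sig q t (j + 1) (eps m)) =
    sig q t (j + 1) (sig q t j (eps m)) - C t * sig q t (j + 1) (eps m) + C t * eps m := by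
  obtain ⟨c, hc⟩ := key_series (C t : VV K) (C q) (yy j) (yy (j + 1)) _ _ _ _
    (ser_shift (sig q t (j + 1)) (AlgHom.id K _) (fun k => by simp))
    (ser_shift (sig q t j) (AlgHom.id K _) (fun k => by simp))
    (ser_shift ((sig q t (j + 1)).comp (sig q t j)) (sig q t (j + 1)) (fun k => by simp))
  obtain ⟨h1, h2⟩ := hc m
  simp only [PowerSeries.coeff_mk, AlgHom.comp_apply, AlgHom.id_apply] at h1 h2
  have : dd j (sig q t (j + 1) (eps m)) = c m := by
    apply cancel_yy j
    rw [dd_spec, sw_sig, sw_eps, h1]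
  rw [TT_apply, this]
  linear_combination -h2

omit [CharZero K] in
theorem dm_apply (t : K) (G : VV K) : dm t G = -Pr t (fun m => eps (m + 1)) G := rfl

/-- The commutator of the second raising operator with the lowering operator. -/
noncomputable def Phi (q t : K) (j : ℕ) : VV K →ₗ[K] VV K :=
  (sig q t j).toLinearMap.comp (dm t) - (dm t).comp (sig q t (j + 1)).toLinearMap

omit [CharZero K] in
theorem Phi_apply (q t : K) (j : ℕ) (G : VV K) :
    Phi q t j G = sig q t j (dm t G) - dm t (sig q t (j + 1) G) := rfl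

theorem rel_S5 (q t : K) (j : ℕ) {G : VV K} (h : TT t (j + 1) G = G) :
    TT t j (sig q t (j + 1) (Phi q t j G)) = t • Phi q t (j + 1) (sig q t (j + 1) G) := by
  have hs : sw (j + 1) (sig q t (j + 1 + 1) (sig q t (j + 1) G)) =
      sig q t (j + 1 + 1) (sig q t (j + 1) G) := by rw [sw_sig_sig, sw_of_TT h]
  simp only [Phi_apply, dm_apply, map_sub, map_neg, sig_Pr]
  rw [TT_Pr t _ hs, TT_Pr t _ hs]
  generalize sig q t (j + 1 + 1) (sig q t (j + 1) G) = H
  have e1 : (fun m => TT t j (sig q t (j + 1) (sig q t j (eps (m + 1))))) =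
      fun m => sig q t (j + 1) (sig q t j (eps (m + 1))) := by
    funext m
    exact TT_of_sw t (by rw [sw_sig_sig, sw_eps])
  rw [e1]
  induction H using tau_induction t with
  | hadd x y hx hy =>
    simp only [map_add, smul_eq_C_mul] at hx hy ⊢
    linear_combination hx + hy
  | hb g m =>
    simp only [Pr_basis, TT_sig_eps, smul_eq_C_mul]
    ring

theorem rel_S4 (q t : K) (j : ℕ) (G : VV K) :
    dm t (sig q t (j + 1) (dm t (TT t 0 G))) + t • dm t (sig q t (j + 1) (dm t G)) =
      t • dm t (dm t (sig q t (j + 2) G)) + sig q t j (dm t (dm t G)) := by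
  simp only [dm_apply, map_neg, sig_Pr, neg_neg]
  rw [sig_TT q t (by omega) (by omega), show j + 1 + 1 = j + 2 from rfl]
  generalize sig q t (j + 2) G = H
  have r1 : ∀ m, sig q t (j + 1) (eps (m + 1 + 1)) - C t * yy 0 * sig q t (j + 1) (eps (m + 1)) =
      tau t (sig q t j (eps (m + 1 + 1))) - yy 0 * tau t (sig q t j (eps (m + 1))) := by
    intro m
    have := congrArg (sig q t (j + 1)) (hom_eps (tau t) (tau_pp t) (m + 1))
    simp only [map_sub, map_mul, sig_yy, sig_C, sig_tau] at this
    exact this.symm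
  rw [Pr_T0 t r1, map_add, map_sub, Pr_Pr_sw]
  obtain ⟨c, hc⟩ := key_series (C t : VV K) 1 (yy 0) (C q * yy (j + 1)) _ _ _ _
    (ser_shift (sig q t (j + 1)) (AlgHom.id K _) (fun k => by simp))
    (ser_shift (tau t) (AlgHom.id K _) (fun k => by simp))
    (ser_shift ((tau t).comp (sig q t j)) (sig q t (j + 1)) (fun k => by simp; ring))
  simp only [PowerSeries.coeff_mk, AlgHom.comp_apply, AlgHom.id_apply] at hc
  have r2 : ∀ H : VV K, Pr t (fun m => sig q t j (eps (m + 1))) ((yy 0 - C q * yy (j + 1)) * H) =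
      Pr t (fun m => eps (m + 1)) ((yy 0 - C t * (C q * yy (j + 1))) * H) := by
    intro H
    induction H using tau_induction t with
    | hadd x y hx hy => simp only [mul_add, map_add, hx, hy]
    | hb g m =>
      have e1 : (yy 0 - C q * yy (j + 1)) * (tau t g * yy 0 ^ m) =
          tau t g * yy 0 ^ (m + 1) - tau t (C q * yy j * g) * yy 0 ^ m := by simp; ring
      have e2 : (yy 0 - C t * (C q * yy (j + 1))) * (tau t g * yy 0 ^ m) =
          tau t g * yy 0 ^ (m + 1) - tau t (C t * (C q * yy j) * g) * yy 0 ^ m := by simp; ring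
      rw [e1, e2, map_sub, map_sub, Pr_basis, Pr_basis, Pr_basis, Pr_basis]
      linear_combination g * hom_eps (sig q t j) (sig_pp q t j) (m + 1)
  induction H using tau_induction t with
  | hadd x y hx hy =>
    simp only [map_add, smul_add] at hx hy ⊢
    linear_combination hx + hy
  | hb g m =>
    simp only [Pr_basis]
    obtain ⟨h1, h2⟩ := hc (m + 1)
    have := r2 (c (m + 1) * g)
    rw [← mul_assoc, ← h1, ← mul_assoc, ← h2] at this
    have c1 : ∀ H : VV K, C t * H = t • H := fun H => (smul_eq_C_mul _ _).symm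
    simp only [sub_mul, add_mul, one_mul, c1, map_add, map_sub, map_smul,
      smul_mul_assoc] at this
    linear_combination this

end Pool.Agent.Lib.MP_ef09c4_co
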