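import Pool.Agent.Lib.MP_ef09c4_co.Exp

/-!
The action of the degree zero vertex operator on Jacobi-Trudi determinants.
-/

set_option autoImplicit false

namespace Pool.Agent.Lib.MP_ef09c4_co

open Finset

theorem det_add_rank_one {n R : Type} [Fintype n] [DecidableEq n] [CommRing R]
    (A : Matrix n n R) (u v : n → R) :
    (Matrix.of fun i j => A i j + v j * u i).det = A.det + ∑ j, v j * (A.updateCol j u).det := by
  have key : ∀ (S : Finset n) (A : Matrix n n R),
      (Matrix.of fun i j => if j ∈ S then A i j + v j * u i else A i j).det =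
        A.det + ∑ j ∈ S, v j * (A.updateCol j u).det := by
    intro S
    induction S using Finset.induction_on with
    | empty => intro A; simp; rfl
    | insert k S hk ih =>
      intro A
      have e : (Matrix.of fun i j => if j ∈ insert k S then A i j + v j * u i else A i j) =
          Matrix.of fun i j => if j ∈ S then
            (A.updateCol k ((fun i => A i k) + v k • u)) i j + v j * u i
            else (A.updateCol k ((fun i => A i k) + v k • u)) i j := by
        ext i j
        by_cases h : j = k
        · subst h; simp [hk]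
        · simp [h]
      rw [e, ih, Matrix.det_updateCol_add, Matrix.det_updateCol_smul, Matrix.updateCol_eq_self,
        sum_insert hk, add_assoc]
      congr 2
      refine sum_congr rfl fun j hj => ?_
      have hjk : k ≠ j := fun h => hk (h ▸ hj)
      rw [← Matrix.det_updateCol_add_smul_self (A.updateCol j u) hjk (v k)]
      congr 2
      ext a b
      by_cases h1 : b = j
      · subst h1; simp [hjk.symm]
      · by_cases h2 : b = k
        · subst h2; simp [h1]
        · simp [h1, h2]
  simpa using key univ A

theorem det_updateCol_eq {n R : Type} [Fintype n] [DecidableEq n] [CommRing R]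
    (A : Matrix n n R) (u : n → R) (j : n) :
    (A.updateCol j u).det = ∑ i, A.adjugate j i * u i := by
  rw [← Matrix.cramer_apply, Matrix.cramer_eq_adjugate_mulVec]
  rfl

/-- Pairing of a polynomial with a sequence. -/
noncomputable def pair {R : Type} [CommRing R] (a : ℕ → R) : Polynomial R →ₗ[R] R :=
  Polynomial.lsum fun m => LinearMap.mulLeft R (a m)

theorem pair_monomial {R : Type} [CommRing R] (a : ℕ → R) (m : ℕ) (g : R) :
    pair a (Polynomial.monomial m g) = a m * g := by simp [pair]

theorem pair_C_mul {R : Type} [CommRing R] (a : ℕ → R) (g : R) (f : Polynomial R) :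
    pair a (Polynomial.C g * f) = g * pair a f := by
  rw [← Polynomial.smul_eq_C_mul, map_smul, smul_eq_mul]

theorem pair_X_pow {R : Type} [CommRing R] (a : ℕ → R) (m : ℕ) :
    pair a (Polynomial.X ^ m) = a m := by
  rw [Polynomial.X_pow_eq_monomial, pair_monomial, mul_one]

theorem pair_X_mul {R : Type} [CommRing R] (a : ℕ → R) (f : Polynomial R) :
    pair a (Polynomial.X * f) = pair (fun m => a (m + 1)) f := by
  induction f using Polynomial.induction_on' with
  | add p q hp hq => rw [mul_add, map_add, map_add, hp, hq]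
  | monomial n g => rw [Polynomial.X_mul_monomial, pair_monomial, pair_monomial]

theorem map_pair {R S : Type} [CommRing R] [CommRing S] (φ : R →+* S) (a : ℕ → R)
    (f : Polynomial R) : φ (pair a f) = pair (fun m => φ (a m)) (f.map φ) := by
  induction f using Polynomial.induction_on' with
  | add p q hp hq => rw [Polynomial.map_add, map_add, map_add, map_add, hp, hq]
  | monomial n g => rw [Polynomial.map_monomial, pair_monomial, pair_monomial, map_mul]

variable {K : Type} [Field K]

open MvPolynomial

/-- Translation of the alphabet by a multiple of a new variable. -/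
noncomputable def sh (c : ℕ → K) : SymF K →ₐ[K] Polynomial (SymF K) :=
  aeval fun k => Polynomial.C (X k) + Polynomial.C (C (c k)) * Polynomial.X ^ (k + 1)

/-- Diagonal substitution. -/
noncomputable def dg (c : ℕ → K) : SymF K →ₐ[K] SymF K := aeval fun k => C (c k) * X k

@[simp] theorem sh_X (c : ℕ → K) (k : ℕ) : sh c (X k) =
    Polynomial.C (X k) + Polynomial.C (C (c k)) * Polynomial.X ^ (k + 1) := aeval_X _ _
@[simp] theorem dg_X (c : ℕ → K) (k : ℕ) : dg c (X k) = C (c k) * X k := aeval_X _ _
@[simp] theorem sh_C (c : ℕ → K) (a : K) : sh c (C a) = Polynomial.C (C a) := by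
  rw [algHom_C]; rfl
@[simp] theorem dg_C (c : ℕ → K) (a : K) : dg c (C a) = C a := algHom_C _ _

theorem pleth_eq (c : K) : pleth c = dg fun k => 1 - c ^ (k + 1) := rfl

theorem dg_dg (c c' : ℕ → K) (F : SymF K) : dg c (dg c' F) = dg (fun k => c k * c' k) F := by
  change (dg c).comp (dg c') F = _
  congr 1
  ext1 k
  simp; ring

theorem dg_one (F : SymF K) : dg (fun _ => 1) F = F := by
  change _ = AlgHom.id K _ F
  congr 1
  ext1 k
  simp

/-- A vertex operator mode. -/
noncomputable def Op (c : ℕ → K) (a : ℕ → SymF K) : SymF K →ₗ[K] SymF K :=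
  ((pair a).restrictScalars K).comp (sh c).toLinearMap

theorem Op_apply (c : ℕ → K) (a : ℕ → SymF K) (F : SymF K) : Op c a F = pair a (sh c F) := rfl

theorem dg_Op (c c' : ℕ → K) (a : ℕ → SymF K) (F : SymF K) :
    dg c (Op (fun k => c k * c' k) a F) = Op c' (fun m => dg c (a m)) (dg c F) := by
  have e : (sh (fun k => c k * c' k) F).map (dg c : SymF K →+* SymF K) = sh c' (dg c F) := by
    change (Polynomial.mapAlgHom (dg c)).comp (sh _) F = (sh c').comp (dg c) F
    congr 1
    ext1 k
    simp; ring
  rw [Op_apply, Op_apply, ← e]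
  exact map_pair (dg c : SymF K →+* SymF K) _ _

/-- Complete homogeneous functions. -/
noncomputable abbrev hL (m : ℕ) : SymF K := newton K X m

/-- Signed elementary functions. -/
noncomputable abbrev eL (m : ℕ) : SymF K := newton K (fun k => -X k) m

theorem hz_nat (n : ℕ) : hz K n = hL n := by simp [hz]

theorem hz_neg {m : ℤ} (h : m < 0) : hz K m = 0 := by simp [hz, h]

/-- Truncated generating polynomials of the complete homogeneous functions. -/
noncomputable def an : ℕ → Polynomial (SymF K)
  | 0 => 0
  | n + 1 => Polynomial.C (hL n) + Polynomial.X * an n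

theorem az_succ (m : ℤ) :
    (an (m + 1).toNat : Polynomial (SymF K)) = Polynomial.C (hz K m) + Polynomial.X * an m.toNat := by
  rcases lt_or_ge m 0 with h | h
  · rw [hz_neg h, show (m + 1).toNat = 0 by omega, show m.toNat = 0 by omega]
    simp [an]
  · obtain ⟨n, rfl⟩ := Int.eq_ofNat_of_zero_le h
    rw [show ((n : ℤ) + 1).toNat = n + 1 by omega, hz_nat, Int.toNat_natCast, an]

theorem pair_an (a : ℕ → SymF K) (n : ℕ) :
    pair a (an (n + 1)) = ∑ s ∈ range (n + 1), a s * hL (n - s) := by
  induction n generalizing a with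
  | zero => simp [an, ← Polynomial.monomial_zero_left, pair_monomial]
  | succ n ih =>
    rw [an, map_add, pair_X_mul, ih, sum_range_succ' _ (n + 1), add_comm,
      ← Polynomial.monomial_zero_left, pair_monomial]
    simp

theorem pair_X_pow_az (a : ℕ → SymF K) (j : ℕ) (b : ℤ) :
    pair a (Polynomial.X ^ (j + 1) * an b.toNat) =
      pair a (an (b + j + 1).toNat) - ∑ r ∈ range (j + 1), a (j - r) * hz K (b + r) := by
  induction j generalizing b with
  | zero =>
    rw [Nat.cast_zero, add_zero, az_succ, map_add, ← Polynomial.monomial_zero_left, pair_monomial]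
    simp
  | succ j ih =>
    have e : Polynomial.X ^ (j + 1 + 1) * (an b.toNat : Polynomial (SymF K)) =
        Polynomial.X ^ (j + 1) * an (b + 1).toNat -
          Polynomial.C (hz K b) * Polynomial.X ^ (j + 1) := by
      rw [az_succ]; ring
    rw [e, map_sub, ih, pair_C_mul, pair_X_pow, sum_range_succ' _ (j + 1)]
    simp only [Nat.cast_add, Nat.cast_one, Nat.add_sub_add_right, add_assoc, add_comm (1 : ℤ),
      Nat.cast_zero, add_zero, tsub_zero]
    ring

variable [CharZero K]

theorem sh_hz (t : K) (m : ℤ) : sh (fun k => 1 - t ^ (k + 1)) (hz K m) =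
    Polynomial.C (hz K m) + Polynomial.C (C (1 - t)) * Polynomial.X * an m.toNat := by
  rcases lt_or_ge m 0 with h | h
  · rw [hz_neg h, show m.toNat = 0 by omega]
    simp [an]
  obtain ⟨n, rfl⟩ := Int.eq_ofNat_of_zero_le h
  rw [hz_nat, Int.toNat_natCast]
  have e : (fun k => sh (fun k => 1 - t ^ (k + 1)) (X k)) = fun k => Polynomial.C (X k) +
      (Polynomial.X ^ (k + 1) - (Polynomial.C (C t) * Polynomial.X) ^ (k + 1)) := by
    funext k; simp; ring
  have e2 : ∀ n, newton K (fun k => (Polynomial.C (X k) : Polynomial (SymF K))) n =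
      Polynomial.C (hL n) := fun n => (map_newton (K := K) Polynomial.CAlgHom X n).symm
  rw [map_newton, e]
  clear h
  induction n with
  | zero => simp [an]
  | succ n ih =>
    have := newton_shift (K := K) (fun k => (Polynomial.C (X k) : Polynomial (SymF K)))
      Polynomial.X (Polynomial.C (C t) * Polynomial.X) n
    rw [ih, e2, e2] at this
    rw [an]
    simp only [map_sub, map_one] at this ⊢
    linear_combination this

theorem pair_eta (q : K) (m : ℤ) :
    pair (fun s => pleth q (eL s)) (an (m + 1).toNat) = C (q ^ m.toNat) * hz K m := by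
  rcases lt_or_ge m 0 with h | h
  · rw [hz_neg h, show (m + 1).toNat = 0 by omega]
    simp [an]
  obtain ⟨n, rfl⟩ := Int.eq_ofNat_of_zero_le h
  rw [show ((n : ℤ) + 1).toNat = n + 1 by omega, pair_an, hz_nat, Int.toNat_natCast, map_pow,
    ← newton_scale]
  simp only [map_newton, ← newton_add]
  congr 1
  funext k
  simp [pleth_eq]; ring

theorem Op_det (q t : K) {l : ℕ} (b : Fin l → ℤ) :
    Op (fun k => 1 - t ^ (k + 1)) (fun s => pleth q (eL s))
        (Matrix.of fun i j : Fin l => hz K (b i + (j : ℕ))).det =
      ∑ w : Equiv.Perm (Fin l), (((Equiv.Perm.sign w : ℤ) : K) *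
        (t ^ l + (1 - t) * ∑ j : Fin l, t ^ (j : ℕ) * q ^ (b (w j) + (j : ℕ)).toNat)) •
          ∏ j : Fin l, hz K (b (w j) + (j : ℕ)) := by
  set H : Matrix (Fin l) (Fin l) (SymF K) := Matrix.of fun i j => hz K (b i + (j : ℕ)) with hH
  have h1 : sh (fun k => 1 - t ^ (k + 1)) H.det =
      (Matrix.of fun i j => (Polynomial.C : SymF K →+* _).mapMatrix H i j +
        (Polynomial.C (C ((1 - t) * t ^ (j : ℕ))) * Polynomial.X ^ ((j : ℕ) + 1)) *
          an (b i).toNat).det := by
    rw [AlgHom.map_det]
    rcases l with _ | l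
    · simp
    let B : Matrix (Fin (l + 1)) (Fin (l + 1)) (Polynomial (SymF K)) := Matrix.of fun i j =>
      Fin.cases (Polynomial.C (H i 0) + Polynomial.C (C (1 - t)) * Polynomial.X * an (b i).toNat)
        (fun j => Polynomial.C (H i j.succ) -
          Polynomial.C (C t) * Polynomial.X * Polynomial.C (H i j.castSucc)) j
    rw [Matrix.det_eq_of_forall_col_eq_smul_add_pred (B := B) (fun _ => Polynomial.X)
      (fun i => by simp [B, hH, sh_hz]) (fun i j => by
        simp only [B, hH, AlgHom.mapMatrix_apply, Matrix.map_apply, Matrix.of_apply, sh_hz,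
          Fin.cases_succ, Fin.val_succ, Fin.val_castSucc, Nat.cast_add, Nat.cast_one,
          ← add_assoc, az_succ, map_sub, map_one]
        ring)]
    symm
    refine Matrix.det_eq_of_forall_col_eq_smul_add_pred (B := B)
      (fun _ => Polynomial.C (C t) * Polynomial.X) (fun i => by simp [B]) fun i j => ?_
    simp only [B, RingHom.mapMatrix_apply, Matrix.map_apply, Matrix.of_apply, Fin.cases_succ,
      Fin.val_succ, Fin.val_castSucc, map_mul, map_pow]
    ring
  have h2 : ∀ j : Fin l, ∑ i, H.adjugate j i *
      pair (fun s => pleth q (eL s)) (Polynomial.X ^ ((j : ℕ) + 1) * an (b i).toNat) =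
        (H.updateCol j fun i => C (q ^ (b i + (j : ℕ)).toNat) * H i j).det - H.det := by
    intro j
    simp only [pair_X_pow_az, pair_eta, mul_sub, sum_sub_distrib]
    rw [det_updateCol_eq]
    congr 1
    simp only [mul_sum]
    rw [sum_comm, sum_range_succ, sum_eq_zero, zero_add]
    · have := congrFun (congrFun (Matrix.adjugate_mul H) j) j
      simpa [Matrix.mul_apply, hH] using this
    · intro r hr
      have hr' : r < l := (mem_range.1 hr).trans j.2
      have := congrFun (congrFun (Matrix.adjugate_mul H) j) ⟨r, hr'⟩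
      rw [Matrix.smul_apply, Matrix.one_apply_ne (fun h => by
        have := congrArg Fin.val h
        have := mem_range.1 hr
        simp only at *
        omega), smul_zero, Matrix.mul_apply] at this
      simp only [mul_left_comm _ (pleth q _), ← mul_sum]
      simp only [hH, Matrix.of_apply] at this ⊢
      rw [this, mul_zero]
  have h3 : ∀ j : Fin l, (H.updateCol j fun i => C (q ^ (b i + (j : ℕ)).toNat) * H i j).det =
      ∑ w : Equiv.Perm (Fin l), (((Equiv.Perm.sign w : ℤ) : K) * q ^ (b (w j) + (j : ℕ)).toNat) •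
        ∏ j : Fin l, H (w j) j := by
    intro j
    rw [Matrix.det_apply']
    refine sum_congr rfl fun w _ => ?_
    rw [← mul_prod_erase univ _ (mem_univ j), ← mul_prod_erase univ (fun j => H (w j) j) (mem_univ j),
      prod_congr rfl fun k hk => Matrix.updateCol_ne (ne_of_mem_erase hk), smul_eq_C_mul]
    simp; ring
  have h4 : H.det = ∑ w : Equiv.Perm (Fin l), ((Equiv.Perm.sign w : ℤ) : K) •
      ∏ j : Fin l, H (w j) j := by
    rw [Matrix.det_apply']
    exact sum_congr rfl fun w _ => by simp [smul_eq_C_mul]
  have h5 : (1 - t) * ∑ j : Fin l, t ^ (j : ℕ) = 1 - t ^ l := by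
    rw [← sum_range (fun j => t ^ j), mul_neg_geom_sum]
  have h6 : ∀ j : Fin l, pair (fun s => pleth q (eL s))
      (Polynomial.C (C ((1 - t) * t ^ (j : ℕ))) * Polynomial.X ^ ((j : ℕ) + 1) *
        (((Polynomial.C : SymF K →+* _).mapMatrix H).updateCol j fun i => an (b i).toNat).det) =
      ∑ w : Equiv.Perm (Fin l), ((1 - t) * t ^ (j : ℕ) * (((Equiv.Perm.sign w : ℤ) : K) *
        (q ^ (b (w j) + (j : ℕ)).toNat - 1))) • ∏ j : Fin l, H (w j) j := by
    intro j
    rw [det_updateCol_eq, ← RingHom.map_adjugate, mul_assoc, pair_C_mul, mul_sum, map_sum]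
    simp only [RingHom.mapMatrix_apply, Matrix.map_apply,
      mul_left_comm (Polynomial.X ^ _) (Polynomial.C _), pair_C_mul]
    rw [h2, h3, h4, ← sum_sub_distrib, ← smul_eq_C_mul, smul_sum]
    refine sum_congr rfl fun w _ => ?_
    rw [← sub_smul, smul_smul]
    congr 1
    ring
  rw [Op_apply, h1, det_add_rank_one, map_add, map_sum, ← RingHom.map_det,
    ← Polynomial.monomial_zero_left, pair_monomial, sum_congr rfl fun j _ => h6 j, sum_comm,
    show (eL 0 : SymF K) = 1 from newton_zero _, map_one, one_mul, h4, ← sum_add_distrib]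
  refine sum_congr rfl fun w _ => ?_
  rw [← sum_smul, ← add_smul]
  congr 1
  have h7 : ∑ j : Fin l, (1 - t) * t ^ (j : ℕ) * (((Equiv.Perm.sign w : ℤ) : K) *
      (q ^ (b (w j) + (j : ℕ)).toNat - 1)) = ((Equiv.Perm.sign w : ℤ) : K) *
        ((1 - t) * ∑ j : Fin l, t ^ (j : ℕ) * q ^ (b (w j) + (j : ℕ)).toNat -
          (1 - t) * ∑ j : Fin l, t ^ (j : ℕ)) := by
    simp only [mul_sum, ← sum_sub_distrib]
    exact sum_congr rfl fun j _ => by ring
  rw [h7, h5]
  ring

end Pool.Agent.Lib.MP_ef09c4_co
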